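import Pool.Agent.MP_d8ab80_nt.Legendre

/-! A product formula for Legendre polynomials. -/

set_option linter.unusedSectionVars false
set_option linter.unusedSimpArgs false

namespace Pool.Agent.MP_d8ab80_nt
open Polynomial Finset

variable {k : Type*} [Field k]

/-- The Legendre operator. -/
noncomputable def LL (g : k[X]) : k[X] := derivative (X * (1 - X) * derivative g)

lemma LL_add (f g : k[X]) : LL (f + g) = LL f + LL g := by
  simp only [LL, derivative_add, mul_add]

lemma LL_C (a : k) (f : k[X]) : LL (C a * f) = C a * LL f := by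
  simp only [LL, derivative_C_mul, mul_left_comm _ (C a)]

lemma LL_sum {ι : Type*} (s : Finset ι) (f : ι → k[X]) : LL (∑ i ∈ s, f i) = ∑ i ∈ s, LL (f i) := by
  simp only [LL, derivative_sum, mul_sum]

lemma X_mul_deriv_coeff (g : k[X]) (j : ℕ) : (X * derivative g).coeff j = j * g.coeff j := by
  rcases j with _ | j
  · simp
  · rw [coeff_X_mul, coeff_derivative]; push_cast; ring

lemma LL_coeff (g : k[X]) (j : ℕ) :
    (LL g).coeff j = (j + 1) ^ 2 * g.coeff (j + 1) - j * (j + 1) * g.coeff j := by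
  have : X * (1 - X) * derivative g = X * derivative g - X * (X * derivative g) := by ring
  rw [LL, coeff_derivative, this, coeff_sub, coeff_X_mul (X * _), X_mul_deriv_coeff,
    X_mul_deriv_coeff]
  push_cast; ring

/-- The basic monomials. -/
noncomputable def EE (i j : ℕ) : k[X] := X ^ i * (1 - X) ^ j

lemma LL_EE (i j : ℕ) : LL (EE i j : k[X]) + ((i : k[X]) + (j : k[X])) * ((i : k[X]) + (j : k[X]) + 1)
    * (EE i j : k[X]) =
    (i : k[X]) ^ 2 * EE (i - 1) j + (j : k[X]) ^ 2 * EE i (j - 1) := by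
  have h1 : X * (1 - X) * derivative (EE i j : k[X]) =
      ((i : k[X]) * (1 - X) - (j : k[X]) * X) * EE i j := by
    rcases i with _ | i <;> rcases j with _ | j <;>
      simp only [EE, derivative_mul, derivative_pow_succ, derivative_sub, derivative_one,
        derivative_X, pow_zero, map_add, map_natCast, map_one] <;> push_cast <;> ring
  rw [LL, h1]
  rcases i with _ | i <;> rcases j with _ | j <;>
    simp only [EE, derivative_mul, derivative_pow_succ, derivative_sub, derivative_one,
      derivative_X, pow_zero, map_add, map_natCast, map_one, derivative_natCast,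
      Nat.add_sub_cancel, Nat.zero_sub] <;> push_cast <;> ring

/-- The homogeneous pieces. -/
noncomputable def ff (a b : k) (m : ℕ) : k[X] :=
  ∑ x ∈ antidiagonal m, C ((m.choose x.1 : k) ^ 2 * a ^ x.1 * b ^ x.2) * EE x.1 x.2

lemma LL_ff_zero (a b : k) : LL (ff a b 0) = 0 := by simp [ff, EE, LL]

lemma LL_ff (a b : k) (m : ℕ) : LL (ff a b (m + 1)) + ((m : k[X]) + 1) * (m + 2) * ff a b (m + 1) =
    ((m : k[X]) + 1) ^ 2 * C (a + b) * ff a b m := by
  have h1 : LL (ff a b (m + 1)) + ((m : k[X]) + 1) * (m + 2) * ff a b (m + 1) =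
      ∑ x ∈ antidiagonal (m + 1), C (((m + 1).choose x.1 : k) ^ 2 * a ^ x.1 * b ^ x.2) *
        ((x.1 : k[X]) ^ 2 * EE (x.1 - 1) x.2) +
      ∑ x ∈ antidiagonal (m + 1), C (((m + 1).choose x.1 : k) ^ 2 * a ^ x.1 * b ^ x.2) *
        ((x.2 : k[X]) ^ 2 * EE x.1 (x.2 - 1)) := by
    rw [ff, LL_sum, mul_sum, ← sum_add_distrib, ← sum_add_distrib]
    refine sum_congr rfl fun x hx => ?_
    have h2 : ((x.1 : k[X]) + x.2) = m + 1 := by
      exact_mod_cast congrArg (Nat.cast : ℕ → k[X]) (mem_antidiagonal.1 hx)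
    have h3 := LL_EE (k := k) x.1 x.2
    rw [h2] at h3
    rw [LL_C]
    linear_combination C (((m + 1).choose x.1 : k) ^ 2 * a ^ x.1 * b ^ x.2) * h3
  rw [h1, Finset.Nat.sum_antidiagonal_succ, Finset.Nat.sum_antidiagonal_succ', ff, mul_sum]
  simp only [Nat.cast_zero, ne_eq, OfNat.ofNat_ne_zero, not_false_eq_true, zero_pow, zero_mul,
    mul_zero, zero_add, Nat.add_sub_cancel]
  rw [← sum_add_distrib]
  refine sum_congr rfl fun x hx => ?_
  have hm := mem_antidiagonal.1 hx
  have h2 : ((m : k[X]) + 1) * (m.choose x.1 : k[X]) = ((m + 1).choose (x.1 + 1) : k[X]) * (x.1 + 1) := by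
    exact_mod_cast congrArg (Nat.cast : ℕ → k[X]) (Nat.add_one_mul_choose_eq m x.1)
  have h3 : ((m : k[X]) + 1) * (m.choose x.1 : k[X]) = ((m + 1).choose x.1 : k[X]) * (x.2 + 1) := by
    have := Nat.add_one_mul_choose_eq m x.2
    rw [Nat.choose_symm_of_eq_add (show m = x.2 + x.1 by omega),
      Nat.choose_symm_of_eq_add (show m + 1 = (x.2 + 1) + x.1 by omega)] at this
    exact_mod_cast congrArg (Nat.cast : ℕ → k[X]) this
  simp only [map_mul, map_pow, map_natCast, map_add]
  push_cast
  linear_combination (-(C a ^ (x.1 + 1) * C b ^ x.2 * EE x.1 x.2) * ((m + 1) * (m.choose x.1 : k[X])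
      + ((m + 1).choose (x.1 + 1) : k[X]) * (x.1 + 1))) * h2
    + (-(C a ^ x.1 * C b ^ (x.2 + 1) * EE x.1 x.2) * ((m + 1) * (m.choose x.1 : k[X])
      + ((m + 1).choose x.1 : k[X]) * (x.2 + 1))) * h3

lemma ff_natDegree (a b : k) (m : ℕ) : (ff a b m).natDegree ≤ m := by
  refine natDegree_sum_le_of_forall_le _ _ fun x hx => (natDegree_C_mul_le _ _).trans ?_
  have h1 : ((1 - X : k[X]) ^ x.2).natDegree ≤ x.2 * 1 :=
    natDegree_pow_le_of_le _ (by compute_degree)
  have := natDegree_mul_le_of_le (natDegree_X_pow_le (R := k) x.1) h1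
  have hm := mem_antidiagonal.1 hx
  rw [EE]; omega

lemma ff_eval (a b t : k) (m : ℕ) : (ff a b m).eval t =
    (((1 + C (a * t) * X) * (1 + C (b * (1 - t)) * X)) ^ m).coeff m := by
  have hc : ∀ (u : k) (i : ℕ), ((1 + C u * X) ^ m).coeff i = m.choose i * u ^ i := by
    intro u i
    have : (1 + C u * X) ^ m = ((1 + X) ^ m).comp (C u * X) := by simp
    rw [this, comp_C_mul_X_coeff, coeff_one_add_X_pow]
  rw [ff, eval_finsetSum, mul_pow, coeff_mul]
  refine sum_congr rfl fun x hx => ?_
  have hm := mem_antidiagonal.1 hx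
  rw [hc, hc, Nat.choose_symm_of_eq_add (show m = x.2 + x.1 by omega)]
  simp only [EE, eval_mul, eval_C, eval_pow, eval_X, eval_sub, eval_one, mul_pow]
  ring

lemma legendre_unique {n : ℕ} (hchar : ∀ j < n, ((j : k) + 1) ≠ 0) {g : k[X]}
    (hg : g.natDegree ≤ n) (hL : LL g + (n : k[X]) * (n + 1) * g = 0) (t : k) :
    g.eval t = g.eval 0 * pj t n := by
  have key : ∀ j ≤ n, g.coeff j = g.coeff 0 * ((-1) ^ j * bb n j) := by
    intro j
    induction j with
    | zero => intro _; simp [bb_zero]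
    | succ j ih =>
      intro hj
      have h1 := congrArg (fun P => coeff P j) hL
      have e : (n : k[X]) * (n + 1) = C ((n : k) * (n + 1)) := by simp
      simp only [e, coeff_add, coeff_C_mul, LL_coeff, coeff_zero] at h1
      have h2 := congrArg (Int.cast : ℤ → k) (bb_succ n j)
      push_cast at h2
      apply mul_left_cancel₀ (pow_ne_zero 2 (hchar j (by omega)))
      rw [ih (by omega)] at h1
      linear_combination h1 + (g.coeff 0 * (-1) ^ j) * h2
  rw [eval_eq_sum_range' (Nat.lt_succ_of_le hg), pj, mul_sum, ← coeff_zero_eq_eval_zero]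
  refine sum_congr rfl fun j hj => ?_
  rw [key j (by simpa [Nat.lt_succ_iff] using hj), neg_pow t]
  ring

lemma ff_eval_zero (a b : k) (m : ℕ) : (ff a b m).eval 0 = b ^ m := by
  rw [ff_eval]
  have : ((1 + C (a * 0) * X) * (1 + C (b * (1 - 0)) * X)) ^ m = ((1 + X) ^ m).comp (C b * X) := by
    simp
  rw [this, comp_C_mul_X_coeff, coeff_one_add_X_pow]; simp

lemma pj_eq_coeff {n : ℕ} (hchar : ∀ j < n, ((j : k) + 1) ≠ 0) (t : k) :
    pj t n = (((1 - C t * X) * (1 + C (1 - t) * X)) ^ n).coeff n := by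
  have h := legendre_unique hchar (ff_natDegree (-1) 1 n) (by
    rcases n with _ | n
    · simp [LL_ff_zero]
    · have := LL_ff (-1 : k) 1 n
      simp only [neg_add_cancel, map_zero, mul_zero, zero_mul] at this
      push_cast
      linear_combination this) t
  rw [ff_eval_zero, one_pow, one_mul, ff_eval] at h
  rw [← h]
  simp [sub_eq_add_neg]

theorem product_formula {n : ℕ} (hchar : ∀ j < n, ((j : k) + 1) ≠ 0) (t y : k) :
    ∑ m ∈ range (n + 1), (-1) ^ m * (bb n m : k) * (ff (1 - y) y m).eval t = pj y n * pj t n := by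
  set g := ∑ m ∈ range (n + 1), C ((-1) ^ m * (bb n m : k)) * ff (1 - y) y m with hg
  have tel : ∀ N, ∑ m ∈ range (N + 1), C ((-1) ^ m * (bb n m : k)) *
      (LL (ff (1 - y) y m) + (n : k[X]) * (n + 1) * ff (1 - y) y m) =
      C ((-1) ^ N * (bb n N : k)) * ((n : k[X]) * (n + 1) - N * (N + 1)) * ff (1 - y) y N := by
    intro N
    induction N with
    | zero => simp [LL_ff_zero, mul_assoc]
    | succ N ih =>
      rw [sum_range_succ, ih]
      have h1 := LL_ff (1 - y) y N
      rw [sub_add_cancel, map_one] at h1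
      have h2 := congrArg (Int.cast : ℤ → k[X]) (bb_succ n N)
      simp only [map_mul, map_pow, map_neg, map_one, map_natCast]
      push_cast at h2 ⊢
      linear_combination ((-1) ^ (N + 1) * (bb n (N + 1) : k[X])) * h1
        - ((-1) ^ N * ff (1 - y) y N) * h2
  have h := legendre_unique hchar (g := g) (natDegree_sum_le_of_forall_le _ _ fun m hm =>
    (natDegree_C_mul_le _ _).trans ((ff_natDegree _ _ _).trans
      (by simpa [Nat.lt_succ_iff] using hm))) (by
    have := tel n
    rw [sub_self, mul_zero, zero_mul] at this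
    rw [← this, hg, LL_sum, mul_sum, ← sum_add_distrib]
    refine sum_congr rfl fun m _ => ?_
    rw [LL_C]; ring) t
  simp only [hg, eval_finsetSum, eval_mul, eval_C, ff_eval_zero] at h
  rw [h, pj]
  congr 1
  refine sum_congr rfl fun m _ => ?_
  rw [neg_pow y]; ring

lemma coeff_one_add_sq (c : k) (m : ℕ) : ((1 + C c * X ^ 2) ^ m).coeff m =
    if 2 ∣ m then (m.choose (m / 2) : k) * c ^ (m / 2) else 0 := by
  have : (1 + C c * X ^ 2) ^ m = expand k 2 (((1 + X) ^ m).comp (C c * X)) := by simp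
  rw [this, coeff_expand two_pos, comp_C_mul_X_coeff, coeff_one_add_X_pow]

lemma sum_even (F : ℕ → k) (hF : ∀ j, F (2 * j + 1) = 0) (N : ℕ) :
    ∑ m ∈ range (2 * N), F m = ∑ j ∈ range N, F (2 * j) := by
  induction N with
  | zero => simp
  | succ N ih => rw [show 2 * (N + 1) = 2 * N + 1 + 1 by ring, sum_range_succ, sum_range_succ, ih,
      hF, sum_range_succ, add_zero]

theorem even_sum {n N : ℕ} (hN : n < 2 * N) (hchar : ∀ j < n, ((j : k) + 1) ≠ 0) {t y c : k}
    (h1 : (1 - y) * t + y * (1 - t) = 0) (h2 : (1 - y) * t * (y * (1 - t)) = c) :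
    ∑ j ∈ range N, (j.centralBinom : k) * (bb n (2 * j) : k) * c ^ j = pj y n * pj t n := by
  rw [← product_formula hchar]
  have e : ∀ m, (ff (1 - y) y m).eval t =
      if 2 ∣ m then (m.choose (m / 2) : k) * c ^ (m / 2) else 0 := by
    intro m
    rw [ff_eval, ← coeff_one_add_sq]
    congr 2
    have e1 := congrArg C h1
    have e2 := congrArg C h2
    rw [map_add, map_zero] at e1
    rw [map_mul] at e2
    linear_combination X * e1 + X ^ 2 * e2
  rw [sum_subset (range_subset_range.2 (show n + 1 ≤ 2 * N by omega)) (fun m _ hm => by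
    rw [bb_eq_zero (by simpa using hm)]; simp), sum_even _ (fun j => by
    rw [e, if_neg (by omega), mul_zero])]
  refine sum_congr rfl fun j _ => ?_
  rw [e, if_pos (dvd_mul_right _ _), Nat.mul_div_cancel_left _ two_pos, pow_mul, Nat.centralBinom]
  ring

end Pool.Agent.MP_d8ab80_nt
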