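import Mathlib

/-! Definitions used in the statement. -/

namespace Pool.Agent.MP_d8ab80_nt

/-- `S(p) = ∑_{k<p} C(2k,k) C(4k,2k) / 63 ^ k`. -/
def sumS (p : ℕ) : ℚ :=
  ∑ k ∈ Finset.range p, ((2 * k).choose k : ℚ) * ((4 * k).choose (2 * k) : ℚ) / 63 ^ k

/-- `T(p) = ∑_{k<p} (k + 8) C(2k,k) C(4k,2k) / 63 ^ k`. -/
def sumT (p : ℕ) : ℚ :=
  ∑ k ∈ Finset.range p,
    ((k : ℚ) + 8) * ((2 * k).choose k : ℚ) * ((4 * k).choose (2 * k) : ℚ) / 63 ^ k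

/-- `U(p) = ∑_{k<p} C(2k,k) C(4k,2k) ^ 2 / 63 ^ k`. -/
def sumU (p : ℕ) : ℚ :=
  ∑ k ∈ Finset.range p, ((2 * k).choose k : ℚ) * ((4 * k).choose (2 * k) : ℚ) ^ 2 / 63 ^ k

/-- `A ≡ B (mod p ^ m)` for rationals: `(A - B) / p ^ m` has denominator prime to `p`. -/
def Cong (p m : ℕ) (A B : ℚ) : Prop := ¬ p ∣ ((A - B) / (p : ℚ) ^ m).den

end Pool.Agent.MP_d8ab80_nt
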