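import Pool.Agent.MP_d8ab80_nt.PartB

/-! Transfer to the `p`-adic integers and to rational numbers. -/

set_option linter.unusedSectionVars false
set_option linter.unusedSimpArgs false

namespace Pool.Agent.MP_d8ab80_nt
open Finset

variable {p : ℕ} [hp : Fact p.Prime]

lemma toZMod_eq_zero (x : ℤ_[p]) : PadicInt.toZMod x = 0 ↔ (p : ℤ_[p]) ∣ x := by
  rw [← RingHom.mem_ker, PadicInt.ker_toZMod, PadicInt.maximalIdeal_eq_span_p,
    Ideal.mem_span_singleton]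

lemma norm_one_of_not_dvd {u : ℤ} (h : ¬ (p : ℤ) ∣ u) : ‖(u : ℤ_[p])‖ = 1 :=
  le_antisymm (PadicInt.norm_le_one _) (not_lt.1 (by rwa [PadicInt.norm_int_lt_one_iff_dvd]))

lemma exists_inv_int {u : ℤ} (h : ¬ (p : ℤ) ∣ u) : ∃ v : ℤ_[p], (u : ℤ_[p]) * v = 1 :=
  (PadicInt.isUnit_iff.2 (norm_one_of_not_dvd h)).exists_right_inv

lemma not_dvd_den {q : ℚ} {m : ℕ} {Z : ℤ_[p]} (hZ : (p : ℤ_[p]) ^ m ∣ Z) (h : (q : ℚ_[p]) = Z) :
    ¬ p ∣ (q / (p : ℚ) ^ m).den := by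
  obtain ⟨W, rfl⟩ := hZ
  have hp0 : (p : ℚ_[p]) ≠ 0 := by exact_mod_cast hp.out.ne_zero
  have h1 : ((q / (p : ℚ) ^ m : ℚ) : ℚ_[p]) = W := by
    push_cast
    rw [h]; push_cast
    field_simp
  have h2 := PadicInt.isUnit_den (p := p) (q / (p : ℚ) ^ m) (by rw [h1]; exact W.2)
  rw [PadicInt.isUnit_iff] at h2
  intro h3
  have : ‖(((q / (p : ℚ) ^ m).den : ℤ) : ℤ_[p])‖ < 1 := by
    rw [PadicInt.norm_int_lt_one_iff_dvd]; exact_mod_cast h3
  rw [Int.cast_natCast, h2] at this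
  exact lt_irrefl _ this

lemma exists_i63 (h3 : 3 < p) (h7 : p ≠ 7) : ∃ i : ℤ_[p], 63 * i = 1 := by
  have : ¬ (p : ℤ) ∣ (63 : ℤ) := by
    intro h
    have h1 : p ∣ 3 * (3 * 7) := by exact_mod_cast h
    rcases (Nat.Prime.dvd_mul hp.out).1 h1 with h | h
    · have := Nat.le_of_dvd (by norm_num) h; omega
    rcases (Nat.Prime.dvd_mul hp.out).1 h with h | h
    · have := Nat.le_of_dvd (by norm_num) h; omega
    · exact h7 ((Nat.prime_dvd_prime_iff_eq hp.out (by norm_num)).1 h)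
  simpa using exists_inv_int this

lemma cast_sum63 {i : ℤ_[p]} (hi : 63 * i = 1) (c : ℕ → ℕ) :
    ((∑ k ∈ range p, (c k : ℚ) / 63 ^ k : ℚ) : ℚ_[p]) =
      ((∑ k ∈ range p, (c k : ℤ_[p]) * i ^ k : ℤ_[p]) : ℚ_[p]) := by
  have h1 : (i : ℚ_[p]) = 63⁻¹ := by
    have := congrArg ((↑) : ℤ_[p] → ℚ_[p]) hi
    push_cast at this
    exact eq_inv_of_mul_eq_one_right this
  rw [PadicInt.coe_sum]
  push_cast
  refine sum_congr rfl fun k _ => ?_
  rw [h1, inv_pow, div_eq_mul_inv]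

lemma exists_root (h3 : 3 < p) (h7 : p ≠ 7) {x y : ℤ} (h : (p : ℤ) = x ^ 2 + 7 * y ^ 2) :
    ∃ φ u : ℤ_[p], φ ^ 2 = φ - 2 ∧ (p : ℤ_[p]) ∣ x + y * (2 * φ - 1) ∧ 2 * x * u = 1 := by
  have hc := coprime_xy hp.out h
  have hpz := Nat.prime_iff_prime_int.1 hp.out
  have hxy : ¬ ((p : ℤ) ∣ x ∧ (p : ℤ) ∣ y) := fun hh =>
    hpz.not_unit (hc.isUnit_of_dvd' hh.1 hh.2)
  have hy : ¬ (p : ℤ) ∣ y := by
    intro hy
    refine hxy ⟨hpz.dvd_of_dvd_pow (n := 2) ?_, hy⟩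
    rw [show x ^ 2 = p - 7 * y * y by rw [h]; ring]
    exact dvd_sub dvd_rfl (hy.mul_left _)
  have hx : ¬ (p : ℤ) ∣ x := by
    intro hx
    have h1 : (p : ℤ) ∣ 7 * y ^ 2 := by
      rw [show 7 * y ^ 2 = p - x * x by rw [h]; ring]
      exact dvd_sub dvd_rfl (hx.mul_left _)
    rcases hpz.dvd_or_dvd h1 with h2 | h2
    · exact h7 ((Nat.prime_dvd_prime_iff_eq hp.out (by norm_num)).1 (by exact_mod_cast h2))
    · exact hy (hpz.dvd_of_dvd_pow h2)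
  have h2 : ¬ (p : ℤ) ∣ 2 := by
    intro h2
    have := Int.le_of_dvd (by norm_num) h2
    omega
  have h2x : ¬ (p : ℤ) ∣ 2 * x := fun hh => (hpz.dvd_or_dvd hh).elim h2 hx
  obtain ⟨u, hu⟩ := exists_inv_int h2x
  obtain ⟨v, hv⟩ := exists_inv_int hy
  obtain ⟨t, ht⟩ := exists_inv_int h2
  have n2x := norm_one_of_not_dvd h2x
  let F : Polynomial ℤ_[p] :=
    Polynomial.X ^ 2 - Polynomial.C ((2 * x : ℤ) : ℤ_[p]) * Polynomial.X + Polynomial.C (p : ℤ_[p])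
  have e0 : ∀ z : ℤ_[p], F.aeval z = z ^ 2 - ((2 * x : ℤ) : ℤ_[p]) * z + p := by
    intro z; simp [F]
  have e1 : ‖F.derivative.aeval (0 : ℤ_[p])‖ = 1 := by
    rw [← n2x, ← norm_neg]
    simp only [F, Polynomial.derivative_add, Polynomial.derivative_sub, Polynomial.derivative_C,
      Polynomial.derivative_C_mul, Polynomial.derivative_X, Polynomial.derivative_X_pow]
    simp
  obtain ⟨z, hz, hz', -⟩ := hensels_lemma (F := F) (a := 0) (by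
    rw [e0, e1, one_pow, PadicInt.norm_lt_one_iff_dvd]; simp)
  rw [e1, sub_zero, PadicInt.norm_lt_one_iff_dvd] at hz'
  rw [e0] at hz
  have hA : (p : ℤ_[p]) = x ^ 2 + 7 * y ^ 2 := by exact_mod_cast congrArg (Int.cast : ℤ → ℤ_[p]) h
  push_cast at hz hu ht
  have hr : ((z - x) * v) ^ 2 = -7 := by
    linear_combination v ^ 2 * hz - v ^ 2 * hA - 7 * (y * v + 1) * hv
  refine ⟨(1 + (z - x) * v) * t, u, ?_, ?_, hu⟩
  · linear_combination t ^ 2 * hr + ((1 + (z - x) * v) * t - 2 * (2 * t + 1)) * ht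
  · have : (x : ℤ_[p]) + y * (2 * ((1 + (z - x) * v) * t) - 1) = z := by
      linear_combination (y * (1 + (z - x) * v)) * ht + (z - x) * hv
    rw [this]; exact hz'

theorem final_a (h3 : 3 < p) {x y : ℤ} (h7 : jacobiSym p 7 = 1) (h : (p : ℤ) = x ^ 2 + 7 * y ^ 2)
    (hx : jacobiSym x 7 = 1) :
    ¬ p ∣ (((∑ k ∈ range p, (((2 * k).choose k * (4 * k).choose (2 * k) : ℕ) : ℚ) / 63 ^ k)
      - jacobiSym p 3 * (2 * x - p / (2 * x))) / (p : ℚ) ^ 2).den ∧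
    ¬ p ∣ (((∑ k ∈ range p,
        (((k + 8) * ((2 * k).choose k * (4 * k).choose (2 * k)) : ℕ) : ℚ) / 63 ^ k)
      - 8 * jacobiSym p 3 * x) / (p : ℚ) ^ 2).den := by
  have h7' : p ≠ 7 := by rintro rfl; norm_num at h7
  obtain ⟨i, hi⟩ := exists_i63 h3 h7'
  obtain ⟨φ, u, hφ, hπ, hu⟩ := exists_root h3 h7' h
  obtain ⟨s1, s2⟩ := partA_gen h3 PadicInt.toZMod toZMod_eq_zero hφ hi h hx
    ((toZMod_eq_zero _).2 hπ)
  have hA : (p : ℤ_[p]) = x ^ 2 + 7 * y ^ 2 := by exact_mod_cast congrArg (Int.cast : ℤ → ℤ_[p]) h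
  have e4 : ∀ k, 4 * k = 2 * (2 * k) := fun k => by ring
  constructor
  · have d : (p : ℤ_[p]) ^ 2 ∣ jacobiSym p 3 * ((x - y * (2 * φ - 1)) - (2 * x - p * u)) := by
      obtain ⟨z, hz⟩ := hπ
      refine Dvd.dvd.mul_left ⟨-(z ^ 2 * u), ?_⟩ _
      linear_combination (-u * (x + y * (2 * φ - 1) + p * z)) * hz
        + (x + y * (2 * φ - 1)) * hu + u * hA + (4 * u * y ^ 2) * hφ
    apply not_dvd_den (dvd_add s1 d)
    have hu' : (u : ℚ_[p]) = (2 * x : ℚ_[p])⁻¹ := by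
      have := congrArg ((↑) : ℤ_[p] → ℚ_[p]) hu
      push_cast at this
      exact eq_inv_of_mul_eq_one_right this
    rw [Rat.cast_sub, cast_sum63 hi]
    simp only [Nat.centralBinom, e4]
    push_cast
    rw [hu', div_eq_mul_inv, show ((2 : ℤ_[p]) : ℚ_[p]) = 2 from rfl]
    ring
  · apply not_dvd_den s2
    rw [Rat.cast_sub, cast_sum63 hi]
    simp only [Nat.centralBinom, e4]
    push_cast
    rw [show ((8 : ℤ_[p]) : ℚ_[p]) = 8 from rfl]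

theorem final_b (h3 : 3 < p) (h7 : jacobiSym p 7 = -1) :
    ¬ p ∣ ((∑ k ∈ range p, (((2 * k).choose k * (4 * k).choose (2 * k) : ℕ) : ℚ) / 63 ^ k)
      / (p : ℚ) ^ 1).den ∧
    ¬ p ∣ ((∑ k ∈ range p, (((2 * k).choose k * (4 * k).choose (2 * k) ^ 2 : ℕ) : ℚ) / 63 ^ k)
      / (p : ℚ) ^ 1).den := by
  have h7' : p ≠ 7 := by rintro rfl; norm_num at h7
  obtain ⟨i, hi⟩ := exists_i63 h3 h7'
  obtain ⟨s1, s2⟩ := partB_gen h3 PadicInt.toZMod toZMod_eq_zero hi h7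
  have e4 : ∀ k, 4 * k = 2 * (2 * k) := fun k => by ring
  rw [← pow_one (p : ℤ_[p])] at s1 s2
  constructor
  · apply not_dvd_den s1
    rw [cast_sum63 hi]
    simp only [Nat.centralBinom, e4]
    push_cast
    rfl
  · apply not_dvd_den s2
    rw [cast_sum63 hi]
    simp only [Nat.centralBinom, e4]
    push_cast
    rfl

end Pool.Agent.MP_d8ab80_nt
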