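import Pool.Agent.MP_d8ab80_nt.Main

/-! Vanishing of the Hasse invariant at inert primes. -/

set_option linter.unusedSectionVars false
set_option linter.unusedSimpArgs false

namespace Pool.Agent.MP_d8ab80_nt
open PowerSeries

variable {k : Type*} [Field k] {p : ℕ} [hp : Fact p.Prime] [CharP k p]

lemma charP_series : CharP k⟦X⟧ p :=
  charP_of_injective_ringHom (f := C (R := k)) C_injective p

lemma cast_ne_zero_of_lt {j : ℕ} (hj : j + 1 < p) : ((j : k) + 1) ≠ 0 := by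
  intro h0
  have : ((j + 1 : ℕ) : k) = 0 := by push_cast; exact h0
  rw [CharP.cast_eq_zero_iff k p] at this
  exact absurd (Nat.le_of_dvd (by omega) this) (by omega)

lemma cartier_pow {m : ℕ} (hm : p = m + 1) {τ : k⟦X⟧} (h0 : constantCoeff τ = 0) (j : ℕ) :
    coeff m (τ ^ j * d⁄dX k τ) = if j = m then coeff 1 τ ^ p else 0 := by
  rcases lt_or_ge j m with hj | hj
  · rw [if_neg hj.ne]
    have h1 := congrArg (coeff m) (d_pow τ j)
    have e : ((j : k⟦X⟧) + 1) = C ((j : k) + 1) := by simp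
    have hp0 : ((m : k) + 1) = 0 := by
      have := CharP.cast_eq_zero k p
      rw [hm] at this
      exact_mod_cast this
    rw [coeff_derivative, hp0, mul_zero, e, mul_assoc, coeff_C_mul] at h1
    exact (mul_eq_zero.1 h1.symm).resolve_left (cast_ne_zero_of_lt (p := p) (by omega))
  · obtain ⟨τ₁, rfl⟩ := X_dvd_iff.2 h0
    rw [mul_pow, mul_assoc, coeff_X_pow_mul']
    rcases hj.eq_or_lt with rfl | hj
    · rw [if_pos le_rfl, if_pos rfl, Nat.sub_self, d_mul, derivative_X, hm, pow_succ,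
        coeff_succ_X_mul]
      simp
    · rw [if_neg (by omega), if_neg (by omega)]

lemma cartier {m : ℕ} (hm : p = m + 1) {τ : k⟦X⟧} (h0 : constantCoeff τ = 0) (P : Polynomial k) :
    coeff m (Polynomial.aeval τ P * d⁄dX k τ) = P.coeff m * coeff 1 τ ^ p := by
  induction P using Polynomial.induction_on' with
  | add f g hf hg => rw [map_add, add_mul, map_add, hf, hg, Polynomial.coeff_add, add_mul]
  | monomial j a =>
    rw [← Polynomial.C_mul_X_pow_eq_monomial, map_mul (Polynomial.aeval τ), map_pow, aeval_C',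
      Polynomial.aeval_X, mul_assoc, coeff_C_mul, cartier_pow hm h0, Polynomial.coeff_C_mul, Polynomial.coeff_X_pow]
    by_cases h : j = m
    · simp [h]
    · rw [if_neg h, if_neg (Ne.symm h)]; simp

lemma coeff_pow_p_mul {m : ℕ} (hm : m < p) (u f : k⟦X⟧) :
    coeff m (u ^ p * f) = constantCoeff u ^ p * coeff m f := by
  have := charP_series (k := k) (p := p)
  obtain ⟨h, hh⟩ : (X : k⟦X⟧) ∣ u - C (constantCoeff u) := by rw [X_dvd_iff]; simp
  have e : u = C (constantCoeff u) + X * h := by rw [← hh]; ring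
  have e2 : u ^ p * f = C (constantCoeff u ^ p) * f + X ^ p * (h ^ p * f) := by
    conv_lhs => rw [e, add_pow_char, mul_pow, ← map_pow]
    ring
  rw [e2, map_add, coeff_C_mul, coeff_X_pow_mul', if_neg (by omega), add_zero]

/-- The scaled quadratic. -/
noncomputable def Qt (φ : k) : Polynomial k :=
  1 + Polynomial.C (3 * (2 * φ - 1)) * Polynomial.X - 16 * Polynomial.X ^ 2

theorem hasse_zero {n : ℕ} (hn : p = 2 * n + 1) {φ : k} (hφ : φ ^ 2 = φ - 2) (h0 : φ ≠ 0)
    (h1 : φ ^ (2 * n) ≠ 1) : (Qt φ ^ n).coeff n = 0 := by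
  obtain ⟨I, hI⟩ := exists_inv (f := (1 + 4 * C φ * X : k⟦X⟧)) (by simp)
  have hf : (C φ : k⟦X⟧) ^ 2 = C φ - 2 := by rw [← map_pow, hφ, map_sub, map_ofNat]
  have dI : d⁄dX k I = -4 * C φ * I ^ 2 := by
    have := congrArg (d⁄dX k) hI
    simp only [d_mul, map_add, derivative_one, derivative_X, derivative_C, d_ofNat] at this
    linear_combination I * this - d⁄dX k I * hI
  have cI : constantCoeff I = 1 := by
    have := congrArg constantCoeff hI
    simpa using this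
  set τ : k⟦X⟧ := C φ ^ 2 * X * (1 + (3 * C φ - 1) * X) * I ^ 2 with hτ
  have dτ : d⁄dX k τ = C φ ^ 2 * (1 - 2 * (1 - C φ) * X) * I ^ 3 := by
    simp only [hτ, d_mul, d_sq, map_add, map_sub, derivative_one, derivative_X, derivative_C,
      d_ofNat, dI]
    linear_combination (-C φ ^ 2 * (1 + 2 * (3 * C φ - 1) * X) * I ^ 2) * hI
  have aQ : ∀ s : k⟦X⟧, Polynomial.aeval s (Polynomial.X * Qt φ) =
      s * (1 + 3 * (2 * C φ - 1) * s - 16 * s ^ 2) := by
    intro s
    simp only [Qt, map_mul, map_add, map_sub, map_pow, map_one, map_ofNat, aeval_C',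
      Polynomial.aeval_X]
  have key : d⁄dX k τ ^ 2 * Polynomial.aeval (X : k⟦X⟧) (Polynomial.X * Qt φ) =
      C φ ^ 2 * Polynomial.aeval τ (Polynomial.X * Qt φ) := by
    rw [aQ, aQ, dτ, hτ]
    set f : k⟦X⟧ := C φ
    linear_combination I ^ 6 * (- 3*X^2*f^4 - 6*X^2*f^5 - 14*X^3*f^5 + 26*X^4*f^4 - 68*X^3*f^6
      + 5*X^4*f^5 - 32*X^5*f^4 + 9*X^4*f^6 + 48*X^5*f^5 - 294*X^4*f^7 + 8*X^5*f^6 + 120*X^5*f^7
      - 576*X^5*f^8 + 144*X^6*f^8 - 432*X^6*f^9) * hf
      + (f ^ 2 * (f ^ 2 * X * (1 + (3 * f - 1) * X)) * I ^ 2 * (I * (1 + 4 * f * X) + 1) *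
        ((I * (1 + 4 * f * X)) ^ 2 + 1
          + 3 * (2 * f - 1) * (f ^ 2 * X * (1 + (3 * f - 1) * X)) * I ^ 2)) * hI
  have c0 : constantCoeff τ = 0 := by simp [hτ]
  have c1 : constantCoeff (d⁄dX k τ) = φ ^ 2 := by rw [dτ]; simp [cI]
  have c2 : coeff 1 τ = φ ^ 2 := by
    rw [← c1, ← coeff_zero_eq_constantCoeff_apply, coeff_derivative]; simp
  have e1 : C (φ ^ (2 * n)) * (Polynomial.aeval τ ((Polynomial.X * Qt φ) ^ n) * d⁄dX k τ) =
      d⁄dX k τ ^ p * Polynomial.aeval (X : k⟦X⟧) ((Polynomial.X * Qt φ) ^ n) := by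
    have := congrArg (· ^ n) key
    simp only [mul_pow, ← pow_mul] at this
    rw [map_pow, map_pow, map_pow, hn, pow_succ]
    linear_combination (-d⁄dX k τ) * this
  have e2 := congrArg (coeff (2 * n)) e1
  have e3 := cartier hn (τ := (X : k⟦X⟧)) (by simp) ((Polynomial.X * Qt φ) ^ n)
  rw [derivative_X, mul_one, coeff_one_X, one_pow, mul_one] at e3
  rw [coeff_C_mul, cartier hn c0, coeff_pow_p_mul (by omega), c1, c2, e3, mul_pow, two_mul n,
    Polynomial.coeff_X_pow_mul, ← two_mul] at e2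
  have e4 : (φ ^ 2) ^ p * ((φ ^ (2 * n) - 1) * (Qt φ ^ n).coeff n) = 0 := by
    linear_combination e2
  exact (mul_eq_zero.1 ((mul_eq_zero.1 e4).resolve_left (pow_ne_zero _ (pow_ne_zero _ h0)))).resolve_left
    (sub_ne_zero.2 h1)

theorem coeff_omega {n : ℕ} (hn : p = 2 * n + 1) {c : k} {g g₁ : k⟦X⟧}
    (hg0 : ((1 - X ^ 4) ^ 2 + C c * X ^ 4) * g ^ 2 = 1) (hg : g = 1 + X ^ 4 * g₁) :
    coeff (2 * n) ((1 - X ^ 2) * g) = (QQ c ^ n).coeff (2 * n) := by
  obtain ⟨ie, s, w, iw, ω, U⟩ := exists_udata c hg0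
  have h1 : w ^ (2 * n + 1) * iw ^ p = 1 := by rw [← hn, ← mul_pow, U.hw, one_pow]
  have e : ω = iw ^ p * (Polynomial.aeval s (QQ c ^ n) * d⁄dX k s) := by
    rw [map_pow, aeval_QQ, ← U.hQ, U.ds]
    linear_combination (-ω) * h1
  have c0 : constantCoeff iw = 1 := by rw [U.hiw, hg]; simp
  have c1 : coeff 1 s = 1 := by
    have := congrArg constantCoeff U.hie
    rw [U.hs, coeff_succ_X_mul]
    simpa using this
  rw [← U.hω, e, coeff_pow_p_mul (by omega), cartier hn U.cc_s, c0, c1]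
  simp

end Pool.Agent.MP_d8ab80_nt
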