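import Pool.Agent.MP_d8ab80_nt.ODE

/-! Legendre polynomials: generating function and interpolation in the degree. -/

set_option linter.unusedSectionVars false
set_option linter.unusedSimpArgs false

namespace Pool.Agent.MP_d8ab80_nt
open Finset

/-- The coefficient `C(j+k,2k) C(2k,k)`. -/
def bb (j k : ℕ) : ℕ := (j + k).choose (2 * k) * k.centralBinom

lemma choose_succ_int (n k : ℕ) :
    ((k : ℤ) + 1) * (n.choose (k + 1) : ℤ) = (n.choose k : ℤ) * (n - k) := by
  rcases le_or_gt k n with h | h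
  · have := Nat.choose_succ_right_eq n k
    zify [h] at this
    linarith
  · rw [Nat.choose_eq_zero_of_lt h, Nat.choose_eq_zero_of_lt (by omega)]; simp

lemma choose_succ_succ_int (n k : ℕ) :
    ((n : ℤ) + 1) * (n.choose k : ℤ) = ((n + 1).choose (k + 1) : ℤ) * (k + 1) := by
  exact_mod_cast Nat.add_one_mul_choose_eq n k

lemma cb_succ (k : ℕ) :
    ((k : ℤ) + 1) * ((k + 1).centralBinom : ℤ) = 2 * (2 * k + 1) * (k.centralBinom : ℤ) := by
  exact_mod_cast Nat.succ_mul_centralBinom_succ k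

lemma bb_zero (j : ℕ) : bb j 0 = 1 := by simp [bb]

lemma bb_eq_zero {j k : ℕ} (h : j < k) : bb j k = 0 := by
  rw [bb, Nat.choose_eq_zero_of_lt (by omega), zero_mul]

lemma bb_succ (j k : ℕ) :
    ((k : ℤ) + 1) ^ 2 * bb j (k + 1) = (j - k) * (j + k + 1) * bb j k := by
  have h1 := cb_succ k
  have h2 := choose_succ_succ_int (j + k) (2 * k + 1)
  have h3 := choose_succ_int (j + k) (2 * k)
  simp only [bb]
  push_cast at *
  rw [show j + (k + 1) = j + k + 1 by ring, show 2 * (k + 1) = 2 * k + 1 + 1 by ring]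
  apply mul_left_cancel₀ (show (2 : ℤ) ≠ 0 by norm_num)
  linear_combination (2 * (k + 1) * ((j + k + 1).choose (2 * k + 1 + 1) : ℤ)) * h1
    - (2 * (2 * k + 1) * (k.centralBinom : ℤ)) * h2
    + (2 * (j + k + 1) * (k.centralBinom : ℤ)) * h3

lemma bb_i (j k : ℕ) : ((k : ℤ) + 1) * bb (j + 1) (k + 1) + 2 * k * bb (j + 1) k
    - (k + 1) * bb j (k + 1) = 2 * (j + 1) * bb (j + 1) k := by
  have h1 := cb_succ k
  have h3 := choose_succ_int (j + k + 1) (2 * k)
  simp only [bb]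
  rw [show j + 1 + (k + 1) = (j + k + 1) + 1 by ring, show 2 * (k + 1) = 2 * k + 1 + 1 by ring,
    show j + (k + 1) = j + k + 1 by ring, show j + 1 + k = j + k + 1 by ring,
    Nat.choose_succ_succ' (j + k + 1) (2 * k + 1)]
  push_cast at *
  linear_combination (((j + k + 1).choose (2 * k + 1) : ℤ)) * h1
    + (2 * (k.centralBinom : ℤ)) * h3

lemma bb_ii (j k : ℕ) : ((k : ℤ) + 1) * bb (j + 1) (k + 1) - (k + 1) * bb j (k + 1)
    - 2 * k * bb j k = 2 * (j + 1) * bb j k := by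
  have h1 := cb_succ k
  have h3 := choose_succ_succ_int (j + k) (2 * k)
  simp only [bb]
  rw [show j + 1 + (k + 1) = (j + k + 1) + 1 by ring, show 2 * (k + 1) = 2 * k + 1 + 1 by ring,
    show j + (k + 1) = j + k + 1 by ring, Nat.choose_succ_succ' (j + k + 1) (2 * k + 1)]
  push_cast at *
  linear_combination (((j + k + 1).choose (2 * k + 1) : ℤ)) * h1
    - (2 * (k.centralBinom : ℤ)) * h3

section
variable {A : Type*} [CommRing A]

/-- The Legendre polynomial of degree `j` at `1 - 2 z`. -/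
def pj (z : A) (j : ℕ) : A := ∑ k ∈ range (j + 1), (bb j k : A) * (-z) ^ k

/-- Its logarithmic derivative numerator `z d/dz`. -/
def dj (z : A) (j : ℕ) : A := ∑ k ∈ range (j + 1), (k : A) * (bb j k : A) * (-z) ^ k

lemma pj_eq (z : A) {j N : ℕ} (h : j < N) : pj z j = ∑ k ∈ range N, (bb j k : A) * (-z) ^ k := by
  rw [pj]
  apply sum_subset (range_subset_range.2 h)
  intro k _ hk
  rw [bb_eq_zero (by simpa using hk)]; simp

lemma dj_eq (z : A) {j N : ℕ} (h : j < N) :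
    dj z j = ∑ k ∈ range N, (k : A) * (bb j k : A) * (-z) ^ k := by
  rw [dj]
  apply sum_subset (range_subset_range.2 h)
  intro k _ hk
  rw [bb_eq_zero (by simpa using hk)]; simp

lemma dj_eq' (z : A) {j N : ℕ} (h : j ≤ N) :
    dj z j = ∑ k ∈ range N, ((k : A) + 1) * (bb j (k + 1) : A) * (-z) ^ (k + 1) := by
  rw [dj_eq z (Nat.lt_succ_of_le h), sum_range_succ']
  simp

lemma pj_zero (z : A) : pj z 0 = 1 := by simp [pj, bb_zero]

lemma dj_zero (z : A) : dj z 0 = 0 := by simp [dj]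

lemma dj_i (z : A) (j : ℕ) :
    (1 - 2 * z) * dj z (j + 1) - dj z j = -2 * z * (j + 1) * pj z (j + 1) := by
  have e : (1 - 2 * z) * dj z (j + 1) = dj z (j + 1) - 2 * z * dj z (j + 1) := by ring
  rw [e]
  nth_rewrite 1 [dj_eq' z (show j + 1 ≤ j + 2 by omega)]
  rw [dj_eq' z (show j ≤ j + 2 by omega), dj_eq z (show j + 1 < j + 2 by omega),
    pj_eq z (show j + 1 < j + 2 by omega), mul_sum, mul_sum, ← sum_sub_distrib, ← sum_sub_distrib]
  refine sum_congr rfl fun k _ => ?_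
  have := congrArg (Int.cast : ℤ → A) (bb_i j k)
  push_cast at this
  linear_combination (-z) ^ (k + 1) * this

lemma dj_ii (z : A) (j : ℕ) :
    dj z (j + 1) - (1 - 2 * z) * dj z j = -2 * z * (j + 1) * pj z j := by
  have e : (1 - 2 * z) * dj z j = dj z j - 2 * z * dj z j := by ring
  rw [e]
  nth_rewrite 1 [dj_eq' z (show j ≤ j + 1 by omega)]
  rw [dj_eq' z (show j + 1 ≤ j + 1 by omega), dj_eq z (show j < j + 1 by omega),
    pj_eq z (show j < j + 1 by omega), mul_sum, mul_sum, ← sum_sub_distrib, ← sum_sub_distrib]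
  refine sum_congr rfl fun k _ => ?_
  have := congrArg (Int.cast : ℤ → A) (bb_ii j k)
  push_cast at this
  linear_combination (-z) ^ (k + 1) * this

/-- The generating function of the Legendre values. -/
noncomputable def Gs (z : A) : PowerSeries A := PowerSeries.mk (pj z)

/-- The generating function of the derivatives. -/
noncomputable def G1s (z : A) : PowerSeries A := PowerSeries.mk (dj z)

lemma coeff_Gs (z : A) (n : ℕ) : PowerSeries.coeff n (Gs z) = pj z n := PowerSeries.coeff_mk _ _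

lemma coeff_G1s (z : A) (n : ℕ) : PowerSeries.coeff n (G1s z) = dj z n := PowerSeries.coeff_mk _ _

lemma cc_Gs (z : A) : PowerSeries.constantCoeff (Gs z) = 1 := by
  rw [← PowerSeries.coeff_zero_eq_constantCoeff_apply, coeff_Gs, pj_zero]

lemma cc_G1s (z : A) : PowerSeries.constantCoeff (G1s z) = 0 := by
  rw [← PowerSeries.coeff_zero_eq_constantCoeff_apply, coeff_G1s, dj_zero]

open PowerSeries in
lemma gf_i (z : A) : (1 - 2 * C z - X) * G1s z = -2 * C z * (X * d⁄dX A (Gs z)) := by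
  have e1 : (1 - 2 * C z - X) * G1s z = C (1 - 2 * z) * G1s z - X * G1s z := by
    simp only [map_sub, map_mul, map_one, map_ofNat]; ring
  have e2 : (-2 * C z : A⟦X⟧) = C (-2 * z) := by simp only [map_neg, map_mul, map_ofNat]
  rw [e1, e2]
  ext n
  rcases n with _ | n
  · simp [cc_G1s]
  · rw [map_sub, coeff_C_mul, coeff_C_mul, coeff_succ_X_mul, coeff_succ_X_mul, coeff_derivative]
    simp only [coeff_Gs, coeff_G1s]
    linear_combination dj_i z n

open PowerSeries in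
lemma gf_ii (z : A) : G1s z - (1 - 2 * C z) * (X * G1s z) =
    -2 * C z * (X * (Gs z + X * d⁄dX A (Gs z))) := by
  have e1 : (1 - 2 * C z : A⟦X⟧) = C (1 - 2 * z) := by
    simp only [map_sub, map_mul, map_one, map_ofNat]
  have e2 : (-2 * C z : A⟦X⟧) = C (-2 * z) := by simp only [map_neg, map_mul, map_ofNat]
  rw [e1, e2]
  ext n
  rcases n with _ | n
  · simp [cc_G1s]
  · rw [map_sub, coeff_C_mul, coeff_C_mul, coeff_succ_X_mul, coeff_succ_X_mul, map_add]
    have : coeff n (X * d⁄dX A (Gs z)) = n * pj z n := by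
      rcases n with _ | n
      · simp
      · rw [coeff_succ_X_mul, coeff_derivative, coeff_Gs]; push_cast; ring
    rw [this]
    simp only [coeff_Gs, coeff_G1s]
    linear_combination dj_ii z n

open PowerSeries in
lemma gf_sq [IsDomain A] [CharZero A] {z : A} (hz : z ≠ 0) :
    ((1 - X) ^ 2 + 4 * C z * X) * Gs z ^ 2 = 1 := by
  have h1 := gf_i z
  have h2 := gf_ii z
  have h0 : (-2 * C z * X : A⟦X⟧) ≠ 0 := by
    have e2 : (-2 * C z : A⟦X⟧) = C (-2 * z) := by simp only [map_neg, map_mul, map_ofNat]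
    rw [e2]
    refine mul_ne_zero ?_ X_ne_zero
    intro h
    have := congrArg constantCoeff h
    simp [hz] at this
  set G := Gs z
  set G1 := G1s z
  have h3 : ((1 - X) ^ 2 + 4 * C z * X) * d⁄dX A G = (1 - 2 * C z - X) * G := by
    apply mul_left_cancel₀ h0
    linear_combination (1 - 2 * C z - X) * h2 - (((1 - X) ^ 2 + 4 * C z * X)
      + (1 - 2 * C z - X) * X) * h1
  apply derivative.ext
  · simp only [d_mul, d_sq, map_add, map_sub, derivative_C, d_ofNat, derivative_one, derivative_X]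
    linear_combination 2 * G * h3
  · simp [G, cc_Gs]

open PowerSeries in
lemma gf_d [IsDomain A] [CharZero A] {z : A} (hz : z ≠ 0) :
    G1s z = -2 * C z * X * Gs z ^ 3 := by
  have h1 := gf_i z
  have h2 := gf_ii z
  have h3 := gf_sq hz
  linear_combination Gs z ^ 2 * (h2 - X * h1) - G1s z * h3

end

/-- The interpolation polynomial. -/
noncomputable def HH (k : ℕ) : Polynomial ℤ :=
  ∏ i ∈ range k, (Polynomial.C (16 * (i : ℤ) * (i + 1)) - Polynomial.X)

lemma HH_succ (k : ℕ) (B : ℤ) :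
    (HH (k + 1)).eval B = (HH k).eval B * (16 * k * (k + 1) - B) := by
  rw [HH, prod_range_succ, Polynomial.eval_mul, ← HH]; simp

lemma HH_zero (B : ℤ) : (HH 0).eval B = 1 := by simp [HH]

lemma HH_bb (j k : ℕ) :
    (HH k).eval (16 * (j : ℤ) * (j + 1)) = (-16) ^ k * (k.factorial : ℤ) ^ 2 * bb j k := by
  induction k with
  | zero => simp [HH_zero, bb_zero]
  | succ k ih =>
    rw [HH_succ, ih, Nat.factorial_succ]
    push_cast
    linear_combination (16 * (-16) ^ k * (k.factorial : ℤ) ^ 2) * bb_succ j k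

lemma HH_a (k : ℕ) : 4 ^ k * (HH k).eval (-3) =
    (k.factorial : ℤ) ^ 2 * ((k.centralBinom : ℤ) * (2 * k).centralBinom) := by
  induction k with
  | zero => simp [HH_zero]
  | succ k ih =>
    rw [HH_succ, Nat.factorial_succ, show 2 * (k + 1) = 2 * k + 1 + 1 by ring]
    have h1 := cb_succ k
    have h2 := cb_succ (2 * k)
    have h3 := cb_succ (2 * k + 1)
    push_cast at *
    apply mul_left_cancel₀ (show (2 : ℤ) ≠ 0 by norm_num)
    linear_combination (8 * (16 * k * (k + 1) + 3)) * ih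
      - ((k.factorial : ℤ) ^ 2 * (2 * k + 2) * ((2 * k + 1 + 1).centralBinom : ℤ)) * h1
      - ((k.factorial : ℤ) ^ 2 * 2 * (2 * k + 1) * (k.centralBinom : ℤ)) * h3
      - ((k.factorial : ℤ) ^ 2 * 4 * (4 * k + 3) * (k.centralBinom : ℤ)) * h2

lemma HH_c (k : ℕ) : (HH k).eval (-4) = (k.factorial : ℤ) ^ 2 * (k.centralBinom : ℤ) ^ 2 := by
  induction k with
  | zero => simp [HH_zero]
  | succ k ih =>
    rw [HH_succ, Nat.factorial_succ, ih]
    have h1 := cb_succ k
    push_cast at *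
    linear_combination (-(k.factorial : ℤ) ^ 2 * (((k : ℤ) + 1) * ((k + 1).centralBinom : ℤ)
      + 2 * (2 * k + 1) * (k.centralBinom : ℤ))) * h1

lemma taylor_dvd (P : Polynomial ℤ) (x d₁ d₂ q : ℤ) (h₁ : q ∣ d₁) (h₂ : q ∣ d₂)
    (h : q ^ 2 ∣ 3 * d₁ + d₂) :
    q ^ 2 ∣ 4 * P.eval x - 3 * P.eval (x + d₁) - P.eval (x + d₂) := by
  obtain ⟨k₁, e₁⟩ := P.binomExpansion x d₁
  obtain ⟨k₂, e₂⟩ := P.binomExpansion x d₂
  obtain ⟨u₁, rfl⟩ := h₁
  obtain ⟨u₂, rfl⟩ := h₂
  obtain ⟨u, hu⟩ := h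
  exact ⟨-(Polynomial.eval x (Polynomial.derivative P) * u) - 3 * k₁ * u₁ ^ 2 - k₂ * u₂ ^ 2, by
    rw [e₁, e₂]
    linear_combination (-Polynomial.eval x (Polynomial.derivative P)) * hu⟩

lemma cancel_fact {p k : ℕ} (hp : p.Prime) (hk : k < p) (e : ℕ) {x : ℤ}
    (h : (p : ℤ) ^ e ∣ (k.factorial : ℤ) ^ 2 * x) : (p : ℤ) ^ e ∣ x := by
  have hc : IsCoprime ((p : ℤ) ^ e) ((k.factorial : ℤ) ^ 2) := by
    apply IsCoprime.pow
    rw [Nat.isCoprime_iff_coprime, hp.coprime_iff_not_dvd, hp.dvd_factorial]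
    omega
  exact hc.dvd_of_dvd_mul_left h

lemma interp_sq {p k j₁ j₂ : ℕ} (hp : p.Prime) (hk : k < p)
    (h₁ : (p : ℤ) ∣ 16 * j₁ * (j₁ + 1) + 3) (h₂ : (p : ℤ) ∣ 16 * j₂ * (j₂ + 1) + 3)
    (h : (p : ℤ) ^ 2 ∣ 3 * (16 * j₁ * (j₁ + 1) + 3) + (16 * j₂ * (j₂ + 1) + 3)) :
    (p : ℤ) ^ 2 ∣ 4 * ((k.centralBinom : ℤ) * (2 * k).centralBinom)
      - (-64) ^ k * (3 * bb j₁ k + bb j₂ k) := by
  apply cancel_fact hp hk
  have := (taylor_dvd (HH k) (-3) _ _ _ h₁ h₂ h).mul_left (4 ^ k)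
  rw [show (-3 : ℤ) + (16 * j₁ * (j₁ + 1) + 3) = 16 * j₁ * (j₁ + 1) by ring,
    show (-3 : ℤ) + (16 * j₂ * (j₂ + 1) + 3) = 16 * j₂ * (j₂ + 1) by ring, HH_bb, HH_bb] at this
  have e : (-64 : ℤ) ^ k = 4 ^ k * (-16) ^ k := by rw [← mul_pow]; norm_num
  have e2 : (k.factorial : ℤ) ^ 2 * (4 * ((k.centralBinom : ℤ) * (2 * k).centralBinom)
      - (-64) ^ k * (3 * bb j₁ k + bb j₂ k)) = 4 ^ k * (4 * (HH k).eval (-3)
      - 3 * ((-16) ^ k * (k.factorial : ℤ) ^ 2 * bb j₁ k)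
      - (-16) ^ k * (k.factorial : ℤ) ^ 2 * bb j₂ k) := by
    rw [e]; linear_combination (-4) * HH_a k
  rw [e2]; exact this

lemma interp_one {p k j : ℕ} (hp : p.Prime) (hk : k < p)
    (h₁ : (p : ℤ) ∣ 16 * j * (j + 1) + 3) :
    (p : ℤ) ∣ ((k.centralBinom : ℤ) * (2 * k).centralBinom) - (-64) ^ k * bb j k := by
  rw [← pow_one (p : ℤ)]
  apply cancel_fact hp hk
  rw [pow_one]
  rw [← sub_neg_eq_add] at h₁
  have := (h₁.trans (Polynomial.sub_dvd_eval_sub (16 * (j : ℤ) * (j + 1)) (-3) (HH k))).mul_left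
    (-4 ^ k)
  rw [HH_bb] at this
  have e : (-64 : ℤ) ^ k = 4 ^ k * (-16) ^ k := by rw [← mul_pow]; norm_num
  have e2 : (k.factorial : ℤ) ^ 2 * (((k.centralBinom : ℤ) * (2 * k).centralBinom)
      - (-64) ^ k * bb j k) = -4 ^ k * ((-16) ^ k * (k.factorial : ℤ) ^ 2 * bb j k
      - (HH k).eval (-3)) := by
    rw [e]; linear_combination (-1) * HH_a k
  rw [e2]; exact this

lemma interp_c {p k n : ℕ} (hp : p.Prime) (hk : k < p) (hn : p = 2 * n + 1) :
    (p : ℤ) ∣ (k.centralBinom : ℤ) ^ 2 - (-16) ^ k * bb n k := by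
  rw [← pow_one (p : ℤ)]
  apply cancel_fact hp hk
  rw [pow_one]
  have h₁ : (p : ℤ) ∣ 16 * n * (n + 1) - (-4) := ⟨4 * p, by rw [hn]; push_cast; ring⟩
  have := (h₁.trans (Polynomial.sub_dvd_eval_sub (16 * (n : ℤ) * (n + 1)) (-4) (HH k))).neg_right
  rw [HH_bb, HH_c] at this
  have e2 : (k.factorial : ℤ) ^ 2 * ((k.centralBinom : ℤ) ^ 2 - (-16) ^ k * bb n k) =
      -((-16) ^ k * (k.factorial : ℤ) ^ 2 * bb n k
        - (k.factorial : ℤ) ^ 2 * (k.centralBinom : ℤ) ^ 2) := by ring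
  rw [e2]; exact this

end Pool.Agent.MP_d8ab80_nt
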