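import Pool.Agent.MP_d8ab80_nt.Poly

/-! The congruences modulo `p ^ 2` for the invariant differential and its derivative. -/

set_option linter.unusedSectionVars false
set_option linter.unusedSimpArgs false

namespace Pool.Agent.MP_d8ab80_nt
open PowerSeries

section
variable {A : Type*} [CommRing A]

lemma d_expand' {p n : ℕ} (hn : p = 2 * n + 1) (hp : p ≠ 0) (f : A⟦X⟧) :
    d⁄dX A (expand p hp f) = C (p : A) * X ^ (2 * n) * expand p hp (d⁄dX A f) := by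
  subst hn
  rw [d_expand]; simp [map_ofNat]

lemma Lam_expand' {p n : ℕ} (hn : p = 2 * n + 1) (hp : p ≠ 0) (f : A⟦X⟧) :
    Lam n (X ^ (2 * n) * expand p hp f) = 3 * coeff 0 f - coeff 2 f := by
  subst hn
  exact Lam_expand n f

lemma Lam_d' {p n : ℕ} (hn : p = 2 * n + 1) (f : A⟦X⟧) :
    Lam n (d⁄dX A f) = 3 * p * Psi n f := by
  rw [Lam_d, hn]; push_cast; ring

lemma aeval_QQ (s : A⟦X⟧) (c : A) :
    Polynomial.aeval s (QQ c) = 1 - 4 * s ^ 2 + C c * s ^ 4 := by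
  simp [QQ, PowerSeries.algebraMap_apply, map_ofNat]

lemma aeval_Qh (s : A⟦X⟧) (c : A) :
    Polynomial.aeval s (Qh c) = -4 * s + 2 * C c * s ^ 3 := by
  simp [Qh, PowerSeries.algebraMap_apply, map_ofNat]

lemma aeval_C' (s : A⟦X⟧) (c : A) : Polynomial.aeval s (Polynomial.C c) = C c := by
  simp [PowerSeries.algebraMap_apply]

lemma C_ne_zero' {a : A} (ha : a ≠ 0) : (C a : A⟦X⟧) ≠ 0 := by
  intro h
  have := congrArg constantCoeff h
  simp [ha] at this

/-- The uniformising data in the parameter `u`. -/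
structure UData (c : A) (g ie s w iw ω : A⟦X⟧) : Prop where
  hie : ie * (1 + X ^ 2) = 1
  hs : s = X * ie
  hiw : iw = (1 + X ^ 2) ^ 2 * g
  hω : ω = (1 - X ^ 2) * g
  hw : w * iw = 1
  hQ : w ^ 2 = 1 - 4 * s ^ 2 + C c * s ^ 4
  ds : d⁄dX A s = ω * w

lemma exists_udata (c : A) {g : A⟦X⟧} (hg : ((1 - X ^ 4) ^ 2 + C c * X ^ 4) * g ^ 2 = 1) :
    ∃ ie s w iw ω, UData c g ie s w iw ω := by
  obtain ⟨ie, hie⟩ := exists_inv (f := (1 + X ^ 2 : A⟦X⟧)) (by simp)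
  have die : d⁄dX A ie = -2 * X * ie ^ 2 := by
    have := congrArg (d⁄dX A) hie
    simp only [d_mul, d_sq, map_add, derivative_one, derivative_X] at this
    linear_combination ie * this - d⁄dX A ie * hie
  refine ⟨ie, X * ie, ((1 - X ^ 4) ^ 2 + C c * X ^ 4) * g * ie ^ 2, _, _, hie, rfl, rfl, rfl,
    ?_, ?_, ?_⟩
  · linear_combination (ie * (1 + X ^ 2)) ^ 2 * hg + (ie * (1 + X ^ 2) + 1) * hie
  · linear_combination ((1 - X ^ 4) ^ 2 + C c * X ^ 4) * ie ^ 4 * hg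
      + ((ie * (1 + X ^ 2) + 1) * ((ie * (1 + X ^ 2)) ^ 2 + 1 - 4 * X ^ 2 * ie ^ 2)) * hie
  · rw [d_mul, die, derivative_X]
    linear_combination (-(1 - X ^ 2) * ie ^ 2) * hg - ie * hie

lemma UData.dw [IsDomain A] [CharZero A] {c : A} {g ie s w iw ω : A⟦X⟧}
    (U : UData c g ie s w iw ω) : d⁄dX A w = (-4 * s + 2 * C c * s ^ 3) * ω := by
  have := congrArg (d⁄dX A) U.hQ
  simp only [d_mul, d_sq, d_four, map_add, map_sub, derivative_one, derivative_C, d_ofNat,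
    U.ds] at this
  have two : (2 : A⟦X⟧) ≠ 0 := by
    rw [show (2 : A⟦X⟧) = C 2 from (map_ofNat C 2).symm]; exact C_ne_zero' two_ne_zero
  apply mul_left_cancel₀ two
  linear_combination iw * this - (2 * d⁄dX A w - 2 * (-4 * s + 2 * C c * s ^ 3) * ω) * U.hw

lemma UData.diw [IsDomain A] [CharZero A] {c : A} {g ie s w iw ω : A⟦X⟧}
    (U : UData c g ie s w iw ω) : d⁄dX A iw = -(-4 * s + 2 * C c * s ^ 3) * ω * iw ^ 2 := by
  have := congrArg (d⁄dX A) U.hw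
  simp only [d_mul, derivative_one, U.dw] at this
  linear_combination iw * this - d⁄dX A iw * U.hw

lemma UData.cc_s {c : A} {g ie s w iw ω : A⟦X⟧}
    (U : UData c g ie s w iw ω) : constantCoeff s = 0 := by
  rw [U.hs]; simp

end

variable {A : Type*} [CommRing A] [IsDomain A] [CharZero A] {p : ℕ} [hp : Fact p.Prime]

/-- The comparison of the multiplication by `π` with the Frobenius lift `u ↦ u ^ p`. -/
structure VData (n : ℕ) (ρ : A →+* ZMod p) (c π' : A) (a F : Polynomial A)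
    (s iw ω iF k j : A⟦X⟧) : Prop where
  hiF : iF * Polynomial.aeval s F = 1
  riF : PowerSeries.map ρ iF = 1
  hk : Polynomial.aeval s a * iF = expand p hp.out.ne_zero s + C (p : A) * k
  e1 : ω = C π' * (X ^ (2 * n) * expand p hp.out.ne_zero ω +
    d⁄dX A k * expand p hp.out.ne_zero iw) - C (p : A) * ω * j * expand p hp.out.ne_zero iw
  e2 : ∃ M R : A⟦X⟧, C 2 * ω = C π' * (C 2 * (X ^ (2 * n) * expand p hp.out.ne_zero ω) +
    C 2 * d⁄dX A (k * expand p hp.out.ne_zero iw) - C (p : A) * d⁄dX A M) + C ((p : A) ^ 2) * R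

lemma exists_vdata {n : ℕ} {ρ : A →+* ZMod p} {c κ π π' : A} {a F a₁ f W : Polynomial A}
    {γ : ZMod p} {Γ : Polynomial (ZMod p)} (h : Pack n ρ c κ π π' a F)
    (h2 : Pack2 n ρ c κ π π' a F a₁ f W γ Γ) {g ie s w iw ω : A⟦X⟧}
    (U : UData c g ie s w iw ω) : ∃ iF k j, VData n ρ c π' a F s iw ω iF k j := by
  have hn := h.hn
  have hp0 : (p : A) ≠ 0 := by exact_mod_cast hp.out.ne_zero
  have hπ0 : π ≠ 0 := by
    intro h0; apply hp0; rw [← h.hπ, h0, zero_mul]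
  have hπC : C π * C π' = (C (p : A) : A⟦X⟧) := by rw [← map_mul, h.hπ]
  obtain ⟨iF, hiF⟩ := exists_inv (f := Polynomial.aeval s F) (by rw [cc_aeval U.cc_s, h.F0])
  have rP : PowerSeries.map ρ (C (p : A)) = 0 := by rw [map_C, map_p_eq_zero, map_zero]
  have rF : PowerSeries.map ρ (Polynomial.aeval s F) = 1 := by
    rw [h2.eF, map_add, map_mul, map_one, aeval_C', map_add, map_mul, rP, zero_mul, map_one,
      add_zero]
  have riF : PowerSeries.map ρ iF = 1 := by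
    have := congrArg (PowerSeries.map ρ) hiF
    rwa [map_mul, rF, mul_one, map_one] at this
  have ra : PowerSeries.map ρ (Polynomial.aeval s a) = PowerSeries.map ρ s ^ p := by
    rw [h2.ea, map_add, map_mul, map_pow, aeval_C', Polynomial.aeval_X, map_add, map_mul, rP,
      zero_mul, map_pow, add_zero]
  have rW : PowerSeries.map ρ (Polynomial.aeval s W) = PowerSeries.map ρ w ^ (2 * n) := by
    rw [map_aeval', h2.Wp, map_pow, aeval_QQ, pow_mul, ← map_pow _ w, U.hQ]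
    simp only [map_add, map_sub, map_mul, map_pow, map_one, map_ofNat, map_C]
  set σ := expand (R := A) p hp.out.ne_zero with hσ
  obtain ⟨k, hk⟩ := series_lift ρ h.hρ (f := Polynomial.aeval s a * iF) (g := σ s) (by
    rw [map_mul, ra, riF, mul_one, hσ, map_expand_zmod])
  obtain ⟨j, hj⟩ := series_lift ρ h.hρ (f := w * Polynomial.aeval s W * iF ^ 2) (g := σ w) (by
    rw [map_mul, map_mul, map_pow, rW, riF, hσ, map_expand_zmod, one_pow, mul_one, ← pow_succ',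
      ← hn])
  have σC : σ (C c) = C c := expand_C _ _ _
  have σw : σ w * σ iw = 1 := by rw [← map_mul, U.hw, map_one]
  have σQ : σ w ^ 2 = 1 - 4 * σ s ^ 2 + C c * σ s ^ 4 := by
    rw [← map_pow, U.hQ]; simp only [map_add, map_sub, map_mul, map_pow, map_one, map_ofNat, σC]
  have dσ : ∀ x, d⁄dX A (σ x) = C (p : A) * X ^ (2 * n) * σ (d⁄dX A x) :=
    fun x => d_expand' hn _ x
  have diF : d⁄dX A iF =
      -Polynomial.aeval s (Polynomial.derivative F) * (ω * w) * iF ^ 2 := by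
    have := congrArg (d⁄dX A) hiF
    rw [d_mul, d_aeval, U.ds, derivative_one] at this
    linear_combination iF * this - d⁄dX A iF * hiF
  have eW := congrArg (Polynomial.aeval s) h2.eW
  have QW := congrArg (Polynomial.aeval s) h2.QW
  simp only [map_sub, map_mul, map_add, map_pow, aeval_C', aeval_QQ, map_ofNat] at eW QW
  have dk := congrArg (d⁄dX A) hk
  rw [d_mul, d_aeval, diF, U.ds, map_add, dσ, U.ds, d_mul, derivative_C, map_mul σ] at dk
  have dW0 := dσ iw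
  rw [U.diw] at dW0
  simp only [map_mul, map_neg, map_add, map_pow, map_ofNat, σC] at dW0
  set as := Polynomial.aeval s a
  set Fs := Polynomial.aeval s F
  set Ws := Polynomial.aeval s W
  set as' := Polynomial.aeval s (Polynomial.derivative a)
  set Fs' := Polynomial.aeval s (Polynomial.derivative F)
  set P : A⟦X⟧ := C (p : A) with hP
  set v := σ s
  set W0 := σ iw
  set Wσ := σ w
  set k' := d⁄dX A k with hk'
  set ωσ := σ ω
  set Y : A⟦X⟧ := X ^ (2 * n)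
  have hD : ω * (Wσ + P * j) = C π' * (Y * ωσ * Wσ + k') := by
    apply mul_left_cancel₀ (C_ne_zero' hπ0)
    rw [← hj]
    linear_combination dk - (ω * w * iF ^ 2) * eW + (ω * w * iF * as') * hiF
      - (Y * ωσ * Wσ + k') * hπC
  have hwπ : (Wσ + P * j) ^ 2 = 1 - 4 * (v + P * k) ^ 2 + C c * (v + P * k) ^ 4 := by
    rw [← hj, ← hk]
    linear_combination (Ws ^ 2 * iF ^ 4) * U.hQ + iF ^ 4 * QW
      + ((iF * Fs + 1) * ((iF * Fs) ^ 2 + 1 - 4 * as ^ 2 * iF ^ 2)) * hiF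
  have hj2 : 2 * j * Wσ = 2 * k * (-4 * v + 2 * C c * v ^ 3) + P * (-j ^ 2 - 4 * k ^ 2
      + C c * (6 * v ^ 2 * k ^ 2 + 4 * v * P * k ^ 3 + P ^ 2 * k ^ 4)) := by
    apply mul_left_cancel₀ (C_ne_zero' hp0)
    linear_combination hwπ - σQ
  refine ⟨iF, k, j, hiF, riF, hk, ?_, ?_⟩
  · linear_combination W0 * hD - (ω - C π' * Y * ωσ) * σw
  · have dM := dσ ((-4 * s + 2 * C c * s ^ 3) * iw ^ 3)
    have eM : σ ((-4 * s + 2 * C c * s ^ 3) * iw ^ 3) = (-4 * v + 2 * C c * v ^ 3) * W0 ^ 3 := by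
      simp only [map_mul, map_neg, map_add, map_pow, map_ofNat, σC]; rfl
    rw [eM] at dM
    set M := (-4 * v + 2 * C c * v ^ 3) * W0 ^ 3 with hM
    set r := -j ^ 2 - 4 * k ^ 2 + C c * (6 * v ^ 2 * k ^ 2 + 4 * v * P * k ^ 3 + P ^ 2 * k ^ 4)
    refine ⟨k ^ 2 * M, C π' * k ^ 2 * Y * σ (d⁄dX A ((-4 * s + 2 * C c * s ^ 3) * iw ^ 3))
      - C π' * (Y * ωσ * Wσ + k') * r * W0 ^ 3 + 2 * ω * j ^ 2 * W0 ^ 2, ?_⟩
    rw [d_mul, d_mul, d_sq, dM, dW0, map_pow, map_ofNat, ← hk', ← hP]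
    linear_combination 2 * (W0 - P * j * W0 ^ 2) * hD
      - P * C π' * (Y * ωσ * Wσ + k') * W0 ^ 3 * hj2
      + (2 * ω * (P * j * W0 - 1) + 2 * P * C π' * (Y * ωσ * Wσ + k') * j * W0 ^ 2
        + C π' * (2 * Y * ωσ - 2 * P * k * Y * ωσ * (-4 * v + 2 * C c * v ^ 3) * W0 ^ 2)) * σw

lemma psi_expand_iw {B : Type*} [CommRing B] {n : ℕ} (hn : p = 2 * n + 1) {g g₁ : B⟦X⟧}
    (hg : g = 1 + X ^ 4 * g₁) (x : B⟦X⟧) :
    Psi n (x * expand p hp.out.ne_zero ((1 + X ^ 2) ^ 2 * g)) =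
      Psi n (x * expand p hp.out.ne_zero (1 + X ^ 2) ^ 2) := by
  have : x * expand p hp.out.ne_zero ((1 + X ^ 2) ^ 2 * g) =
      x * expand p hp.out.ne_zero (1 + X ^ 2) ^ 2 + X ^ (p * 4) *
        (x * expand p hp.out.ne_zero (1 + X ^ 2) ^ 2 * expand p hp.out.ne_zero g₁) := by
    rw [hg, map_mul, map_pow, map_add _ 1 (X ^ 4 * g₁), map_mul, map_pow, map_one, expand_X,
      pow_mul]
    ring
  rw [this, Psi_add, Psi_X_pow_mul n (by omega), add_zero]

lemma psi_k {n : ℕ} {ρ : A →+* ZMod p} {c κ π π' : A} {a F a₁ f W : Polynomial A}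
    {γ : ZMod p} {Γ : Polynomial (ZMod p)} (h : Pack n ρ c κ π π' a F)
    (h2 : Pack2 n ρ c κ π π' a F a₁ f W γ Γ) {g ie s w iw ω g₁ iF k j : A⟦X⟧}
    (U : UData c g ie s w iw ω) (hg : g = 1 + X ^ 4 * g₁)
    (V : VData n ρ c π' a F s iw ω iF k j) :
    (p : A) ∣ Psi n (k * expand p hp.out.ne_zero iw) := by
  have hn := h.hn
  have hp0 : (p : A) ≠ 0 := by exact_mod_cast hp.out.ne_zero
  rw [U.hiw, psi_expand_iw hn hg]
  set σ := expand (R := A) p hp.out.ne_zero with hσ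
  obtain ⟨hh, ehh⟩ := series_lift ρ h.hρ (f := (1 + X ^ 2) ^ p) (g := σ (1 + X ^ 2)) (by
    rw [hσ, map_expand_zmod, map_pow])
  have σe : σ (1 + X ^ 2) = 1 + X ^ (p * 2) := by
    rw [map_add, map_one, map_pow, hσ, expand_X, pow_mul]
  have p1 : Psi n (X ^ p * hh) = 0 := by
    apply mul_left_cancel₀ hp0
    have e : C (p : A) * (X ^ p * hh) = X ^ p * (1 + X ^ 2) ^ p - X ^ p - X ^ (p * 3) := by
      rw [ehh, σe]; ring
    rw [← Psi_C, e, Psi_sub, Psi_sub, Psi_pal n p p (by omega), Psi, Psi, coeff_X_pow, coeff_X_pow,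
      coeff_X_pow, coeff_X_pow, if_pos hn.symm, if_neg (by omega), if_neg (by omega),
      if_pos (by omega)]
    ring
  have db : (a₁ - Polynomial.X ^ p * f).natDegree ≤ 4 * n + 2 := by
    refine (Polynomial.natDegree_sub_le _ _).trans (max_le (h2.da.trans (by omega)) ?_)
    exact (Polynomial.natDegree_mul_le_of_le (Polynomial.natDegree_X_pow_le p) h2.df).trans
      (by omega)
  have p2 := Psi_pal_aeval n U.hie _ db
  have hvE : σ s * σ (1 + X ^ 2) = X ^ p := by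
    rw [← map_mul, U.hs, mul_assoc, U.hie, mul_one, hσ, expand_X]
  have hse : s ^ p * (1 + X ^ 2) ^ p = X ^ p := by
    rw [← mul_pow, U.hs, mul_assoc, U.hie, mul_one]
  have hk := V.hk
  have hiF := V.hiF
  rw [h2.ea, map_add, map_mul, map_pow, aeval_C', Polynomial.aeval_X] at hk
  rw [h2.eF, map_add, map_mul, map_one, aeval_C'] at hiF
  rw [← U.hs, map_sub, map_mul, map_pow, Polynomial.aeval_X,
    show 4 * n + 2 = p * 2 by omega, pow_mul] at p2
  set a₁s := Polynomial.aeval s a₁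
  set fs := Polynomial.aeval s f
  have key : k * σ (1 + X ^ 2) ^ 2 = σ (1 + X ^ 2) ^ 2 * (a₁s - σ s * fs)
      - s ^ p * hh * σ (1 + X ^ 2) - C (p : A) * (k * fs * σ (1 + X ^ 2) ^ 2) := by
    apply mul_left_cancel₀ (C_ne_zero' hp0)
    linear_combination (-σ (1 + X ^ 2) ^ 2 * (1 + C (p : A) * fs)) * hk
      + σ (1 + X ^ 2) ^ 2 * (s ^ p + C (p : A) * a₁s) * hiF
      - σ (1 + X ^ 2) * hvE + σ (1 + X ^ 2) * hse - σ (1 + X ^ 2) * s ^ p * ehh
  have red : PowerSeries.map ρ (k * σ (1 + X ^ 2) ^ 2) = PowerSeries.map ρ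
      (((1 + X ^ 2) ^ p) ^ 2 * (a₁s - s ^ p * fs) - X ^ p * hh) := by
    have r1 : PowerSeries.map ρ (σ (1 + X ^ 2)) = PowerSeries.map ρ ((1 + X ^ 2) ^ p) := by
      rw [hσ, map_expand_zmod, map_pow]
    have r2 : PowerSeries.map ρ (σ s) = PowerSeries.map ρ (s ^ p) := by
      rw [hσ, map_expand_zmod, map_pow]
    have rP : PowerSeries.map ρ (C (p : A)) = 0 := by rw [map_C, map_p_eq_zero, map_zero]
    rw [key, ← hse]
    simp only [map_sub, map_mul, map_pow _ _ 2, r1, r2, rP]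
    ring
  rw [← h.hρ, ← Psi_map, red, Psi_map, Psi_sub, p1, p2, sub_zero, map_zero]

lemma lam_omega {n : ℕ} {ρ : A →+* ZMod p} {c κ π π' : A} {a F a₁ f W : Polynomial A}
    {γ : ZMod p} {Γ : Polynomial (ZMod p)} (h : Pack n ρ c κ π π' a F)
    (h2 : Pack2 n ρ c κ π π' a F a₁ f W γ Γ) {g ie s w iw ω g₁ iF k j : A⟦X⟧}
    (U : UData c g ie s w iw ω) (hg : g = 1 + X ^ 4 * g₁)
    (V : VData n ρ c π' a F s iw ω iF k j) : (p : A) ^ 2 ∣ Lam n ω - 4 * π' := by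
  have hn := h.hn
  obtain ⟨x, hx⟩ := psi_k h h2 U hg V
  obtain ⟨M, R, e⟩ := V.e2
  have := congrArg (Lam n) e
  simp only [Lam_add, Lam_sub, Lam_C, Lam_d' hn, Lam_expand' hn, hx] at this
  have c0 : coeff 0 ω = 1 := by rw [U.hω, hg]; simp
  have c2 : coeff 2 ω = -1 := by
    have : ω = 1 - X ^ 2 + X ^ 4 * ((1 - X ^ 2) * g₁) := by rw [U.hω, hg]; ring
    rw [this, map_add, coeff_X_pow_mul', if_neg (by omega), map_sub, coeff_X_pow, coeff_one]
    simp
  rw [c0, c2] at this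
  apply cancel_unit ρ h.hρ (u := 2) (by rw [map_ofNat]; exact two_ne_zero_zmod hn)
  exact ⟨π' * (6 * x - 3 * Psi n M) + Lam n R, by linear_combination this⟩

lemma psi_T {n : ℕ} {ρ : A →+* ZMod p} {c κ π π' : A} {a F a₁ f W : Polynomial A}
    {γ : ZMod p} {Γ : Polynomial (ZMod p)} (h : Pack n ρ c κ π π' a F)
    (h2 : Pack2 n ρ c κ π π' a F a₁ f W γ Γ) {g ie s w iw ω g₁ iF k j : A⟦X⟧}
    (U : UData c g ie s w iw ω) (hg : g = 1 + X ^ 4 * g₁)
    (V : VData n ρ c π' a F s iw ω iF k j) :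
    ρ (Psi n (C 63 * (w * Polynomial.aeval s (Polynomial.derivative f) * iF)
      + C 8 * ((16 * s - 32 * s ^ 3) * iw))) = -γ := by
  have hn := h.hn
  rw [← Psi_map]
  have hw := congrArg (PowerSeries.map ρ) U.hw
  have hQ := congrArg (PowerSeries.map ρ) U.hQ
  have hie := congrArg (PowerSeries.map ρ) U.hie
  have hs := congrArg (PowerSeries.map ρ) U.hs
  have hiw := congrArg (PowerSeries.map ρ) U.hiw
  have hg' := congrArg (PowerSeries.map ρ) hg
  have eΓ := congrArg (Polynomial.aeval (PowerSeries.map ρ s)) h2.eΓ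
  simp only [map_mul, map_add, map_sub, map_pow, map_one, map_ofNat, map_C, map_X, V.riF,
    map_aeval', aeval_QQ, aeval_C', Polynomial.aeval_X, ← Polynomial.derivative_map]
    at hw hQ hie hs hiw hg' eΓ ⊢
  set sb := PowerSeries.map ρ s
  set wb := PowerSeries.map ρ w
  set iwb := PowerSeries.map ρ iw
  set ieb := PowerSeries.map ρ ie
  set f' := Polynomial.aeval sb (Polynomial.derivative (f.map ρ))
  rw [← hQ] at eΓ
  have h1 : wb ^ (2 * n + 1) * iwb ^ p = 1 := by rw [← hn, ← mul_pow, hw, one_pow]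
  have e1 : 63 * (wb * f' * 1) + 8 * ((16 * sb - 32 * sb ^ 3) * iwb) =
      (Polynomial.aeval sb Γ + C γ * sb ^ (6 * n + 3)) * iwb ^ p := by
    rw [← eΓ]
    linear_combination (-63 * wb * f' - 8 * (16 * sb - 32 * sb ^ 3) * iwb) * h1
      + (8 * (16 * sb - 32 * sb ^ 3) * wb ^ (2 * n) * iwb ^ p) * hw
  rw [e1, ← expand_zmod hp.out.ne_zero, hiw, psi_expand_iw hn hg', expand_zmod, ← pow_mul,
    show p * 2 = 4 * n + 2 by omega, add_mul, Psi_add, mul_comm, hs, Psi_pal_aeval n hie _ h2.dΓ,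
    mul_assoc, Psi_C]
  have e2 : (X * ieb) ^ (6 * n + 3) * (1 + X ^ 2) ^ (4 * n + 2) =
      X ^ (6 * n + 3) * ieb ^ (2 * n + 1) := by
    have : ieb ^ (4 * n + 2) * (1 + X ^ 2) ^ (4 * n + 2) = 1 := by rw [← mul_pow, hie, one_pow]
    linear_combination (X ^ (6 * n + 3) * ieb ^ (2 * n + 1)) * this
  have c0 : constantCoeff ieb = 1 := by
    have := congrArg constantCoeff hie
    simpa using this
  rw [e2, Psi, coeff_X_pow_mul', coeff_X_pow_mul', if_neg (by omega), if_pos le_rfl]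
  simp [c0]

lemma lam_eta {n : ℕ} {ρ : A →+* ZMod p} {c κ π π' : A} {a F a₁ f W : Polynomial A}
    {γ : ZMod p} {Γ : Polynomial (ZMod p)} (h : Pack n ρ c κ π π' a F)
    (h2 : Pack2 n ρ c κ π π' a F a₁ f W γ Γ) {g ie s w iw ω g₁ iF k j : A⟦X⟧}
    (U : UData c g ie s w iw ω) (hg : g = 1 + X ^ 4 * g₁)
    (V : VData n ρ c π' a F s iw ω iF k j) :
    (p : A) ^ 2 ∣ Lam n ((C c * s ^ 2 - C κ) * ω) - π * (-4 * κ - c)
      - 3 * p * Psi n (w * Polynomial.aeval s (Polynomial.derivative f) * iF) := by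
  have hn := h.hn
  obtain ⟨π₁, hπ₁⟩ := (h.hρ π).1 h.ρπ
  set σ := expand (R := A) p hp.out.ne_zero with hσ
  have dσ : ∀ x, d⁄dX A (σ x) = C (p : A) * X ^ (2 * n) * σ (d⁄dX A x) :=
    fun x => d_expand' hn _ x
  have σC : ∀ x, σ (C x) = C x := fun x => expand_C _ _ _
  have dF' : Polynomial.derivative F = Polynomial.C (p : A) * Polynomial.derivative f := by
    rw [h2.eF]; simp
  have hiF := V.hiF
  have diF : d⁄dX A iF =
      -(C (p : A) * Polynomial.aeval s (Polynomial.derivative f)) * (ω * w) * iF ^ 2 := by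
    have := congrArg (d⁄dX A) hiF
    rw [d_mul, d_aeval, U.ds, derivative_one, dF', map_mul, aeval_C'] at this
    linear_combination iF * this - d⁄dX A iF * hiF
  have th := congrArg (Polynomial.aeval s) h2.th
  simp only [map_sub, map_mul, map_add, map_pow, aeval_C', aeval_QQ, aeval_Qh, map_ofNat,
    Polynomial.aeval_X] at th
  have dL : C π' * d⁄dX A (w * Polynomial.aeval s (Polynomial.derivative f) * iF) =
      ω * (C κ * (C π - C π') + C c * C π' * s ^ 2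
        - C c * C π * (Polynomial.aeval s a * iF) ^ 2) := by
    rw [d_mul, d_mul, d_aeval, U.dw, U.ds, diF]
    set f' := Polynomial.aeval s (Polynomial.derivative f)
    set f'' := Polynomial.aeval s (Polynomial.derivative (Polynomial.derivative f))
    set Fs := Polynomial.aeval s F
    linear_combination (ω * iF ^ 2) * th
      + (C π' * ω * (f'' * iF - C (p : A) * f' ^ 2 * iF ^ 2)) * U.hQ
      + (ω * (C κ * (C π - C π') + C c * C π' * s ^ 2) * (iF * Fs + 1)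
        - C π' * ω * iF * ((1 - 4 * s ^ 2 + C c * s ^ 4) * f'' + (-4 * s + 2 * C c * s ^ 3) * f'))
        * hiF
  have dM := dσ ((C c * s ^ 2 - C κ) * iw)
  have eM : σ ((C c * s ^ 2 - C κ) * iw) = (C c * σ s ^ 2 - C κ) * σ iw := by
    simp only [map_mul, map_sub, map_pow, σC]
  have eη : σ ((C c * s ^ 2 - C κ) * ω) = (C c * σ s ^ 2 - C κ) * σ ω := by
    simp only [map_mul, map_sub, map_pow, σC]
  have e1 := V.e1
  have hk := V.hk
  rw [← hσ] at e1 hk
  rw [hk] at dL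
  have hπC : (C π : A⟦X⟧) = C (p : A) * C π₁ := by rw [hπ₁, map_mul]
  have key : C π' * ((C c * s ^ 2 - C κ) * ω) =
      C π' * (C π * (X ^ (2 * n) * σ ((C c * s ^ 2 - C κ) * ω))
        + C π * d⁄dX A (k * σ ((C c * s ^ 2 - C κ) * iw))
        + d⁄dX A (w * Polynomial.aeval s (Polynomial.derivative f) * iF))
      + C ((p : A) ^ 2) * (C π₁ * (C c * (2 * σ s * k + C (p : A) * k ^ 2) * ω
        - (C c * σ s ^ 2 - C κ) * ω * j * σ iw
        - C π' * k * X ^ (2 * n) * σ (d⁄dX A ((C c * s ^ 2 - C κ) * iw)))) := by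
    rw [d_mul k, dM, eM, eη, map_pow C]
    linear_combination -dL + (C π * (C c * σ s ^ 2 - C κ)) * e1
      + (C (p : A) * (C c * (2 * σ s * k + C (p : A) * k ^ 2) * ω
        - (C c * σ s ^ 2 - C κ) * ω * j * σ iw
        - C π' * k * X ^ (2 * n) * σ (d⁄dX A ((C c * s ^ 2 - C κ) * iw)))) * hπC
  have := congrArg (Lam n) key
  simp only [Lam_add, Lam_C, Lam_d' hn, hσ, Lam_expand' hn] at this
  have e3 : (C c * s ^ 2 - C κ) * ω = -C κ + C (c + κ) * X ^ 2 + X ^ 4 *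
      (-C c - C c * (1 - X ^ 2) * (ie + ie ^ 2) + (C c * s ^ 2 - C κ) * (1 - X ^ 2) * g₁) := by
    rw [U.hω, hg, U.hs, map_add]
    linear_combination (C c * X ^ 2 * (1 - X ^ 2) * (ie + 1)) * U.hie
  have c0 : coeff 0 ((C c * s ^ 2 - C κ) * ω) = -κ := by rw [e3]; simp
  have c2 : coeff 2 ((C c * s ^ 2 - C κ) * ω) = c + κ := by
    rw [e3, map_add, coeff_X_pow_mul', if_neg (by omega), map_add, coeff_C_mul, coeff_X_pow,
      map_neg, coeff_C]
    simp
  rw [c0, c2] at this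
  apply cancel_unit ρ h.hρ h.hπ'
  have aux : ∀ L y₁ y₂ y₃ : A, π' * L = π' * (π * (3 * -κ - (c + κ)) + π * (3 * p * y₁)
      + 3 * p * y₂) + (p : A) ^ 2 * y₃ →
      (p : A) ^ 2 ∣ π' * (L - π * (-4 * κ - c) - 3 * p * y₂) := by
    intro L y₁ y₂ y₃ hh
    exact ⟨3 * π' * π₁ * y₁ + y₃, by linear_combination hh + (3 * π' * p * y₁) * hπ₁⟩
  exact aux _ _ _ _ this

theorem main_cong {n : ℕ} {ρ : A →+* ZMod p} {c κ π π' : A} {a F : Polynomial A}
    (h : Pack n ρ c κ π π' a F) {g g₁ : A⟦X⟧}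
    (hg0 : ((1 - X ^ 4) ^ 2 + C c * X ^ 4) * g ^ 2 = 1) (hg : g = 1 + X ^ 4 * g₁) :
    (p : A) ^ 2 ∣ Lam n ((1 - X ^ 2) * g) - 4 * π' ∧
    (p : A) ^ 2 ∣ Lam n (C c * X ^ 4 * (1 - X ^ 2) * g ^ 3) - 32 * (π' - π) := by
  have hn := h.hn
  obtain ⟨a₁, f, W, γ, Γ, h2⟩ := h.pack2
  obtain ⟨ie, s, w, iw, ω, U⟩ := exists_udata c hg0
  obtain ⟨iF, k, j, V⟩ := exists_vdata h h2 U
  obtain ⟨x₁, l1⟩ := lam_omega h h2 U hg V
  obtain ⟨x₂, l2⟩ := lam_eta h h2 U hg V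
  have l3 := psi_T h h2 U hg V
  refine ⟨⟨x₁, by rw [← U.hω, l1]⟩, ?_⟩
  obtain ⟨π₁, hπ₁⟩ := (h.hρ π).1 h.ρπ
  have hc : (63 : A⟦X⟧) * C c = 256 := by
    have := congrArg (C (R := A)) h.hc
    simpa only [map_mul, map_ofNat] using this
  have hκ : (21 : A⟦X⟧) * C κ = 32 := by
    have := congrArg (C (R := A)) h.hκ
    simpa only [map_mul, map_ofNat] using this
  have e0 : C c * X ^ 4 * (1 - X ^ 2) * g ^ 3 = C c * s ^ 4 * ω * iw ^ 2 := by
    rw [U.hs, U.hω, U.hiw]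
    linear_combination (-(C c * X ^ 4 * (1 - X ^ 2) * g ^ 3) * (ie * (1 + X ^ 2) + 1) *
      ((ie * (1 + X ^ 2)) ^ 2 + 1)) * U.hie
  have e1 : C (-4) * (C c * s ^ 4 * ω * iw ^ 2) = C (-32) * ω + C 63 * ((C c * s ^ 2 - C κ) * ω)
      + C 8 * d⁄dX A ((16 * s - 32 * s ^ 3) * iw) := by
    simp only [d_mul, map_sub, d_cube, d_ofNat, U.ds, U.diw, map_neg, map_ofNat]
    have hw := U.hw
    have hQ := U.hQ
    linear_combination (-(s ^ 2 - 4 * s ^ 4 * iw ^ 2) * ω) * hc + 3 * ω * hκ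
      - (8 * (16 - 96 * s ^ 2) * ω + 512 * s ^ 2 * ω * (w * iw + 1)) * hw
      + 512 * s ^ 2 * ω * iw ^ 2 * hQ
  have e2 := congrArg (Lam n) e1
  simp only [Lam_add, Lam_C, Lam_d' hn] at e2
  rw [Psi_add, Psi_C, Psi_C] at l3
  set y₁ := Psi n (w * Polynomial.aeval s (Polynomial.derivative f) * iF)
  set y₂ := Psi n ((16 * s - 32 * s ^ 3) * iw)
  obtain ⟨x₃, l4⟩ : (p : A) ∣ π' * (63 * y₁ + 8 * y₂) - 256 := by
    rw [← h.hρ, map_sub, map_mul, l3, map_ofNat]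
    linear_combination -h2.eγ
  apply cancel_unit ρ h.hρ (u := -4) (by
    rw [map_neg, neg_ne_zero, map_ofNat, show (4 : ZMod p) = 2 * 2 by norm_num]
    exact mul_ne_zero (two_ne_zero_zmod hn) (two_ne_zero_zmod hn))
  rw [e0]
  refine ⟨-32 * x₁ + 63 * x₂ + 3 * π₁ * x₃, ?_⟩
  linear_combination e2 - 32 * l1 + 63 * l2 + 3 * π * l4 - 3 * (63 * y₁ + 8 * y₂) * h.hπ
    + 3 * p * x₃ * hπ₁ - π * h.hc - 12 * π * h.hκ

end Pool.Agent.MP_d8ab80_nt
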