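import Mathlib

/-! Formal power series solutions of an elliptic differential system, their addition law,
and complex multiplication by a root of `x ^ 2 = x - 2`. -/

set_option linter.unusedSectionVars false
set_option linter.unusedSimpArgs false

namespace Pool.Agent.MP_d8ab80_nt
open PowerSeries

section basics
variable {A : Type*} [CommRing A]

lemma d_mul (f g : A⟦X⟧) : d⁄dX A (f * g) = d⁄dX A f * g + f * d⁄dX A g := by
  rw [Derivation.leibniz]; simp only [smul_eq_mul]; ring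

lemma d_ofNat (n : ℕ) [n.AtLeastTwo] : d⁄dX A (no_index (OfNat.ofNat n : A⟦X⟧)) = 0 :=
  Derivation.map_natCast _ n

lemma d_natCast (n : ℕ) : d⁄dX A (n : A⟦X⟧) = 0 := Derivation.map_natCast _ n

lemma d_pow (f : A⟦X⟧) (n : ℕ) : d⁄dX A (f ^ (n + 1)) = (n + 1) * f ^ n * d⁄dX A f := by
  rw [derivative_pow]; simp

lemma d_sq (f : A⟦X⟧) : d⁄dX A (f ^ 2) = 2 * f * d⁄dX A f := by
  rw [pow_two, d_mul]; ring

lemma d_cube (f : A⟦X⟧) : d⁄dX A (f ^ 3) = 3 * f ^ 2 * d⁄dX A f := by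
  rw [pow_succ, d_mul, d_sq]; ring

lemma d_four (f : A⟦X⟧) : d⁄dX A (f ^ 4) = 4 * f ^ 3 * d⁄dX A f := by
  rw [pow_succ, d_mul, d_cube]; ring

lemma d_rescale (a : A) (f : A⟦X⟧) :
    d⁄dX A (rescale a f) = C a * rescale a (d⁄dX A f) := by
  ext n
  simp only [coeff_derivative, coeff_rescale, coeff_C_mul]
  ring

lemma rescale_C' (a b : A) : rescale a (C b : A⟦X⟧) = C b := by
  ext n
  simp only [coeff_rescale, coeff_C]
  split_ifs with h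
  · simp [h]
  · simp

lemma cc_rescale (a : A) (f : A⟦X⟧) : constantCoeff (rescale a f) = constantCoeff f := by
  rw [← coeff_zero_eq_constantCoeff_apply, coeff_rescale]; simp

lemma eq_zero_of_X_pow_dvd (f : A⟦X⟧) (h : ∀ n, (X : A⟦X⟧) ^ n ∣ f) : f = 0 := by
  ext n
  exact (X_pow_dvd_iff.1 (h (n + 1))) n (Nat.lt_succ_self n)

/-- The logarithmic second derivative relation `N N'' - N' ^ 2 = N ^ 2 g`. -/
def LogRel (N g : A⟦X⟧) : Prop :=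
  N * d⁄dX A (d⁄dX A N) - d⁄dX A N ^ 2 = N ^ 2 * g

lemma LogRel.mul {N₁ N₂ g₁ g₂ : A⟦X⟧} (h₁ : LogRel N₁ g₁) (h₂ : LogRel N₂ g₂) :
    LogRel (N₁ * N₂) (g₁ + g₂) := by
  unfold LogRel at *
  simp only [d_mul, map_add]
  linear_combination N₂ ^ 2 * h₁ + N₁ ^ 2 * h₂

lemma LogRel.one : LogRel (1 : A⟦X⟧) 0 := by
  unfold LogRel; simp

end basics

section ode
variable {K : Type*} [Field K] [CharZero K]

lemma X_pow_succ_dvd {f : K⟦X⟧} {n : ℕ} (h : (X : K⟦X⟧) ^ n ∣ d⁄dX K f)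
    (h0 : constantCoeff f = 0) : (X : K⟦X⟧) ^ (n + 1) ∣ f := by
  rw [X_pow_dvd_iff] at *
  intro m hm
  rcases m with _ | m
  · simpa using h0
  · have := h m (by omega)
    rw [coeff_derivative] at this
    have h1 : ((m : K) + 1) ≠ 0 := by exact_mod_cast Nat.succ_ne_zero m
    exact (mul_eq_zero.1 this).resolve_right h1

/-- Coefficients of the basic solution. -/
noncomputable def tc (ρ : K) : ℕ → K
  | 0 => 0
  | 1 => 0
  | (n + 2) => ((if n = 0 then 2 else 0) + 4 * ρ * tc ρ n -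
      96 * ∑ i : Fin (n + 1), tc ρ i * tc ρ (n - i)) / ((n + 1) * (n + 2))
decreasing_by all_goals omega

/-- The differential system with parameter `α`. -/
structure Sol (ρ α : K) (τ ν : K⟦X⟧) : Prop where
  d1 : d⁄dX K τ = 2 * C α * ν
  d2 : d⁄dX K ν = C α * (1 + 2 * C ρ * τ - 48 * τ ^ 2)
  c1 : constantCoeff τ = 0
  c2 : constantCoeff ν = 0

lemma Sol.unique {ρ α : K} {τ ν τ' ν' : K⟦X⟧} (h : Sol ρ α τ ν) (h' : Sol ρ α τ' ν') :
    τ = τ' ∧ ν = ν' := by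
  have key : ∀ n, (X : K⟦X⟧) ^ n ∣ τ - τ' ∧ (X : K⟦X⟧) ^ n ∣ ν - ν' := by
    intro n
    induction n with
    | zero => simp
    | succ n ih =>
      constructor
      · apply X_pow_succ_dvd
        · rw [map_sub, h.d1, h'.d1, ← mul_sub]
          exact ih.2.mul_left _
        · simp [h.c1, h'.c1]
      · apply X_pow_succ_dvd
        · rw [map_sub, h.d2, h'.d2]
          have : C α * (1 + 2 * C ρ * τ - 48 * τ ^ 2) - C α * (1 + 2 * C ρ * τ' - 48 * τ' ^ 2)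
              = (C α * (2 * C ρ - 48 * (τ + τ'))) * (τ - τ') := by ring
          rw [this]
          exact ih.1.mul_left _
        · simp [h.c2, h'.c2]
  exact ⟨sub_eq_zero.1 (eq_zero_of_X_pow_dvd _ fun n => (key n).1),
    sub_eq_zero.1 (eq_zero_of_X_pow_dvd _ fun n => (key n).2)⟩

lemma Sol.integral {ρ α : K} {τ ν : K⟦X⟧} (h : Sol ρ α τ ν) :
    ν ^ 2 = τ * (1 + C ρ * τ - 16 * τ ^ 2) := by
  apply derivative.ext
  · simp only [d_mul, d_sq, map_add, map_sub, derivative_C, d_ofNat, derivative_one, h.d1, h.d2]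
    ring
  · simp [h.c1, h.c2]

/-- The basic solution. -/
noncomputable def t0 (ρ : K) : K⟦X⟧ := mk (tc ρ)

/-- Half of its derivative. -/
noncomputable def w0 (ρ : K) : K⟦X⟧ := C (1 / 2 : K) * d⁄dX K (t0 ρ)

lemma sol_one (ρ : K) : Sol ρ 1 (t0 ρ) (w0 ρ) := by
  have h2 : (2 : K⟦X⟧) * C (1 / 2 : K) = 1 := by
    rw [show (2 : K⟦X⟧) = C (2 : K) from (map_ofNat C 2).symm, ← map_mul]; simp
  refine ⟨?_, ?_, ?_, ?_⟩
  · rw [w0, map_one, mul_one, ← mul_assoc, h2, one_mul]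
  · rw [w0, d_mul, derivative_C, zero_mul, zero_add, map_one, one_mul]
    ext n
    have e2 : (2 : K⟦X⟧) = C (2 : K) := (map_ofNat C 2).symm
    have e48 : (48 : K⟦X⟧) = C (48 : K) := (map_ofNat C 48).symm
    rw [coeff_C_mul, coeff_derivative, coeff_derivative, map_sub, map_add, e2, e48, mul_assoc (C 2),
      coeff_C_mul, coeff_C_mul, coeff_C_mul, pow_two, coeff_mul, coeff_one,
      Finset.Nat.sum_antidiagonal_eq_sum_range_succ (fun i j => coeff i (t0 ρ) * coeff j (t0 ρ)),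
      Finset.sum_range]
    simp only [t0, coeff_mk]
    rw [tc]
    have h1 : ((n : K) + 1) ≠ 0 := by exact_mod_cast Nat.succ_ne_zero n
    have h3 : ((n : K) + 2) ≠ 0 := by exact_mod_cast Nat.succ_ne_zero (n + 1)
    push_cast
    have h4 : ((n : K) + 1 + 1) = n + 2 := by ring
    rw [h4]
    split_ifs <;> field_simp <;> ring
  · rw [← coeff_zero_eq_constantCoeff_apply, t0, coeff_mk, tc]
  · rw [w0, map_mul, ← coeff_zero_eq_constantCoeff_apply (d⁄dX K _), coeff_derivative, t0,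
      coeff_mk, zero_add, tc]
    simp

/-- The solution with parameter `α`. -/
noncomputable def tt (ρ α : K) : K⟦X⟧ := rescale α (t0 ρ)

/-- The second component of the solution with parameter `α`. -/
noncomputable def ww (ρ α : K) : K⟦X⟧ := rescale α (w0 ρ)

lemma sol_tt (ρ α : K) : Sol ρ α (tt ρ α) (ww ρ α) := by
  have h := sol_one ρ
  refine ⟨?_, ?_, ?_, ?_⟩
  · rw [tt, d_rescale, h.d1, ww]; simp only [map_mul, map_one, map_ofNat]; ring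
  · rw [ww, d_rescale, h.d2, tt]
    simp only [map_mul, map_one, map_ofNat, map_add, map_sub, map_pow, rescale_C']; ring
  · rw [tt, cc_rescale, h.c1]
  · rw [ww, cc_rescale, h.c2]

lemma Sol.neg {ρ α : K} {τ ν : K⟦X⟧} (h : Sol ρ α τ ν) : Sol ρ (-α) τ (-ν) := by
  refine ⟨?_, ?_, h.c1, ?_⟩
  · rw [h.d1, map_neg]; ring
  · rw [map_neg, h.d2, map_neg]; ring
  · simp [h.c2]

lemma tt_neg (ρ α : K) : tt ρ (-α) = tt ρ α := ((sol_tt ρ (-α)).unique (sol_tt ρ α).neg).1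

lemma ww_neg (ρ α : K) : ww ρ (-α) = -ww ρ α := ((sol_tt ρ (-α)).unique (sol_tt ρ α).neg).2

lemma tt_zero (ρ : K) : tt ρ 0 = 0 := by
  rw [tt, rescale_zero_apply, (sol_one ρ).c1, map_zero]

lemma tt_one (ρ : K) : tt ρ 1 = t0 ρ := by
  rw [tt, rescale_one]; rfl

lemma t0_ne_zero (ρ : K) : t0 ρ ≠ 0 := by
  intro h
  have h1 := (sol_one ρ).d1
  have h2 := (sol_one ρ).d2
  rw [h] at h1 h2
  have h3 : w0 ρ = 0 := by rw [w0, h]; simp
  rw [h3] at h2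
  simp at h2

lemma sol_of_frac {ρ α : K} {Δ n₁ n₂ : K⟦X⟧} (hΔ : constantCoeff Δ = 1)
    (h₁ : Δ * d⁄dX K n₁ - 2 * n₁ * d⁄dX K Δ = 2 * C α * n₂)
    (h₂ : Δ * d⁄dX K n₂ - 3 * n₂ * d⁄dX K Δ = C α * (Δ ^ 4 + 2 * C ρ * n₁ * Δ ^ 2 - 48 * n₁ ^ 2))
    (c₁ : constantCoeff n₁ = 0) (c₂ : constantCoeff n₂ = 0) :
    tt ρ α * Δ ^ 2 = n₁ := by
  have hI : Δ * Δ⁻¹ = 1 := PowerSeries.mul_inv_cancel _ (by rw [hΔ]; exact one_ne_zero)
  have dI := derivative_inv' Δ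
  set I := Δ⁻¹
  have hs : Sol ρ α (n₁ * I ^ 2) (n₂ * I ^ 3) := by
    refine ⟨?_, ?_, ?_, ?_⟩
    · simp only [d_mul, d_sq, dI]
      linear_combination I ^ 3 * h₁ - d⁄dX K n₁ * I ^ 2 * hI
    · simp only [d_mul, d_cube, dI]
      linear_combination I ^ 4 * h₂ + (- d⁄dX K n₂ * I ^ 3 + C α * ((Δ * I) ^ 3 + (Δ * I) ^ 2
        + Δ * I + 1 + 2 * C ρ * n₁ * I ^ 2 * (Δ * I + 1))) * hI
    · simp [c₁]
    · simp [c₂]
  rw [((sol_tt ρ α).unique hs).1]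
  linear_combination n₁ * (Δ * I + 1) * hI

/-- The addition law. -/
lemma tt_add (ρ x y : K) :
    tt ρ (x + y) * (1 + 16 * tt ρ x * tt ρ y) ^ 2 =
      tt ρ x * (1 + C ρ * tt ρ y - 16 * tt ρ y ^ 2) + tt ρ y * (1 + C ρ * tt ρ x - 16 * tt ρ x ^ 2)
        + 2 * ww ρ x * ww ρ y := by
  have hx := sol_tt ρ x
  have hy := sol_tt ρ y
  have ix := hx.integral
  have iy := hy.integral
  set tx := tt ρ x
  set ty := tt ρ y
  set wx := ww ρ x
  set wy := ww ρ y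
  set r := (C ρ : K⟦X⟧)
  apply sol_of_frac (n₂ := wx + wy - 48*tx*ty*wx - 48*tx*ty*wy + 2*tx*wy*r - 48*tx^2*wy
    + 2*ty*wx*r - 48*ty^2*wx - 32*tx*ty^2*wx*r + 256*tx*ty^3*wx - 32*tx^2*ty*wy*r
    + 256*tx^3*ty*wy)
  · simp [hx.c1]
  · simp only [d_mul, d_sq, d_cube, map_add, map_sub, derivative_C, d_ofNat, derivative_one,
      hx.d1, hx.d2, hy.d1, hy.d2, r]
    linear_combination (- 128*ty*wy*C x) * ix + (- 128*tx*wx*C y) * iy
  · simp only [d_mul, d_sq, d_cube, map_add, map_sub, derivative_C, d_ofNat, derivative_one,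
      hx.d1, hx.d2, hy.d1, hy.d2, r]
    linear_combination (- 192*ty*C x + 192*wy^2*C x + 192*wy^2*C y + 3072*tx*ty^2*C x
      - 256*ty^2*C x*r + 5120*ty^3*C x + 2048*tx*ty^3*C x*r - 16384*tx*ty^4*C x) * ix
      + (192*tx*C x + 3072*tx^2*ty*C y + 192*tx^2*C x*r - 64*tx^2*C y*r - 3072*tx^3*C x
      + 2048*tx^3*C y + 2048*tx^3*ty*C y*r - 16384*tx^4*ty*C y) * iy
  · simp [hx.c1, hy.c1, hx.c2]
  · simp [hx.c1, hy.c1, hx.c2, hy.c2]

lemma tt_sub (ρ x y : K) :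
    tt ρ (x - y) * (1 + 16 * tt ρ x * tt ρ y) ^ 2 =
      tt ρ x * (1 + C ρ * tt ρ y - 16 * tt ρ y ^ 2) + tt ρ y * (1 + C ρ * tt ρ x - 16 * tt ρ x ^ 2)
        - 2 * ww ρ x * ww ρ y := by
  have h := tt_add ρ x (-y)
  rw [tt_neg, ww_neg, ← sub_eq_add_neg] at h
  rw [h]; ring

lemma delta_ne_zero (ρ x y : K) : (1 + 16 * tt ρ x * tt ρ y) ≠ 0 := by
  intro h
  have := congrArg constantCoeff h
  simp [(sol_tt ρ x).c1] at this

lemma tt_add_mul_sub (ρ x y : K) :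
    tt ρ (x + y) * tt ρ (x - y) * (1 + 16 * tt ρ x * tt ρ y) ^ 2 = (tt ρ x - tt ρ y) ^ 2 := by
  have h1 := tt_add ρ x y
  have h2 := tt_sub ρ x y
  have ix := (sol_tt ρ x).integral
  have iy := (sol_tt ρ y).integral
  apply mul_right_cancel₀ (pow_ne_zero 2 (delta_ne_zero ρ x y))
  set tx := tt ρ x
  set ty := tt ρ y
  set wx := ww ρ x
  set wy := ww ρ y
  set r := (C ρ : K⟦X⟧)
  calc _ = (tt ρ (x + y) * (1 + 16 * tx * ty) ^ 2) * (tt ρ (x - y) * (1 + 16 * tx * ty) ^ 2) := by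
        ring
    _ = _ := by
        rw [h1, h2]
        linear_combination (- 4*wy^2) * ix + (- 4*tx - 4*tx^2*r + 64*tx^3) * iy

lemma logRel_add (ρ x y : K) :
    LogRel (1 + 16 * tt ρ x * tt ρ y) (16 * (C (x + y) ^ 2 * tt ρ (x + y) + C (x - y) ^ 2 * tt ρ (x - y)
      - 2 * C x ^ 2 * tt ρ x - 2 * C y ^ 2 * tt ρ y)) := by
  have h1 := tt_add ρ x y
  have h2 := tt_sub ρ x y
  have hx := sol_tt ρ x
  have hy := sol_tt ρ y
  have ix := hx.integral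
  have iy := hy.integral
  unfold LogRel
  set tx := tt ρ x
  set ty := tt ρ y
  set wx := ww ρ x
  set wy := ww ρ y
  simp only [d_mul, map_add, map_sub, derivative_C, d_ofNat, derivative_one, map_zero,
      hx.d1, hx.d2, hy.d1, hy.d2]
  linear_combination (- 1024*ty^2*C x^2) * ix + (- 1024*tx^2*C y^2) * iy
    - 16 * (C x + C y) ^ 2 * h1 - 16 * (C x - C y) ^ 2 * h2

/-- Complex multiplication by `ψ`. -/
lemma tt_cm {ρ ψ σ : K} (hψ : ψ ^ 2 = ψ - 2) (hσ : σ ^ 2 = 1) (hρ : ρ = 3 * σ * (2 * ψ - 1))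
    (β : K) : tt ρ (ψ * β) * (1 + 4 * C σ * C ψ * tt ρ β) ^ 2 =
      C ψ ^ 2 * tt ρ β * (1 + C σ * (3 * C ψ - 1) * tt ρ β) := by
  have hx := sol_tt ρ β
  have ix := hx.integral
  have hf : (C ψ : K⟦X⟧) ^ 2 = C ψ - 2 := by
    rw [← map_pow, hψ, map_sub, map_ofNat]
  have hs : (C σ : K⟦X⟧) ^ 2 = 1 := by rw [← map_pow, hσ, map_one]
  have hr : (C ρ : K⟦X⟧) = 3 * C σ * (2 * C ψ - 1) := by
    rw [hρ]; simp only [map_mul, map_sub, map_ofNat, map_one]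
  have d1 := hx.d1
  have d2 := hx.d2
  rw [hr] at ix d2
  set t := tt ρ β
  set w := ww ρ β
  apply sol_of_frac (n₂ := C ψ * w * (1 - 2 * C σ * (1 - C ψ) * t))
  · simp [hx.c1]
  · simp only [d_mul, d_sq, map_add, map_sub, map_mul C, derivative_C, d_ofNat, derivative_one,
      d1]
    ring
  · simp only [d_mul, map_add, map_sub, map_mul C, derivative_C, d_ofNat, derivative_one,
      d1, d2, hr]
    set f := (C ψ : K⟦X⟧)
    set s := (C σ : K⟦X⟧)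
    set b := (C β : K⟦X⟧)
    linear_combination (- 4*b*f*s - 20*b*f^2*s + 32*b*f^2*s^2*t - 32*b*f^3*s^2*t) * ix
      + (- 144*b*t^2 - 6*b*f*s*t - 48*b*f*t^2 - 12*b*f^2*s*t + 48*b*f^2*t^2 + 32*b*s*t^3
        + 144*b*s^2*t^2 - 768*b*f*s*t^3 + 36*b*f*s^2*t^2 + 48*b*f^3*t^2 - 384*b*f^2*s*t^3
        - 54*b*f^2*s^2*t^2 + 2304*b*s^2*t^4 - 32*b*s^3*t^3 + 512*b*f*s^2*t^4 + 848*b*f*s^3*t^3
        + 192*b*f^3*s*t^3 - 132*b*f^3*s^2*t^2 - 960*b*f^2*s^2*t^4 + 416*b*f^2*s^3*t^3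
        + 288*b*f^4*s*t^3 - 2304*b*s^4*t^4 - 512*b*f*s^4*t^4 - 672*b*f^3*s^2*t^4
        - 144*b*f^3*s^3*t^3 + 896*b*f^2*s^4*t^4 + 144*b*f^4*s^2*t^4 - 480*b*f^4*s^3*t^3
        + 704*b*f^3*s^4*t^4 + 432*b*f^5*s^2*t^4 - 96*b*f^4*s^4*t^4 - 576*b*f^5*s^4*t^4) * hf
      + (- 288*b*t^2 + 96*b*f*t^2 + 64*b*s*t^3 - 1728*b*f*s*t^3 + 4608*b*s^2*t^4
        - 1280*b*f*s^2*t^4) * hs
  · simp [hx.c1]
  · simp [hx.c2]

lemma logRel_cm {ρ ψ σ : K} (hψ : ψ ^ 2 = ψ - 2) (hσ : σ ^ 2 = 1) (hρ : ρ = 3 * σ * (2 * ψ - 1))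
    (β : K) : LogRel (1 + 4 * C σ * C ψ * tt ρ β)
      (8 * C σ * C ψ * C β ^ 2 + 16 * C (ψ * β) ^ 2 * tt ρ (ψ * β) - 32 * C β ^ 2 * tt ρ β) := by
  have h1 := tt_cm hψ hσ hρ β
  have hx := sol_tt ρ β
  have ix := hx.integral
  have hf : (C ψ : K⟦X⟧) ^ 2 = C ψ - 2 := by
    rw [← map_pow, hψ, map_sub, map_ofNat]
  have hs : (C σ : K⟦X⟧) ^ 2 = 1 := by rw [← map_pow, hσ, map_one]
  have hr : (C ρ : K⟦X⟧) = 3 * C σ * (2 * C ψ - 1) := by
    rw [hρ]; simp only [map_mul, map_sub, map_ofNat, map_one]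
  have d1 := hx.d1
  have d2 := hx.d2
  rw [hr] at ix d2
  unfold LogRel
  set t := tt ρ β
  set w := ww ρ β
  simp only [d_mul, d_sq, map_add, map_sub, map_mul C, derivative_C, d_ofNat, derivative_one,
      d1, d2, map_zero]
  set f := (C ψ : K⟦X⟧)
  set s := (C σ : K⟦X⟧)
  set b := (C β : K⟦X⟧)
  linear_combination (- 64*b^2*f^2*s^2) * ix
    + (16*b^2*t - 16*b^2*f*t - 16*b^2*f^2*t + 128*b^2*s*t^2 + 64*b^2*f*s*t^2 - 32*b^2*f^2*s*t^2
      - 128*b^2*s^3*t^2 - 128*b^2*f*s^3*t^2 - 48*b^2*f^3*s*t^2) * hf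
    + (- 48*b^2*f*t + 256*b^2*s*t^2 + 128*b^2*f*s*t^2) * hs - 16 * f ^ 2 * b ^ 2 * h1

end ode

end Pool.Agent.MP_d8ab80_nt
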