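import Mathlib

/-! The sign of the Frobenius element. -/

namespace Pool.Agent.MP_d8ab80_nt

/-- The character modulo four on odd integers. -/
def s4 (w : ℤ) : ℤ := if w % 4 = 1 then 1 else -1

lemma s4_sq (w : ℤ) : s4 w * s4 w = 1 := by unfold s4; split_ifs <;> rfl

lemma jac_odd {w : ℤ} {p : ℕ} (hw : w % 2 = 1) (hp : p % 2 = 1) :
    jacobiSym w p = jacobiSym p w.natAbs * (if p % 4 = 3 then s4 w else 1) := by
  have hu : w.natAbs % 2 = 1 := by omega
  have h := jacobiSym.quadratic_reciprocity_if hu hp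
  rcases Int.natAbs_eq w with e | e
  · have e1 : jacobiSym w p = jacobiSym (w.natAbs : ℤ) p := by rw [← e]
    rw [e1, ← h, s4]
    split_ifs <;> first | omega | ring1
  · have e1 : jacobiSym w p = jacobiSym (-(w.natAbs : ℤ)) p := by rw [← e]
    rw [e1, jacobiSym.neg _ (Nat.odd_iff.2 hp), ← h, s4, ZMod.χ₄_nat_eq_if_mod_four]
    split_ifs <;> first | omega | ring1

lemma jac_seven {w : ℤ} (hw : w % 2 = 1) : jacobiSym 7 w.natAbs = jacobiSym w 7 * s4 w := by
  have h := jac_odd (p := 7) hw (by norm_num)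
  rw [h, if_pos (by norm_num), mul_assoc, s4_sq, mul_one]; rfl

lemma exists_two_pow {v : ℤ} (hv : v ≠ 0) : ∃ (e : ℕ) (w : ℤ), w % 2 = 1 ∧ v = 2 ^ e * w := by
  obtain ⟨e, u, hu, h⟩ := Nat.exists_eq_two_pow_mul_odd (Int.natAbs_ne_zero.2 hv)
  have hu' := Nat.odd_iff.1 hu
  rcases Int.natAbs_eq v with e1 | e1
  · exact ⟨e, u, by omega, by rw [e1, h]; push_cast; ring⟩
  · exact ⟨e, -u, by omega, by rw [e1, h]; push_cast; ring⟩

lemma jac_two_pow {p e : ℕ} {w t c d : ℤ} (hw : w % 2 = 1) (ht : t % 2 = 1) (he : e ≠ 0)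
    (hcd : (c = 1 ∧ d = 7) ∨ (c = 7 ∧ d = 1)) (h : (p : ℤ) = c * t ^ 2 + d * (2 ^ e * w) ^ 2) :
    jacobiSym 2 p ^ e = if (2 ^ e * w) % 4 = 2 then -1 else 1 := by
  obtain ⟨a, ha⟩ := Int.eight_dvd_sq_sub_one_of_odd (Int.odd_iff.2 ht)
  obtain ⟨b, hb⟩ := Int.eight_dvd_sq_sub_one_of_odd (Int.odd_iff.2 hw)
  obtain ⟨e, rfl⟩ := Nat.exists_eq_succ_of_ne_zero he
  rcases e with _ | e
  · have h1 : (p : ℤ) = c * (8 * a + 1) + d * (4 * (8 * b + 1)) := by
      rw [h]; norm_num; linear_combination c * ha + 4 * d * hb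
    have hp : p % 2 = 1 := by rcases hcd with ⟨rfl, rfl⟩ | ⟨rfl, rfl⟩ <;> omega
    rw [jacobiSym.at_two (Nat.odd_iff.2 hp), ZMod.χ₈_nat_eq_if_mod_eight]
    norm_num
    rcases hcd with ⟨rfl, rfl⟩ | ⟨rfl, rfl⟩ <;> split_ifs <;> omega
  · have h1 : (p : ℤ) = c * (8 * a + 1) + d * (16 * (2 ^ e * w) ^ 2) := by
      rw [h, Nat.succ_eq_add_one]; linear_combination c * ha
    have h2 : (2 : ℤ) ^ (e + 1).succ * w = 4 * (2 ^ e * w) := by
      rw [Nat.succ_eq_add_one]; ring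
    rw [h2]
    generalize (2 ^ e * w) ^ 2 = q at h1
    have hp : p % 2 = 1 := by rcases hcd with ⟨rfl, rfl⟩ | ⟨rfl, rfl⟩ <;> omega
    have h3 : jacobiSym 2 p = 1 := by
      rw [jacobiSym.at_two (Nat.odd_iff.2 hp), ZMod.χ₈_nat_eq_if_mod_eight]
      rcases hcd with ⟨rfl, rfl⟩ | ⟨rfl, rfl⟩ <;> split_ifs <;> omega
    rw [h3, one_pow, if_neg (by omega)]

lemma jac_p_of_dvd {p : ℕ} {c t w q : ℤ} (h : (p : ℤ) = c * t ^ 2 + w * q) (hc : IsCoprime t w) :
    jacobiSym p w.natAbs = jacobiSym c w.natAbs := by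
  have h1 : jacobiSym p w.natAbs = jacobiSym (c * t ^ 2) w.natAbs := by
    apply jacobiSym.mod_left'
    apply Int.ModEq.eq
    apply Int.ModEq.symm
    rw [Int.modEq_iff_dvd, h, add_sub_cancel_left]
    exact Int.natAbs_dvd.2 (dvd_mul_right _ _)
  rw [h1, jacobiSym.mul_left, jacobiSym.sq_one', mul_one]
  rw [← Int.isCoprime_iff_gcd_eq_one]
  rcases Int.natAbs_eq w with e | e
  · rwa [← e]
  · have : ((w.natAbs : ℕ) : ℤ) = -w := by omega
    rw [this]; exact hc.neg_right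

lemma coprime_xy {p : ℕ} (hp : p.Prime) {x y : ℤ} (h : (p : ℤ) = x ^ 2 + 7 * y ^ 2) :
    IsCoprime x y := by
  rw [Int.isCoprime_iff_gcd_eq_one]
  have h1 : ((Int.gcd x y * Int.gcd x y : ℕ) : ℤ) ∣ p := by
    rw [h]; push_cast
    obtain ⟨a, ha⟩ := Int.gcd_dvd_left x y
    obtain ⟨b, hb⟩ := Int.gcd_dvd_right x y
    exact ⟨a ^ 2 + 7 * b ^ 2, by
      linear_combination (x + (Int.gcd x y : ℤ) * a) * ha + 7 * (y + (Int.gcd x y : ℤ) * b) * hb⟩
  exact Nat.isUnit_iff.1 (hp.squarefree _ (Int.natCast_dvd_natCast.1 h1))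

theorem sign_main {p : ℕ} (hp : p.Prime) (hp2 : p % 2 = 1) {x y : ℤ}
    (h : (p : ℤ) = x ^ 2 + 7 * y ^ 2) (hx0 : x ≠ 0) :
    s4 (x + y) * jacobiSym (x * y) p = jacobiSym x 7 := by
  have hc := coprime_xy hp h
  have hy0 : y ≠ 0 := by
    rintro rfl
    have : x = 1 ∨ x = -1 := Int.isUnit_iff.1 (isCoprime_zero_right.1 hc)
    have h1 := hp.one_lt
    rcases this with rfl | rfl <;> omega
  rw [jacobiSym.mul_left]
  rcases Int.emod_two_eq_zero_or_one x with hx | hx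
  · have hy : y % 2 = 1 := by
      rcases Int.emod_two_eq_zero_or_one y with hy | hy
      · exfalso
        obtain ⟨a, rfl⟩ := Int.dvd_of_emod_eq_zero hx
        obtain ⟨b, rfl⟩ := Int.dvd_of_emod_eq_zero hy
        have : (p : ℤ) = 2 * (2 * a ^ 2 + 14 * b ^ 2) := by rw [h]; ring
        omega
      · exact hy
    have p4 : p % 4 = 3 := by
      obtain ⟨a, rfl⟩ := Int.dvd_of_emod_eq_zero hx
      obtain ⟨b, hb⟩ := Int.eight_dvd_sq_sub_one_of_odd (Int.odd_iff.2 hy)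
      have : (p : ℤ) = 4 * (a ^ 2 + 14 * b + 1) + 3 := by rw [h]; linear_combination 7 * hb
      omega
    obtain ⟨e, w, hw, rfl⟩ := exists_two_pow hx0
    have he : e ≠ 0 := by rintro rfl; omega
    have j2 := jac_two_pow (p := p) (c := 7) (d := 1) hw hy he (Or.inr ⟨rfl, rfl⟩) (by rw [h]; ring)
    have jy : jacobiSym p y.natAbs = 1 := by
      rw [jac_p_of_dvd (c := 1) (t := 2 ^ e * w) (q := 7 * y) (by rw [h]; ring) hc,
        jacobiSym.one_left]
    have jw : jacobiSym p w.natAbs = jacobiSym w 7 * s4 w := by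
      rw [jac_p_of_dvd (c := 7) (t := y) (q := (2 ^ e) ^ 2 * w) (by rw [h]; ring)
        hc.symm.of_mul_right_right, jac_seven hw]
    have j7 : jacobiSym 2 7 = 1 := by norm_num
    rw [jacobiSym.mul_left _ _ p, jacobiSym.mul_left _ _ 7, jacobiSym.pow_left, jacobiSym.pow_left,
      j2, j7, jac_odd hw hp2, jac_odd hy hp2, jy, jw, if_pos p4, if_pos p4]
    have := s4_sq w
    generalize 2 ^ e * w = v at *
    have h5 : s4 (v + y) * (if v % 4 = 2 then -1 else 1) * s4 y = 1 := by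
      unfold s4; split_ifs <;> omega
    linear_combination (jacobiSym w 7 * s4 w * s4 w) * h5 + jacobiSym w 7 * this
  · have hy : y % 2 = 0 := by
      rcases Int.emod_two_eq_zero_or_one y with hy | hy
      · exact hy
      · exfalso
        obtain ⟨a, ha⟩ := Int.eight_dvd_sq_sub_one_of_odd (Int.odd_iff.2 hx)
        obtain ⟨b, hb⟩ := Int.eight_dvd_sq_sub_one_of_odd (Int.odd_iff.2 hy)
        have : (p : ℤ) = 2 * (4 * a + 28 * b + 4) := by rw [h]; linear_combination ha + 7 * hb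
        omega
    have p4 : ¬ p % 4 = 3 := by
      obtain ⟨a, rfl⟩ := Int.dvd_of_emod_eq_zero hy
      obtain ⟨b, hb⟩ := Int.eight_dvd_sq_sub_one_of_odd (Int.odd_iff.2 hx)
      have : (p : ℤ) = 4 * (7 * a ^ 2 + 2 * b) + 1 := by rw [h]; linear_combination hb
      omega
    obtain ⟨e, w, hw, rfl⟩ := exists_two_pow hy0
    have he : e ≠ 0 := by rintro rfl; omega
    have j2 := jac_two_pow (p := p) (c := 1) (d := 7) hw hx he (Or.inl ⟨rfl, rfl⟩) (by rw [h]; ring)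
    have jw : jacobiSym p w.natAbs = 1 := by
      rw [jac_p_of_dvd (c := 1) (t := x) (q := 7 * (2 ^ e) ^ 2 * w) (by rw [h]; ring)
        hc.of_mul_right_right, jacobiSym.one_left]
    have jx : jacobiSym p x.natAbs = jacobiSym x 7 * s4 x := by
      rw [jac_p_of_dvd (c := 7) (t := 2 ^ e * w) (q := x) (by rw [h]; ring) hc.symm, jac_seven hx]
    rw [jacobiSym.mul_left _ _ p, jacobiSym.pow_left,
      j2, jac_odd hw hp2, jac_odd hx hp2, jx, jw, if_neg p4, if_neg p4]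
    generalize 2 ^ e * w = v at *
    have h5 : s4 (x + v) * (if v % 4 = 2 then -1 else 1) * s4 x = 1 := by
      unfold s4; split_ifs <;> omega
    linear_combination (jacobiSym x 7) * h5

lemma sign_three {p n : ℕ} (hp : p.Prime) (hn : p = 2 * n + 1) (h3 : p ≠ 3) :
    (-1) ^ n * jacobiSym p 3 * jacobiSym 3 p = 1 := by
  have h := jacobiSym.quadratic_reciprocity (a := 3) (b := p) (by decide) ⟨n, hn⟩
  have h1 : jacobiSym p 3 ^ 2 = 1 := by
    apply jacobiSym.sq_one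
    exact_mod_cast (Nat.coprime_primes hp Nat.prime_three).2 h3
  rw [show 3 / 2 * (p / 2) = n by omega] at h
  push_cast at h
  have h2 : ((-1 : ℤ) ^ n) ^ 2 = 1 := by rw [← pow_mul, mul_comm, pow_mul]; simp
  rw [h]
  linear_combination ((-1) ^ n) ^ 2 * h1 + h2

end Pool.Agent.MP_d8ab80_nt
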