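import Pool.Agent.MP_d8ab80_nt.Main
import Pool.Agent.MP_d8ab80_nt.CM
import Pool.Agent.MP_d8ab80_nt.Legendre
import Pool.Agent.MP_d8ab80_nt.Sign

/-! Part (a) in a ring where `-7` is a square. -/

set_option linter.unusedSectionVars false
set_option linter.unusedSimpArgs false

namespace Pool.Agent.MP_d8ab80_nt

section
open Polynomial
variable {A : Type*} [CommRing A]

lemma coeff_comp2 (μ : A) (P : A[X]) (k : ℕ) :
    (P.comp (C μ * X ^ 2)).coeff (2 * k) = P.coeff k * μ ^ k := by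
  induction P using Polynomial.induction_on' with
  | add p q hp hq => rw [add_comp, coeff_add, hp, hq, coeff_add, add_mul]
  | monomial m a =>
    rw [← C_mul_X_pow_eq_monomial, mul_comp, C_comp, pow_comp, X_comp, mul_pow, ← pow_mul, ← C_pow,
      coeff_C_mul, coeff_C_mul, coeff_C_mul, coeff_X_pow, coeff_X_pow]
    by_cases h : k = m
    · simp [h]
    · rw [if_neg h, if_neg (by omega)]; simp

lemma natDegree_comp2 (μ : A) {P : A[X]} {n : ℕ} (h : P.natDegree ≤ n) :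
    (P.comp (C μ * X ^ 2)).natDegree ≤ 2 * n := by
  refine natDegree_comp_le.trans ?_
  rw [mul_comm]
  exact Nat.mul_le_mul (by compute_degree) h

lemma derivative_comp2 (μ : A) (P : A[X]) : derivative (P.comp (C μ * X ^ 2)) =
    2 * C μ * X * (derivative P).comp (C μ * X ^ 2) := by
  rw [derivative_comp, derivative_C_mul, derivative_X_pow]
  simp only [map_natCast]; push_cast; ring

variable [IsDomain A] [CharZero A] {p : ℕ} [hp : Fact p.Prime]

theorem pack_of_cm {n : ℕ} (hn : p = 2 * n + 1) (ρ : A →+* ZMod p)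
    (hρ : ∀ x, ρ x = 0 ↔ (p : A) ∣ x) {φ i σ : A} (hφ : φ ^ 2 = φ - 2) (hi : 63 * i = 1)
    (hσ : σ ^ 2 = 1) {x y : ℤ} (h : (p : ℤ) = x ^ 2 + 7 * y ^ 2)
    (hπ' : ρ (x - y * (2 * φ - 1)) ≠ 0)
    (hs : ρ (σ * (s4 (x + y) * 4 ^ n * (12 * i * (2 * φ - 1)) ^ n)) = 1) :
    ∃ a F, Pack n ρ (256 * i) (96 * i) (σ * (x + y * (2 * φ - 1))) (σ * (x - y * (2 * φ - 1)))
      a F := by
  have hxy : (x - y) % 2 = 1 := by
    have : (p : ℤ) = (x - y) + 2 * (x * (x - 1) / 2 + y * (y - 1) / 2 + 3 * y ^ 2 + y) := by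
      have h1 := Int.two_mul_ediv_two_of_even (Int.even_mul_pred_self x)
      have h2 := Int.two_mul_ediv_two_of_even (Int.even_mul_pred_self y)
      rw [h]; linear_combination -h1 - h2
    omega
  have hn' : (p : ℤ) = 2 * n + 1 := by exact_mod_cast hn
  obtain ⟨B, F, G⟩ := exists_goodOdd hφ (a := x - y) (b := 2 * y) (n := n) hxy (by omega)
    (by rw [← hn', h]; ring)
  have hal : al φ (x - y) (2 * y) = x + y * (2 * φ - 1) := by simp only [al]; push_cast; ring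
  have hpA : (p : A) = x ^ 2 + 7 * y ^ 2 := by exact_mod_cast congrArg (Int.cast : ℤ → A) h
  have hnA : (p : A) = 2 * n + 1 := by exact_mod_cast congrArg (Nat.cast : ℕ → A) hn
  set r := 2 * φ - 1 with hr
  have hr2 : r ^ 2 = -7 := by rw [hr]; linear_combination 4 * hφ
  set μ := 12 * i * r with hμ
  set π := (x : A) + y * r with hπ
  have e1 : 3 * r * μ = -4 := by rw [hμ]; linear_combination 36 * i * hr2 - 4 * hi
  have e2 : 16 * μ ^ 2 = -(256 * i) := by
    rw [hμ]; linear_combination 2304 * i ^ 2 * hr2 - 256 * i * hi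
  have e3 : μ * (8 * ((2 * y : ℤ) : A) * π) = 96 * i * ((σ * π) ^ 2 - p) := by
    rw [hμ, hπ, hpA]; push_cast
    linear_combination (-96 * i * (x + y * r) ^ 2) * hσ + (96 * i * y ^ 2) * hr2
  have E1 : (C (3 * r) * C μ : A[X]) = -4 := by rw [← C_mul, e1]; simp [map_ofNat]
  have E2 : (16 * C μ ^ 2 : A[X]) = -C (256 * i) := by
    rw [← map_neg, ← e2]; simp [map_ofNat]
  have E3 : (C μ * C (8 * ((2 * y : ℤ) : A) * π) : A[X]) = C (96 * i * ((σ * π) ^ 2 - p)) := by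
    rw [← C_mul, e3]
  have E4 : (C σ : A[X]) ^ 2 = 1 := by rw [← C_pow, hσ, C_1]
  have E5 : (C (p : A) : A[X]) = 2 * n + 1 := by rw [hnA]; simp [map_ofNat]
  have w := congrArg (fun P => P.comp (C μ * X ^ 2)) G.wronski
  have t := congrArg (fun P => P.comp (C μ * X ^ 2)) G.theta
  simp only [hal, ← hr, mul_comp, add_comp, sub_comp, pow_comp, C_comp, X_comp, ofNat_comp,
    one_comp, natCast_comp, Nat.cast_ofNat] at w t
  have σ0 : ρ σ ≠ 0 := by
    intro h0
    rw [map_mul, h0, zero_mul] at hs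
    exact zero_ne_one hs
  refine ⟨C σ * (X * B.comp (C μ * X ^ 2)), F.comp (C μ * X ^ 2), hn, hρ,
    by linear_combination 256 * hi, by linear_combination 32 * hi, ?_, ?_, ?_, ?_, ?_,
    natDegree_comp2 μ G.dF, ?_, ?_, ?_, ?_⟩
  · rw [hpA]; linear_combination (x ^ 2 - y ^ 2 * r ^ 2) * hσ - y ^ 2 * hr2
  · rw [map_mul]; exact mul_ne_zero σ0 hπ'
  · simp only [derivative_mul, derivative_comp2, derivative_C, derivative_X, QQ, map_mul C σ]
    set b := B.comp (C μ * X ^ 2)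
    set b' := (derivative B).comp (C μ * X ^ 2)
    set f := F.comp (C μ * X ^ 2)
    set f' := (derivative F).comp (C μ * X ^ 2)
    linear_combination C σ ^ 2 * w
      - C σ ^ 2 * X ^ 2 * (((b + 2 * C μ * X ^ 2 * b') * f - 2 * C μ * X ^ 2 * b * f') ^ 2
        - C π ^ 2 * b ^ 2 * f ^ 2) * E1
      + C σ ^ 2 * X ^ 4 * (((b + 2 * C μ * X ^ 2 * b') * f - 2 * C μ * X ^ 2 * b * f') ^ 2
        - C π ^ 2 * b ^ 4) * E2
      + C σ ^ 2 * C π ^ 2 * (4 * X ^ 2 * b ^ 2 * f ^ 2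
        - C (256 * i) * X ^ 4 * b ^ 4 * (C σ ^ 2 + 1)) * E4
  · rw [← E3]
    simp only [derivative_mul, derivative_comp2, derivative_C, derivative_X, QQ, Qh, map_mul C σ,
      derivative_ofNat, map_mul C (256 * i), map_pow C, E5]
    set b := B.comp (C μ * X ^ 2)
    set f := F.comp (C μ * X ^ 2)
    set f' := (derivative F).comp (C μ * X ^ 2)
    set f'' := (derivative (derivative F)).comp (C μ * X ^ 2)
    linear_combination C μ * t
      - (4 * C μ ^ 2 * X ^ 4 * (f * f'' - f' ^ 2) + 4 * C μ * X ^ 2 * f * f') * E1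
      + (4 * C μ ^ 2 * X ^ 6 * (f * f'' - f' ^ 2) + 6 * C μ * X ^ 4 * f * f'
        - f ^ 2 * (2 * n + 1) * X ^ 2 + C π ^ 2 * X ^ 2 * b ^ 2) * E2
      + (C (256 * i) * C π ^ 2 * X ^ 2 * b ^ 2 * (C σ ^ 2 + 1)) * E4
  · refine (natDegree_C_mul_le _ _).trans ?_
    refine (natDegree_mul_le_of_le natDegree_X_le (natDegree_comp2 μ G.dA)).trans (by omega)
  · simp
  · have := coeff_comp2 μ B 0
    rw [coeff_C_mul, coeff_X_mul, this, coeff_zero_eq_eval_zero, G.A0, hal]; simp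
  · have := coeff_comp2 μ F 0
    rw [this, coeff_zero_eq_eval_zero, G.F0]; simp
  · have e : (X * B.comp (C μ * X ^ 2)).coeff p = (B.comp (C μ * X ^ 2)).coeff (2 * n) := by
      rw [← coeff_X_mul (B.comp _) (2 * n), ← hn]
    rw [coeff_C_mul, e, coeff_comp2, G.cA, ← hs, s4,
      show x - y + 2 * y = x + y by ring]
    split_ifs <;> simp

end

section
open PowerSeries Finset
variable {A : Type*} [CommRing A]

lemma coeff_expand4 (H : A⟦X⟧) (N : ℕ) : coeff (N + 2) ((1 - X ^ 2) * expand 4 (by omega) H) =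
    (if 4 ∣ N + 2 then coeff ((N + 2) / 4) H else 0) - if 4 ∣ N then coeff (N / 4) H else 0 := by
  rw [sub_mul, one_mul, map_sub, coeff_X_pow_mul, coeff_expand, coeff_expand]

lemma exists_j {p n : ℕ} (hn : p = 2 * n + 1) (h1 : 1 ≤ n) : ∃ j₁ j₂ : ℕ, j₁ < p ∧ j₂ < p ∧
    (p : ℤ) ∣ 16 * j₁ * (j₁ + 1) + 3 ∧ (p : ℤ) ∣ 16 * j₂ * (j₂ + 1) + 3 ∧
    (p : ℤ) ^ 2 ∣ 3 * (16 * j₁ * (j₁ + 1) + 3) + (16 * j₂ * (j₂ + 1) + 3) ∧
    (∀ H : A⟦X⟧, coeff (2 * n) ((1 - X ^ 2) * expand 4 (by omega) H) = (-1) ^ n * coeff j₁ H) ∧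
    ∀ H : A⟦X⟧, Lam n ((1 - X ^ 2) * expand 4 (by omega) H) =
      (-1) ^ n * (3 * coeff j₁ H + coeff j₂ H) := by
  rcases Nat.even_or_odd' n with ⟨m, rfl | rfl⟩
  · obtain ⟨m, rfl⟩ : ∃ k, m = k + 1 := ⟨m - 1, by omega⟩
    have c1 : ∀ H : A⟦X⟧, coeff (2 * (2 * (m + 1))) ((1 - X ^ 2) * expand 4 (by omega) H) =
        coeff (m + 1) H := by
      intro H
      rw [show 2 * (2 * (m + 1)) = (4 * m + 2) + 2 by ring, coeff_expand4, if_pos (by omega),
        if_neg (by omega), show (4 * m + 2 + 2) / 4 = m + 1 by omega, sub_zero]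
    refine ⟨m + 1, 3 * (m + 1), by omega, by omega, ⟨p + 2, by rw [hn]; push_cast; ring⟩,
      ⟨9 * p - 6, by rw [hn]; push_cast; ring⟩, ⟨12, by rw [hn]; push_cast; ring⟩, ?_, ?_⟩
    · intro H; rw [c1, pow_mul]; simp
    · intro H
      rw [Lam, c1, coeff_expand4, if_neg (by omega), if_pos (by omega),
        show 6 * (2 * (m + 1)) / 4 = 3 * (m + 1) by omega, pow_mul]
      simp
  · have c1 : ∀ H : A⟦X⟧, coeff (2 * (2 * m + 1)) ((1 - X ^ 2) * expand 4 (by omega) H) =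
        -coeff m H := by
      intro H
      rw [show 2 * (2 * m + 1) = (4 * m) + 2 by ring, coeff_expand4, if_neg (by omega),
        if_pos (by omega), show (4 * m) / 4 = m by omega, zero_sub]
    refine ⟨m, 3 * m + 2, by omega, by omega, ⟨p - 2, by rw [hn]; push_cast; ring⟩,
      ⟨9 * p + 6, by rw [hn]; push_cast; ring⟩, ⟨12, by rw [hn]; push_cast; ring⟩, ?_, ?_⟩
    · intro H; rw [c1, pow_succ, pow_mul]; simp
    · intro H
      rw [Lam, c1, coeff_expand4, if_pos (by omega), if_neg (by omega),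
        show (6 * (2 * m + 1) + 2) / 4 = 3 * m + 2 by omega, pow_succ, pow_mul]
      ring

lemma sum_interp {p j₁ j₂ : ℕ} (hp : p.Prime)
    (h₁ : (p : ℤ) ∣ 16 * j₁ * (j₁ + 1) + 3) (h₂ : (p : ℤ) ∣ 16 * j₂ * (j₂ + 1) + 3)
    (h : (p : ℤ) ^ 2 ∣ 3 * (16 * j₁ * (j₁ + 1) + 3) + (16 * j₂ * (j₂ + 1) + 3)) (i : A)
    (wt : ℕ → A) :
    (p : A) ^ 2 ∣ 4 * ∑ k ∈ range p, wt k * ((k.centralBinom : A) * (2 * k).centralBinom) * i ^ k
      - (3 * ∑ k ∈ range p, wt k * (bb j₁ k : A) * (-(64 * i)) ^ k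
        + ∑ k ∈ range p, wt k * (bb j₂ k : A) * (-(64 * i)) ^ k) := by
  rw [mul_sum, mul_sum, ← sum_add_distrib, ← sum_sub_distrib]
  refine dvd_sum fun k hk => ?_
  obtain ⟨u, hu⟩ := interp_sq hp (mem_range.1 hk) h₁ h₂ h
  have := congrArg (Int.cast : ℤ → A) hu
  push_cast at this
  refine ⟨wt k * i ^ k * u, ?_⟩
  rw [show -(64 * i) = -64 * i by ring, mul_pow]
  linear_combination wt k * i ^ k * this

variable [IsDomain A] [CharZero A]

lemma g_sq {i : A} (hi : 63 * i = 1) :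
    ((1 - X ^ 4) ^ 2 + C (256 * i) * X ^ 4) * expand 4 (by omega) (Gs (64 * i)) ^ 2 = 1 := by
  have hz : 64 * i ≠ 0 := by
    intro h0
    have : (64 : A) = 0 := by linear_combination 63 * h0 - 64 * hi
    norm_num at this
  have := congrArg (expand 4 (by omega)) (gf_sq hz)
  simp only [map_mul, map_add, map_sub, map_pow, map_one, map_ofNat, expand_X, expand_C] at this ⊢
  linear_combination this

lemma g_one (z : A) : ∃ g₁, expand 4 (by omega) (Gs z) = 1 + X ^ 4 * g₁ := by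
  obtain ⟨u, hu⟩ : (X : A⟦X⟧) ∣ Gs z - 1 := by rw [X_dvd_iff]; simp [cc_Gs]
  refine ⟨expand 4 (by omega) u, ?_⟩
  rw [show Gs z = 1 + X * u by rw [← hu]; ring]
  simp

lemma g_d {i : A} (hi : 63 * i = 1) :
    C (256 * i) * X ^ 4 * (1 - X ^ 2) * expand 4 (by omega) (Gs (64 * i)) ^ 3 =
      C (-2) * ((1 - X ^ 2) * expand 4 (by omega) (G1s (64 * i))) := by
  have hz : 64 * i ≠ 0 := by
    intro h0
    have : (64 : A) = 0 := by linear_combination 63 * h0 - 64 * hi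
    norm_num at this
  rw [gf_d hz]
  simp only [map_mul, map_neg, map_pow, map_ofNat, expand_X, expand_C]
  ring

variable {p : ℕ} [hp : Fact p.Prime]

theorem partA_gen (h3 : 3 < p) (ρ : A →+* ZMod p)
    (hρ : ∀ x, ρ x = 0 ↔ (p : A) ∣ x) {φ i : A} (hφ : φ ^ 2 = φ - 2) (hi : 63 * i = 1)
    {x y : ℤ} (h : (p : ℤ) = x ^ 2 + 7 * y ^ 2) (hx : jacobiSym x 7 = 1)
    (hπ : ρ (x + y * (2 * φ - 1)) = 0) :
    (p : A) ^ 2 ∣ ∑ k ∈ range p, ((k.centralBinom : A) * (2 * k).centralBinom) * i ^ k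
      - jacobiSym p 3 * (x - y * (2 * φ - 1)) ∧
    (p : A) ^ 2 ∣ ∑ k ∈ range p, ((k : A) + 8) * ((k.centralBinom : A) * (2 * k).centralBinom) * i ^ k
      - 8 * jacobiSym p 3 * x := by
  obtain ⟨n, hn⟩ : Odd p := hp.out.odd_of_ne_two (by omega)
  have hx0 : x ≠ 0 := by rintro rfl; norm_num at hx
  have two := two_ne_zero_zmod hn
  have hcop := coprime_xy hp.out h
  have hpz : (x : ZMod p) ^ 2 + 7 * y ^ 2 = 0 := by
    have := congrArg (Int.cast : ℤ → ZMod p) h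
    push_cast at this
    rw [← this, ZMod.natCast_self]
  simp only [map_add, map_mul, map_sub, map_intCast, map_ofNat, map_one] at hπ
  have hi' : 63 * ρ i = 1 := by
    have := congrArg ρ hi
    simpa only [map_mul, map_ofNat, map_one] using this
  have hr : (2 * ρ φ - 1) ^ 2 = -7 := by
    have := congrArg ρ hφ
    simp only [map_sub, map_pow, map_ofNat] at this
    linear_combination 4 * this
  have hxz : (x : ZMod p) ≠ 0 := by
    intro h0
    obtain ⟨u, v, huv⟩ := hcop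
    have h1 := congrArg (Int.cast : ℤ → ZMod p) huv
    push_cast at h1
    rw [h0] at h1 hπ
    have h2 : 2 * ρ φ - 1 = 0 := by linear_combination v * hπ - (2 * ρ φ - 1) * h1
    rw [h2] at hr
    have h7 : (7 : ZMod p) = 0 := by linear_combination hr
    have : (1 : ZMod p) = 0 := by linear_combination 9 * ρ i * h7 - hi'
    exact one_ne_zero this
  have h3z : (3 : ZMod p) ≠ 0 := by
    intro h0
    have : (1 : ZMod p) = 0 := by linear_combination 21 * ρ i * h0 - hi'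
    exact one_ne_zero this
  have s3 := sign_three hp.out hn (by omega)
  have sm := sign_main hp.out (by omega) h hx0
  have hJ : jacobiSym p 3 ^ 2 = 1 := by
    apply jacobiSym.sq_one
    exact_mod_cast (Nat.coprime_primes hp.out Nat.prime_three).2 (by omega)
  have hn1 : ((-1 : A) ^ n) ^ 2 = 1 := by rw [← pow_mul, mul_comm, pow_mul]; simp
  have hJA : ((jacobiSym p 3 : ℤ) : A) ^ 2 = 1 := by exact_mod_cast congrArg (Int.cast : ℤ → A) hJ
  obtain ⟨a, F, P⟩ := pack_of_cm hn ρ hρ (σ := (-1) ^ n * jacobiSym p 3) hφ hi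
    (by rw [mul_pow, hn1, hJA, one_mul]) h (by
      simp only [map_add, map_mul, map_sub, map_intCast, map_ofNat, map_one]
      intro h0
      exact mul_ne_zero two hxz (by linear_combination h0 + hπ)) (by
      have e1 := legendreSym.eq_pow p (3 * (x * y))
      rw [jacobiSym.legendreSym.to_jacobiSym, show p / 2 = n by omega, jacobiSym.mul_left] at e1
      have e2 : (-1) ^ n * jacobiSym p 3 * (s4 (x + y) * (jacobiSym 3 p * jacobiSym (x * y) p))
          = 1 := by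
        linear_combination (s4 (x + y) * jacobiSym (x * y) p) * s3 + sm + hx
      have e3 := congrArg (Int.cast : ℤ → ZMod p) e2
      have f1 : ((3 * x : ZMod p) ^ 2) ^ n = 1 := by
        rw [← pow_mul, show 2 * n = p - 1 by omega]
        exact ZMod.pow_card_sub_one_eq_one (mul_ne_zero h3z hxz)
      have f2 : ((4 : ZMod p) ^ 2) ^ n = 1 := by
        rw [← pow_mul, show 2 * n = p - 1 by omega]
        refine ZMod.pow_card_sub_one_eq_one ?_
        rw [show (4 : ZMod p) = 2 * 2 by norm_num]; exact mul_ne_zero two two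
      have f3 : (4 * (12 * ρ i * (2 * ρ φ - 1))) * (3 * x : ZMod p) ^ 2 = 4 ^ 2 * (3 * (x * y)) := by
        linear_combination (432 * ρ i * (2 * ρ φ - 1) * x) * hπ - (432 * ρ i * x * y) * hr
          + (48 * x * y) * hi'
      have f4 := congrArg (· ^ n) f3
      simp only [mul_pow (4 * _) ((3 * x : ZMod p) ^ 2), mul_pow (4 ^ 2 : ZMod p), f1, f2,
        mul_pow (4 : ZMod p) _ n] at f4
      push_cast at e1 e3
      simp only [map_add, map_mul, map_sub, map_intCast, map_ofNat, map_one, map_pow, map_neg]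
      linear_combination e3 + ((-1) ^ n * (jacobiSym p 3 : ZMod p) * s4 (x + y)) * (f4 - e1))
  obtain ⟨g₁, hg⟩ := g_one (64 * i)
  obtain ⟨⟨u₁, m1⟩, ⟨u₂, m2⟩⟩ := main_cong P (g_sq hi) hg
  obtain ⟨j₁, j₂, l₁, l₂, d₁, d₂, d₃, -, hL⟩ := exists_j (A := A) hn (by omega)
  rw [g_d hi, Lam_C] at m2
  rw [hL, coeff_Gs, coeff_Gs, pj_eq _ l₁, pj_eq _ l₂] at m1
  rw [hL, coeff_G1s, coeff_G1s, dj_eq _ l₁, dj_eq _ l₂] at m2
  obtain ⟨u₃, m3⟩ := sum_interp hp.out d₁ d₂ d₃ i (fun _ => 1)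
  obtain ⟨u₄, m4⟩ := sum_interp hp.out d₁ d₂ d₃ i (fun k => k)
  simp only [one_mul] at m3
  have four : ρ 4 ≠ 0 := by
    rw [map_ofNat, show (4 : ZMod p) = 2 * 2 by norm_num]; exact mul_ne_zero two two
  have eight : ρ 8 ≠ 0 := by
    rw [map_ofNat, show (8 : ZMod p) = 2 * (2 * 2) by norm_num]
    exact mul_ne_zero two (mul_ne_zero two two)
  constructor
  · apply cancel_unit ρ hρ four
    refine ⟨u₃ + (-1) ^ n * u₁, ?_⟩
    linear_combination m3 + (-1) ^ n * m1 - ((3 * ∑ k ∈ range p, (bb j₁ k : A) * (-(64 * i)) ^ k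
      + ∑ k ∈ range p, (bb j₂ k : A) * (-(64 * i)) ^ k)
      - 4 * jacobiSym p 3 * (x - y * (2 * φ - 1))) * hn1
  · apply cancel_unit ρ hρ eight
    simp only [add_mul, sum_add_distrib, mul_assoc (8 : A), ← mul_sum]
    refine ⟨16 * u₃ + 16 * (-1) ^ n * u₁ + 2 * u₄ - (-1) ^ n * u₂, ?_⟩
    linear_combination 16 * m3 + 16 * (-1) ^ n * m1 + 2 * m4 - (-1) ^ n * m2
      - (16 * (3 * ∑ k ∈ range p, (bb j₁ k : A) * (-(64 * i)) ^ k
      + ∑ k ∈ range p, (bb j₂ k : A) * (-(64 * i)) ^ k)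
      + 2 * (3 * ∑ k ∈ range p, (k : A) * (bb j₁ k : A) * (-(64 * i)) ^ k
      + ∑ k ∈ range p, (k : A) * (bb j₂ k : A) * (-(64 * i)) ^ k)
      - 64 * jacobiSym p 3 * x) * hn1

end

end Pool.Agent.MP_d8ab80_nt
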