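import Pool.Agent.MP_d8ab80_nt.PartA
import Pool.Agent.MP_d8ab80_nt.Hasse
import Pool.Agent.MP_d8ab80_nt.Addition

/-! Part (b). -/

set_option linter.unusedSectionVars false
set_option linter.unusedSimpArgs false

namespace Pool.Agent.MP_d8ab80_nt
open Finset

lemma map_Gs {A B : Type*} [CommRing A] [CommRing B] (f : A →+* B) (z : A) :
    PowerSeries.map f (Gs z) = Gs (f z) := by
  ext n
  simp [coeff_Gs, pj]

theorem partB_field {k : Type*} [Field k] {p : ℕ} [hp : Fact p.Prime] [CharP k p] {n : ℕ}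
    (hn : p = 2 * n + 1) {φ i : k} (hφ : φ ^ 2 = φ - 2) (hi : 63 * i = 1)
    (h7 : (-7 : k) ^ n = -1)
    (hg : ((1 - PowerSeries.X ^ 4) ^ 2 + PowerSeries.C (256 * i) * PowerSeries.X ^ 4) *
      PowerSeries.expand 4 (by omega) (Gs (64 * i)) ^ 2 = 1) :
    ∑ j ∈ range p, ((j.centralBinom : k) * (2 * j).centralBinom) * i ^ j = 0 ∧
    ∑ j ∈ range p, ((j.centralBinom : k) * ((2 * j).centralBinom : k) ^ 2) * i ^ j = 0 := by
  have hp1 := hp.out.one_lt
  have two : (2 : k) ≠ 0 := by
    have := cast_ne_zero_of_lt (k := k) (p := p) (j := 1) (by omega)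
    intro h; apply this; push_cast; linear_combination h
  have hr : (2 * φ - 1) ^ 2 = -7 := by linear_combination 4 * hφ
  have h0 : φ ≠ 0 := by
    rintro rfl
    apply two; linear_combination hφ
  have h1 : φ ^ (2 * n) ≠ 1 := by
    intro h
    have e1 : φ ^ p = φ := by rw [hn, pow_succ, h, one_mul]
    have e2 : (2 : k) ^ p = 2 := by
      rw [show (2 : k) = 1 + 1 by norm_num, add_pow_char, one_pow]
    have e3 : (2 * φ - 1) ^ p = 2 * φ - 1 := by rw [sub_pow_char, mul_pow, e1, e2, one_pow]
    rw [hn, pow_succ, pow_mul, hr, h7] at e3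
    have e4 : 2 * φ - 1 = 0 := by
      apply mul_left_cancel₀ two; linear_combination -e3
    rw [e4] at hr
    have : (1 : k) = 0 := by linear_combination 9 * i * hr - hi
    exact one_ne_zero this
  have H := hasse_zero hn hφ h0 h1
  have hp0 : ((p : ℤ) : k) = 0 := by exact_mod_cast CharP.cast_eq_zero k p
  constructor
  · obtain ⟨g₁, hg1⟩ : ∃ g₁, PowerSeries.expand 4 (by omega) (Gs (64 * i)) =
        1 + PowerSeries.X ^ 4 * g₁ := by
      obtain ⟨u, hu⟩ : (PowerSeries.X : PowerSeries k) ∣ Gs (64 * i) - 1 := by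
        rw [PowerSeries.X_dvd_iff]; simp [cc_Gs]
      refine ⟨PowerSeries.expand 4 (by omega) u, ?_⟩
      rw [show Gs (64 * i) = 1 + PowerSeries.X * u by rw [← hu]; ring]
      simp
    have c := coeff_omega hn hg hg1
    obtain ⟨j₁, j₂, l₁, -, d₁, -, -, hc, -⟩ := exists_j (A := k) hn (by omega)
    have eQ : QQ (256 * i) = (Qt φ).comp (Polynomial.C (12 * i * (2 * φ - 1)) * Polynomial.X ^ 2) := by
      have e1 : 3 * (2 * φ - 1) * (12 * i * (2 * φ - 1)) = -4 := by
        linear_combination 36 * i * hr - 4 * hi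
      have e2 : 16 * (12 * i * (2 * φ - 1)) ^ 2 = -(256 * i) := by
        linear_combination 2304 * i ^ 2 * hr - 256 * i * hi
      have E1 := congrArg Polynomial.C e1
      have E2 := congrArg Polynomial.C e2
      rw [map_mul, map_neg, map_ofNat] at E1
      rw [map_mul, map_neg, map_ofNat, map_pow] at E2
      simp only [QQ, Qt, Polynomial.mul_comp, Polynomial.add_comp, Polynomial.sub_comp,
        Polynomial.pow_comp, Polynomial.C_comp, Polynomial.X_comp, Polynomial.ofNat_comp,
        Polynomial.one_comp, Nat.cast_ofNat]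
      linear_combination (-Polynomial.X ^ 2) * E1 + Polynomial.X ^ 4 * E2
    rw [hc, eQ, ← Polynomial.pow_comp, coeff_comp2, H, zero_mul, coeff_Gs, pj_eq _ l₁] at c
    rw [← (mul_eq_zero.1 c).resolve_left (pow_ne_zero _ (neg_ne_zero.2 one_ne_zero))]
    refine sum_congr rfl fun j hj => ?_
    obtain ⟨u, hu⟩ := interp_one hp.out (mem_range.1 hj) d₁
    have := congrArg (Int.cast : ℤ → k) hu
    rw [Int.cast_mul (p : ℤ), hp0] at this
    push_cast at this
    rw [show -(64 * i) = -64 * i by ring, mul_pow]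
    linear_combination i ^ j * this
  · have hchar : ∀ j < n, ((j : k) + 1) ≠ 0 := fun j hj =>
      cast_ne_zero_of_lt (p := p) (by omega)
    have e := even_sum (N := p) (by omega) hchar (t := 2 - 3 * φ) (y := 3 * i * (10 + φ))
      (c := 256 * i) (by linear_combination 18 * i * hφ + (3 * φ - 2) * hi) (by
        have : (1 - 3 * i * (10 + φ)) = 3 * i * (11 - φ) := by linear_combination -hi
        rw [this]
        linear_combination (81 * i ^ 2 * (φ ^ 2 - φ - 112) + 18 * i ^ 2) * hφ + 256 * i * hi)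
    have e2 : pj (2 - 3 * φ) n = 0 := by
      rw [pj_eq_coeff hchar, ← H, Qt]
      congr 2
      have hf : (Polynomial.C φ) ^ 2 = Polynomial.C φ - 2 := by
        rw [← map_pow, hφ, map_sub, map_ofNat]
      simp only [map_sub, map_mul, map_ofNat, map_one]
      linear_combination (9 * Polynomial.X ^ 2) * hf
    rw [e2, mul_zero] at e
    rw [← e]
    refine sum_congr rfl fun j hj => ?_
    rcases lt_or_ge (2 * j) p with h | h
    · obtain ⟨u, hu⟩ := interp_c hp.out h hn
      have := congrArg (Int.cast : ℤ → k) hu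
      rw [Int.cast_mul (p : ℤ), hp0] at this
      push_cast at this
      rw [pow_mul, show (-16 : k) ^ 2 = 256 by norm_num] at this
      rw [mul_pow]
      linear_combination (j.centralBinom * i ^ j) * this
    · have : (j.centralBinom : k) = 0 := by
        rw [CharP.cast_eq_zero_iff k p, Nat.centralBinom]
        have hj' := mem_range.1 hj
        exact hp.out.dvd_choose hj' (by omega) h
      simp [this]

theorem partB_gen {A : Type*} [CommRing A] [IsDomain A] [CharZero A] {p : ℕ} [hp : Fact p.Prime]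
    (h3 : 3 < p) (ρ : A →+* ZMod p) (hρ : ∀ x, ρ x = 0 ↔ (p : A) ∣ x) {i : A} (hi : 63 * i = 1)
    (h7 : jacobiSym p 7 = -1) :
    (p : A) ∣ ∑ j ∈ range p, ((j.centralBinom : A) * (2 * j).centralBinom) * i ^ j ∧
    (p : A) ∣ ∑ j ∈ range p, ((j.centralBinom : A) * ((2 * j).centralBinom : A) ^ 2) * i ^ j := by
  obtain ⟨n, hn⟩ : Odd p := hp.out.odd_of_ne_two (by omega)
  let k := AlgebraicClosure (ZMod p)
  let f : A →+* k := (algebraMap (ZMod p) k).comp ρ
  have hf : ∀ x, f x = 0 → (p : A) ∣ x := fun x hx =>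
    (hρ x).1 ((algebraMap (ZMod p) k).injective (by rw [map_zero]; exact hx))
  have two : (2 : k) ≠ 0 := by
    have := cast_ne_zero_of_lt (k := k) (p := p) (j := 1) (by omega)
    intro h; apply this; push_cast; linear_combination h
  obtain ⟨r, hr⟩ := IsAlgClosed.exists_pow_nat_eq (-7 : k) two_pos
  have hφ : ((1 + r) / 2) ^ 2 = (1 + r) / 2 - 2 := by
    have h2 : (2 : k)⁻¹ * 2 = 1 := inv_mul_cancel₀ two
    rw [div_eq_mul_inv]
    generalize (2 : k)⁻¹ = t at h2
    linear_combination t ^ 2 * hr + ((1 + r) * t - 2 * (2 * t + 1)) * h2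
  have hi' : 63 * f i = 1 := by
    have := congrArg f hi
    simpa only [map_mul, map_ofNat, map_one] using this
  have e1 : (-7 : k) ^ n = -1 := by
    have e2 := legendreSym.eq_pow p (-7)
    have e3 := jac_odd (w := -7) (p := p) (by norm_num) (by omega)
    rw [show (-7 : ℤ).natAbs = 7 from rfl, h7, show s4 (-7) = 1 from rfl, ite_self] at e3
    rw [jacobiSym.legendreSym.to_jacobiSym, show p / 2 = n by omega, e3] at e2
    have := congrArg (algebraMap (ZMod p) k) e2
    simp only [map_pow, map_intCast] at this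
    push_cast at this
    rw [← this]
  have hg := congrArg (PowerSeries.map f) (g_sq hi)
  simp only [map_mul (PowerSeries.map f), map_add, map_sub, map_pow, map_one, PowerSeries.map_X,
    PowerSeries.map_C, PowerSeries.map_expand, map_Gs, map_mul f, map_ofNat] at hg
  obtain ⟨s1, s2⟩ := partB_field hn hφ hi' e1 hg
  constructor <;> apply hf <;> simp only [map_sum, map_mul, map_pow, map_natCast]
  · exact s1
  · exact s2

end Pool.Agent.MP_d8ab80_nt
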