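import Pool.Agent.MP_d8ab80_nt.Series

/-! Consequences modulo `p` of the polynomial identities of the multiplication by `π`. -/

set_option linter.unusedSectionVars false
set_option linter.unusedSimpArgs false

namespace Pool.Agent.MP_d8ab80_nt
open Polynomial

/-- The quartic. -/
noncomputable def QQ {A : Type*} [CommRing A] (c : A) : A[X] := 1 - 4 * X ^ 2 + C c * X ^ 4

/-- Half the derivative of the quartic. -/
noncomputable def Qh {A : Type*} [CommRing A] (c : A) : A[X] := -4 * X + 2 * C c * X ^ 3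

section
variable {A : Type*} [CommRing A]

lemma QQ_map {B : Type*} [CommRing B] (ρ : A →+* B) (c : A) : (QQ c).map ρ = QQ (ρ c) := by
  simp [QQ, Polynomial.map_sub]

lemma Qh_map {B : Type*} [CommRing B] (ρ : A →+* B) (c : A) : (Qh c).map ρ = Qh (ρ c) := by
  simp [Qh]

lemma QQ_deriv (c : A) : derivative (QQ c) = 2 * Qh c := by
  simp only [QQ, Qh, derivative_add, derivative_sub, derivative_mul, derivative_one, derivative_C,
    derivative_X_pow, derivative_ofNat, map_natCast]
  push_cast; ring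

lemma QQ_deg (c : A) : (QQ c).natDegree ≤ 4 := by unfold QQ; compute_degree

lemma QQ_c0 (c : A) : (QQ c).coeff 0 = 1 := by simp [QQ]

lemma QQ_c4 (c : A) : (QQ c).coeff 4 = c := by simp [QQ, coeff_one]

lemma QQ_ne_zero [Nontrivial A] (c : A) : QQ c ≠ 0 := by
  intro h
  have := QQ_c0 c
  rw [h] at this; simp at this

end

lemma frob_shape {p : ℕ} [hp : Fact p.Prime] {a F : (ZMod p)[X]}
    (h : derivative a * F = a * derivative F) (da : a.natDegree ≤ p) (dF : F.natDegree < p)
    (F0 : F.coeff 0 = 1) (a0 : a.coeff 0 = 0) (ap : a.coeff p = 1) : a = X ^ p ∧ F = 1 := by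
  have hne : ∀ j, j + 1 < p → ((j : ZMod p) + 1) ≠ 0 := by
    intro j hj h0
    have : ((j + 1 : ℕ) : ZMod p) = 0 := by push_cast; exact h0
    rw [ZMod.natCast_eq_zero_iff] at this
    exact absurd (Nat.le_of_dvd (by omega) this) (by omega)
  have key : ∀ j, j + 1 ≤ p → X ^ (j + 1) ∣ a := by
    intro j
    induction j with
    | zero => intro _; simpa [X_dvd_iff] using a0
    | succ j ih =>
      intro hj
      obtain ⟨b, rfl⟩ := ih (by omega)
      have h2 : (X : (ZMod p)[X]) ^ j * (C ((j : ZMod p) + 1) * b * F + X * derivative b * F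
          - X * b * derivative F) = 0 := by
        rw [derivative_mul, derivative_X_pow_succ] at h
        linear_combination h
      have h3 := (mul_eq_zero.1 h2).resolve_left (pow_ne_zero _ X_ne_zero)
      have h4 := congrArg (eval 0) h3
      rw [coeff_zero_eq_eval_zero] at F0
      simp only [eval_sub, eval_add, eval_mul, eval_C, eval_X, zero_mul, F0, eval_zero, mul_one,
        add_zero, sub_zero] at h4
      have h5 := (mul_eq_zero.1 h4).resolve_left (hne j (by omega))
      rw [pow_succ _ (j + 1)]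
      apply mul_dvd_mul_left
      rw [X_dvd_iff, coeff_zero_eq_eval_zero, h5]
  have hp1 := hp.out.one_lt
  have ha : a = X ^ p := by
    have h1 := key (p - 1) (by omega)
    rw [show p - 1 + 1 = p by omega, X_pow_dvd_iff] at h1
    ext i
    rw [coeff_X_pow]
    split_ifs with hi
    · rw [hi, ap]
    · rcases lt_or_gt_of_ne hi with hi | hi
      · exact h1 i hi
      · exact coeff_eq_zero_of_natDegree_lt (by omega)
  refine ⟨ha, ?_⟩
  rw [ha, derivative_X_pow, ZMod.natCast_self, map_zero, zero_mul, zero_mul] at h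
  have h1 := (mul_eq_zero.1 h.symm).resolve_left (pow_ne_zero _ X_ne_zero)
  ext i
  rcases i with _ | i
  · simpa using F0
  · rw [coeff_one, if_neg (by omega)]
    by_cases hi : i + 1 < p
    · have := congrArg (fun P => coeff P i) h1
      simp only [coeff_derivative, coeff_zero] at this
      exact (mul_eq_zero.1 this).resolve_right (hne i hi)
    · exact coeff_eq_zero_of_natDegree_lt (by omega)

variable {A : Type*} [CommRing A] [IsDomain A] [CharZero A] {p : ℕ} [hp : Fact p.Prime]

/-- The input data: multiplication by `π` as the rational map `a / F`. -/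
structure Pack (n : ℕ) (ρ : A →+* ZMod p) (c κ π π' : A) (a F : A[X]) : Prop where
  hn : p = 2 * n + 1
  hρ : ∀ x, ρ x = 0 ↔ (p : A) ∣ x
  hc : 63 * c = 256
  hκ : 21 * κ = 32
  hπ : π * π' = p
  hπ' : ρ π' ≠ 0
  h1 : QQ c * (derivative a * F - a * derivative F) ^ 2 =
    C π ^ 2 * (F ^ 4 - 4 * a ^ 2 * F ^ 2 + C c * a ^ 4)
  h2 : F * (QQ c * derivative (derivative F) + Qh c * derivative F) - QQ c * derivative F ^ 2 =
    F ^ 2 * (C (κ * (π ^ 2 - p)) + C (c * p) * X ^ 2) - C (c * π ^ 2) * a ^ 2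
  da : a.natDegree ≤ p
  dF : F.natDegree ≤ 2 * n
  a0 : a.coeff 0 = 0
  a1 : a.coeff 1 = π
  F0 : F.coeff 0 = 1
  ap : ρ (a.coeff p) = 1

/-- The derived data. -/
structure Pack2 (n : ℕ) (ρ : A →+* ZMod p) (c κ π π' : A) (a F a₁ f W : A[X]) (γ : ZMod p)
    (Γ : (ZMod p)[X]) : Prop where
  ea : a = X ^ p + C (p : A) * a₁
  eF : F = 1 + C (p : A) * f
  da : a₁.natDegree ≤ p
  df : f.natDegree ≤ 2 * n
  eW : derivative a * F - a * derivative F = C π * W
  QW : QQ c * W ^ 2 = F ^ 4 - 4 * a ^ 2 * F ^ 2 + C c * a ^ 4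
  Wp : W.map ρ = QQ (ρ c) ^ n
  th : C π' * (F * (QQ c * derivative (derivative f) + Qh c * derivative f)
    - C (p : A) * QQ c * derivative f ^ 2) =
    F ^ 2 * (C (κ * (π - π')) + C (c * π') * X ^ 2) - C (c * π) * a ^ 2
  eΓ : 63 * derivative (f.map ρ) * QQ (ρ c) ^ (n + 1) + 8 * (16 * X - 32 * X ^ 3) * QQ (ρ c) ^ n
    = Γ + C γ * X ^ (6 * n + 3)
  dΓ : Γ.natDegree ≤ 4 * n + 2
  eγ : ρ π' * γ = -256

lemma Pack.ρπ {n : ℕ} {ρ : A →+* ZMod p} {c κ π π' : A} {a F : A[X]}
    (h : Pack n ρ c κ π π' a F) : ρ π = 0 := by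
  have := congrArg ρ h.hπ
  rw [map_mul, map_p_eq_zero] at this
  exact (mul_eq_zero.1 this).resolve_right h.hπ'

lemma two_ne_zero_zmod {n : ℕ} (hn : p = 2 * n + 1) : (2 : ZMod p) ≠ 0 := by
  intro h
  have : ((2 : ℕ) : ZMod p) = 0 := by exact_mod_cast h
  rw [ZMod.natCast_eq_zero_iff] at this
  have h2 := (Nat.prime_dvd_prime_iff_eq hp.out Nat.prime_two).1 this
  omega

theorem Pack.pack2 {n : ℕ} {ρ : A →+* ZMod p} {c κ π π' : A} {a F : A[X]}
    (h : Pack n ρ c κ π π' a F) : ∃ a₁ f W γ Γ, Pack2 n ρ c κ π π' a F a₁ f W γ Γ := by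
  have hn := h.hn
  have hp1 := hp.out.one_lt
  have hp0 : (p : A) ≠ 0 := by exact_mod_cast hp.out.ne_zero
  have hπ0 : π ≠ 0 := by
    intro h0; apply hp0; rw [← h.hπ, h0, zero_mul]
  have ρπ := h.ρπ
  have w0 : (derivative a * F - a * derivative F).map ρ = 0 := by
    have := congrArg (Polynomial.map ρ) h.h1
    rw [Polynomial.map_mul, Polynomial.map_mul, Polynomial.map_pow, Polynomial.map_pow, map_C, ρπ,
      QQ_map, map_zero, zero_pow two_ne_zero, zero_mul] at this
    exact pow_eq_zero_iff two_ne_zero |>.1 ((mul_eq_zero.1 this).resolve_left (QQ_ne_zero _))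
  obtain ⟨ha, hF⟩ : a.map ρ = X ^ p ∧ F.map ρ = 1 := by
    apply frob_shape
    · rw [derivative_map, derivative_map, ← Polynomial.map_mul, ← Polynomial.map_mul,
        ← sub_eq_zero, ← Polynomial.map_sub, w0]
    · exact natDegree_map_le.trans h.da
    · exact natDegree_map_le.trans_lt (by have := h.dF; omega)
    · rw [coeff_map, h.F0, map_one]
    · rw [coeff_map, h.a0, map_zero]
    · rw [coeff_map, h.ap]
  obtain ⟨a₁, ea⟩ := poly_lift ρ h.hρ (f := a) (g := X ^ p) (by rw [ha]; simp)
  obtain ⟨f, eF⟩ := poly_lift ρ h.hρ (f := F) (g := 1) (by rw [hF]; simp)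
  obtain ⟨W₁, eW₁⟩ := poly_lift ρ h.hρ (g := 0) (by rw [w0]; simp)
  have da₁ : a₁.natDegree ≤ p := by
    rw [← natDegree_C_mul hp0, show C (p : A) * a₁ = a - X ^ p by rw [ea]; ring]
    exact (natDegree_sub_le _ _).trans (max_le h.da (natDegree_X_pow_le _))
  have df : f.natDegree ≤ 2 * n := by
    rw [← natDegree_C_mul hp0, show C (p : A) * f = F - 1 by rw [eF]; ring]
    exact (natDegree_sub_le _ _).trans (max_le h.dF (by simp))
  have hπC : C π * C π' = (C (p : A) : A[X]) := by rw [← C_mul, h.hπ]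
  have eW : derivative a * F - a * derivative F = C π * (C π' * W₁) := by
    rw [eW₁, ← hπC]; ring
  set W := C π' * W₁
  have QW : QQ c * W ^ 2 = F ^ 4 - 4 * a ^ 2 * F ^ 2 + C c * a ^ 4 := by
    apply mul_left_cancel₀ (pow_ne_zero 2 (C_ne_zero.2 hπ0))
    rw [← h.h1, eW]; ring
  have W0 : W.coeff 0 = 1 := by
    have := congrArg (fun P => coeff P 0) eW
    simp only [coeff_sub, mul_coeff_zero, coeff_derivative, h.a0, h.F0, coeff_C_zero, zero_add,
      h.a1] at this
    apply mul_left_cancel₀ hπ0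
    linear_combination -this
  have Wp : W.map ρ = QQ (ρ c) ^ n := by
    have h3 := congrArg (Polynomial.map ρ) QW
    simp only [Polynomial.map_mul, Polynomial.map_pow, Polynomial.map_add, Polynomial.map_sub,
      QQ_map, ha, hF, map_C, Polynomial.map_ofNat] at h3
    have h4 : QQ (ρ c) ^ p = 1 - 4 * (X ^ p) ^ 2 + C (ρ c) * (X ^ p) ^ 4 := by
      rw [← ZMod.expand_card]; simp [QQ, map_ofNat]
    have h5 : QQ (ρ c) * ((W.map ρ - QQ (ρ c) ^ n) * (W.map ρ + QQ (ρ c) ^ n)) = 0 := by
      have h6 : QQ (ρ c) ^ p = QQ (ρ c) * (QQ (ρ c) ^ n) ^ 2 := by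
        rw [← pow_mul, ← pow_succ']; congr 1; omega
      linear_combination h3 - h4 + h6
    rcases mul_eq_zero.1 ((mul_eq_zero.1 h5).resolve_left (QQ_ne_zero _)) with h6 | h6
    · exact sub_eq_zero.1 h6
    · exfalso
      have h7 := congrArg (fun P => coeff P 0) h6
      have h8 : (QQ (ρ c) ^ n).coeff 0 = 1 := by
        rw [← constantCoeff_apply, map_pow, constantCoeff_apply, QQ_c0, one_pow]
      simp only [coeff_add, coeff_map, W0, map_one, coeff_zero, h8] at h7
      exact two_ne_zero_zmod hn (by linear_combination h7)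
  have dF' : derivative F = C (p : A) * derivative f := by
    rw [eF]; simp
  have th : C π' * (F * (QQ c * derivative (derivative f) + Qh c * derivative f)
      - C (p : A) * QQ c * derivative f ^ 2) =
      F ^ 2 * (C (κ * (π - π')) + C (c * π') * X ^ 2) - C (c * π) * a ^ 2 := by
    apply mul_left_cancel₀ (C_ne_zero.2 hp0)
    have h2 := h.h2
    rw [dF', derivative_C_mul] at h2
    simp only [map_mul, map_sub, map_pow] at h2 ⊢
    linear_combination C π' * h2 + (F ^ 2 * C κ * C π - C c * C π * a ^ 2) * hπC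
  obtain ⟨m, rfl⟩ : ∃ m, n = m + 1 := ⟨n - 1, by omega⟩
  have lead : ρ π' * ρ (f.coeff (2 * m + 2)) = ρ c ^ (m + 1) := by
    have d1 : (derivative a).natDegree ≤ 2 * m + 2 :=
      (natDegree_derivative_le a).trans (by have := h.da; omega)
    have d2 : F.natDegree ≤ 2 * m + 2 := h.dF
    have d3 : a.natDegree ≤ 2 * m + 3 := by have := h.da; omega
    have d4 : (derivative F).natDegree ≤ 2 * m + 1 :=
      (natDegree_derivative_le F).trans (by omega)
    have h3 := congrArg (fun P => coeff P (4 * m + 4)) eW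
    simp only [coeff_sub, coeff_C_mul] at h3
    have e1 := coeff_mul_add_eq_of_natDegree_le d1 d2
    have e2 := coeff_mul_add_eq_of_natDegree_le d3 d4
    rw [show 2 * m + 2 + (2 * m + 2) = 4 * m + 4 by ring] at e1
    rw [show 2 * m + 3 + (2 * m + 1) = 4 * m + 4 by ring] at e2
    have e3 : F.coeff (2 * m + 2) = p * f.coeff (2 * m + 2) := by
      rw [eF, coeff_add, coeff_C_mul, coeff_one, if_neg (by omega), zero_add]
    rw [e1, e2, coeff_derivative, coeff_derivative, show 2 * m + 1 + 1 = 2 * m + 2 by ring,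
      show 2 * m + 2 + 1 = p by omega, e3] at h3
    have h4 : π' * a.coeff p * f.coeff (2 * m + 2) = W.coeff (4 * m + 4) := by
      apply mul_left_cancel₀ hπ0
      push_cast at h3
      linear_combination h3 + (a.coeff p * f.coeff (2 * m + 2)) * h.hπ
    have h5 := congrArg ρ h4
    rw [map_mul, map_mul, h.ap, mul_one, ← coeff_map ρ (4 * m + 4), Wp,
      show 4 * m + 4 = (m + 1) * 4 by ring, coeff_pow_of_natDegree_le (QQ_deg _), QQ_c4] at h5
    exact h5
  have thp : QQ (ρ c) * derivative (derivative (f.map ρ)) + Qh (ρ c) * derivative (f.map ρ) =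
      C (ρ c) * X ^ 2 - C (ρ κ) := by
    have h3 := congrArg (Polynomial.map ρ) th
    simp only [Polynomial.map_mul, Polynomial.map_pow, Polynomial.map_add, Polynomial.map_sub,
      QQ_map, Qh_map, hF, map_C, map_X, map_p_eq_zero, ← derivative_map, map_mul, map_sub, ρπ,
      map_zero] at h3
    apply mul_left_cancel₀ (C_ne_zero.2 h.hπ')
    linear_combination h3
  set fb := f.map ρ with hfb
  set cb := ρ c
  have dfb : fb.natDegree ≤ 2 * m + 2 := natDegree_map_le.trans df
  have dfb' : (derivative fb).natDegree ≤ 2 * m + 1 :=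
    (natDegree_derivative_le fb).trans (by omega)
  set G := 63 * derivative fb * QQ cb ^ (m + 1 + 1) + 8 * (16 * X - 32 * X ^ 3) * QQ cb ^ (m + 1)
    with hG
  have hc : (63 : (ZMod p)[X]) * C cb = 256 := by
    have := congrArg (fun x => C (ρ x)) h.hc
    simpa only [map_mul, map_ofNat] using this
  have hκ : (21 : (ZMod p)[X]) * C (ρ κ) = 32 := by
    have := congrArg (fun x => C (ρ x)) h.hκ
    simpa only [map_mul, map_ofNat] using this
  have hm : 2 * (m : (ZMod p)[X]) + 3 = 0 := by
    have : ((p : ℕ) : (ZMod p)[X]) = 0 := by rw [← map_natCast C, ZMod.natCast_self, map_zero]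
    have h3 : ((p : ℕ) : (ZMod p)[X]) = ((2 * (m + 1) + 1 : ℕ) : (ZMod p)[X]) :=
      congrArg Nat.cast hn
    rw [this] at h3
    push_cast at h3
    linear_combination -h3
  have dG : derivative G = QQ cb ^ m * (32 * QQ cb - 4 * C cb * X ^ 4) := by
    simp only [hG, derivative_add, derivative_mul, derivative_pow_succ, QQ_deriv, derivative_ofNat,
      derivative_sub, derivative_X, derivative_X_pow, map_add, map_natCast, map_one]
    push_cast
    have hQ : QQ cb = 1 - 4 * X ^ 2 + C cb * X ^ 4 := rfl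
    have hQh : Qh cb = -4 * X + 2 * C cb * X ^ 3 := rfl
    linear_combination (63 * QQ cb ^ (m + 1)) * thp
      + (63 * derivative fb * QQ cb ^ (m + 1) * Qh cb
        + 8 * (16 * X - 32 * X ^ 3) * QQ cb ^ m * Qh cb) * hm
      + (QQ cb ^ (m + 1) * X ^ 2 - 4 * QQ cb ^ m * X ^ 4) * hc - 3 * QQ cb ^ (m + 1) * hκ
      - (512 * X ^ 2 * QQ cb ^ m) * hQ - 8 * (16 * X - 32 * X ^ 3) * QQ cb ^ m * hQh
  have dQ : ∀ j, (QQ cb ^ j).natDegree ≤ j * 4 := fun j => natDegree_pow_le_of_le j (QQ_deg cb)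
  have d5 : (8 * (16 * X - 32 * X ^ 3) * QQ cb ^ (m + 1)).natDegree ≤ 3 + (m + 1) * 4 :=
    natDegree_mul_le_of_le (by compute_degree) (dQ _)
  have d6 : (63 * derivative fb).natDegree ≤ 2 * m + 1 := by
    rw [show (63 : (ZMod p)[X]) = C 63 from rfl]
    exact (natDegree_C_mul_le _ _).trans dfb'
  have degG : G.natDegree ≤ 6 * m + 9 :=
    natDegree_add_le_of_degree_le ((natDegree_mul_le_of_le d6 (dQ _)).trans (by omega))
      (d5.trans (by omega))
  have degG' : (derivative G).natDegree ≤ 4 * m + 4 := by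
    rw [dG]
    refine (natDegree_mul_le_of_le (dQ m) (show _ ≤ 4 from ?_)).trans (by omega)
    unfold QQ; compute_degree
  refine ⟨a₁, f, W, G.coeff (6 * m + 9), G - C (G.coeff (6 * m + 9)) * X ^ (6 * m + 9),
    ea, eF, da₁, df, eW, QW, Wp, th, ?_, ?_, ?_⟩
  · rw [show 6 * (m + 1) + 3 = 6 * m + 9 by ring]; ring
  · rw [natDegree_le_iff_coeff_eq_zero]
    intro N hN
    rw [coeff_sub, coeff_C_mul, coeff_X_pow]
    split_ifs with h3
    · rw [h3]; ring
    rw [mul_zero, sub_zero]
    rcases lt_or_gt_of_ne h3 with h3 | h3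
    · obtain ⟨M, rfl⟩ : ∃ M, N = M + 1 := ⟨N - 1, by omega⟩
      have h4 : (derivative G).coeff M = 0 := coeff_eq_zero_of_natDegree_lt (by omega)
      rw [coeff_derivative] at h4
      refine (mul_eq_zero.1 h4).resolve_right ?_
      intro h0
      have : ((M + 1 : ℕ) : ZMod p) = 0 := by push_cast; exact h0
      rw [ZMod.natCast_eq_zero_iff] at this
      obtain ⟨q, hq⟩ := this
      have q2 : 2 < q := by
        by_contra hh
        have : p * q ≤ p * 2 := Nat.mul_le_mul_left _ (by omega)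
        omega
      have : p * 3 ≤ p * q := Nat.mul_le_mul_left _ (by omega)
      omega
    · exact coeff_eq_zero_of_natDegree_lt (by omega)
  · have e1 := coeff_mul_add_eq_of_natDegree_le d6 (dQ (m + 1 + 1))
    rw [show 2 * m + 1 + (m + 1 + 1) * 4 = 6 * m + 9 by ring] at e1
    rw [hG, coeff_add, e1, coeff_eq_zero_of_natDegree_lt (d5.trans_lt (by omega)),
      coeff_pow_of_natDegree_le (QQ_deg _), QQ_c4, show (63 : (ZMod p)[X]) = C 63 from rfl,
      coeff_C_mul, coeff_derivative, hfb, coeff_map]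
    have hm' : 2 * (m : ZMod p) + 3 = 0 := by
      have : ((p : ℕ) : ZMod p) = 0 := ZMod.natCast_self p
      have h3 : ((p : ℕ) : ZMod p) = ((2 * (m + 1) + 1 : ℕ) : ZMod p) := congrArg Nat.cast hn
      rw [this] at h3
      push_cast at h3
      linear_combination -h3
    have hc' : (63 : ZMod p) * cb = 256 := by
      have := congrArg ρ h.hc
      simpa only [map_mul, map_ofNat] using this
    have hcp : cb ^ (m + 1) * cb ^ (m + 1 + 1) = cb := by
      rw [← pow_add, show m + 1 + (m + 1 + 1) = p by omega, ZMod.pow_card]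
    push_cast
    rw [show 2 * m + 1 + 1 = 2 * m + 2 by ring]
    linear_combination (63 * (2 * m + 2) * cb ^ (m + 1 + 1)) * lead + (63 * (2 * m + 2)) * hcp
      + (63 * cb) * hm' - hc'

end Pool.Agent.MP_d8ab80_nt
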