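import Pool.Agent.MP_d8ab80_nt.ODE

/-! Coefficient functionals, Frobenius expansion and reduction of power series. -/

set_option linter.unusedSectionVars false
set_option linter.unusedSimpArgs false

namespace Pool.Agent.MP_d8ab80_nt
open PowerSeries

section
variable {A : Type*} [CommRing A]

/-- The functional `3 [u ^ (p-1)] - [u ^ (3p-1)]`, `p = 2 n + 1`. -/
noncomputable def Lam (n : ℕ) (f : A⟦X⟧) : A := 3 * coeff (2 * n) f - coeff (6 * n + 2) f

/-- The functional `[u ^ p] - [u ^ (3p)]`, `p = 2 n + 1`. -/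
noncomputable def Psi (n : ℕ) (f : A⟦X⟧) : A := coeff (2 * n + 1) f - coeff (6 * n + 3) f

lemma Lam_add (n : ℕ) (f g : A⟦X⟧) : Lam n (f + g) = Lam n f + Lam n g := by
  simp only [Lam, map_add]; ring

lemma Lam_sub (n : ℕ) (f g : A⟦X⟧) : Lam n (f - g) = Lam n f - Lam n g := by
  simp only [Lam, map_sub]; ring

lemma Lam_C (n : ℕ) (a : A) (f : A⟦X⟧) : Lam n (C a * f) = a * Lam n f := by
  simp only [Lam, coeff_C_mul]; ring

lemma Psi_add (n : ℕ) (f g : A⟦X⟧) : Psi n (f + g) = Psi n f + Psi n g := by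
  simp only [Psi, map_add]; ring

lemma Psi_sub (n : ℕ) (f g : A⟦X⟧) : Psi n (f - g) = Psi n f - Psi n g := by
  simp only [Psi, map_sub]; ring

lemma Psi_C (n : ℕ) (a : A) (f : A⟦X⟧) : Psi n (C a * f) = a * Psi n f := by
  simp only [Psi, coeff_C_mul]; ring

lemma Psi_zero (n : ℕ) : Psi n (0 : A⟦X⟧) = 0 := by simp [Psi]

lemma Psi_sum (n : ℕ) {ι : Type*} (s : Finset ι) (f : ι → A⟦X⟧) :
    Psi n (∑ i ∈ s, f i) = ∑ i ∈ s, Psi n (f i) := by
  simp only [Psi, map_sum, Finset.sum_sub_distrib]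

lemma Lam_d (n : ℕ) (f : A⟦X⟧) : Lam n (d⁄dX A f) = 3 * (2 * n + 1) * Psi n f := by
  simp only [Lam, Psi, coeff_derivative]; push_cast; ring

lemma Psi_map {B : Type*} [CommRing B] (ρ : A →+* B) (n : ℕ) (f : A⟦X⟧) :
    Psi n (PowerSeries.map ρ f) = ρ (Psi n f) := by
  simp only [Psi, coeff_map, map_sub]

lemma Lam_expand (n : ℕ) (f : A⟦X⟧) :
    Lam n (X ^ (2 * n) * expand (2 * n + 1) (by omega) f) = 3 * coeff 0 f - coeff 2 f := by
  have h0 := coeff_X_pow_mul (expand (2 * n + 1) (by omega) f) (2 * n) 0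
  have h2 := coeff_X_pow_mul (expand (2 * n + 1) (by omega) f) (2 * n) ((2 * n + 1) * 2)
  rw [coeff_expand_mul, show (2 * n + 1) * 2 + 2 * n = 6 * n + 2 by ring] at h2
  rw [zero_add] at h0
  rw [Lam, h0, h2]
  simp

lemma Psi_X_pow_mul (n : ℕ) {N : ℕ} (hN : 6 * n + 3 < N) (f : A⟦X⟧) : Psi n (X ^ N * f) = 0 := by
  rw [Psi, coeff_X_pow_mul', coeff_X_pow_mul', if_neg (by omega), if_neg (by omega), sub_zero]

lemma d_expand (p : ℕ) (f : A⟦X⟧) : d⁄dX A (expand (p + 1) (by omega) f) =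
    ((p : A⟦X⟧) + 1) * X ^ p * expand (p + 1) (by omega) (d⁄dX A f) := by
  ext m
  have e : ((p : A⟦X⟧) + 1) = C ((p : A) + 1) := by simp
  rw [coeff_derivative, e, mul_assoc, coeff_C_mul, coeff_X_pow_mul', coeff_expand, coeff_expand]
  by_cases h : (p + 1) ∣ m + 1
  · obtain ⟨q, hq⟩ := h
    rcases q with _ | q
    · omega
    have hm : m - p = (p + 1) * q := by
      have : m + 1 = (p + 1) * q + (p + 1) := by rw [hq]; ring
      omega
    have hle : p ≤ m := by
      have : m + 1 = (p + 1) * q + (p + 1) := by rw [hq]; ring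
      omega
    have hc : ((m : A) + 1) = (p + 1) * (q + 1) := by exact_mod_cast congrArg (Nat.cast : ℕ → A) hq
    rw [if_pos ⟨_, hq⟩, if_pos hle, hm, if_pos (dvd_mul_right _ _), hq,
      Nat.mul_div_cancel_left _ (by omega), Nat.mul_div_cancel_left _ (by omega), coeff_derivative,
      hc]
    ring
  · rw [if_neg h, zero_mul]
    split_ifs with h1 h2
    · exfalso; apply h
      have : m + 1 = (m - p) + (p + 1) := by omega
      rw [this]; exact dvd_add h2 dvd_rfl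
    · simp
    · simp

lemma coeff_one_add_X_sq_pow (M N : ℕ) : coeff N ((1 + X ^ 2 : A⟦X⟧) ^ M) =
    if 2 ∣ N then (M.choose (N / 2) : A) else 0 := by
  have : (1 + X ^ 2 : A⟦X⟧) ^ M = expand 2 two_ne_zero (((1 + Polynomial.X : Polynomial A) ^ M :
      Polynomial A) : A⟦X⟧) := by
    simp
  rw [this, coeff_expand]
  simp only [Polynomial.coeff_coe, Polynomial.coeff_one_add_X_pow]

lemma Psi_pal (n i M : ℕ) (h : i + M = 4 * n + 2) :
    Psi n (X ^ i * (1 + X ^ 2 : A⟦X⟧) ^ M) = 0 := by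
  rw [Psi, coeff_X_pow_mul', coeff_X_pow_mul', coeff_one_add_X_sq_pow, coeff_one_add_X_sq_pow,
    if_pos (show i ≤ 6 * n + 3 by omega), sub_eq_zero]
  by_cases h1 : i ≤ 2 * n + 1
  · rw [if_pos h1]
    by_cases h2 : 2 ∣ 2 * n + 1 - i
    · rw [if_pos h2, if_pos (by omega), ← Nat.choose_symm_of_eq_add (show M = (2 * n + 1 - i) / 2 +
        (6 * n + 3 - i) / 2 by omega)]
    · rw [if_neg h2, if_neg (by omega)]
  · rw [if_neg h1]
    split_ifs with h2
    · rw [Nat.choose_eq_zero_of_lt (by omega)]; simp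
    · rfl

lemma Psi_pal_aeval (n : ℕ) {ie : A⟦X⟧} (hie : ie * (1 + X ^ 2) = 1) (b : Polynomial A)
    (hb : b.natDegree ≤ 4 * n + 2) :
    Psi n ((1 + X ^ 2) ^ (4 * n + 2) * Polynomial.aeval (X * ie) b) = 0 := by
  rw [Polynomial.aeval_eq_sum_range' (Nat.lt_succ_of_le hb), Finset.mul_sum, Psi_sum]
  refine Finset.sum_eq_zero fun i hi => ?_
  obtain ⟨M, hM⟩ : ∃ M, i + M = 4 * n + 2 := ⟨4 * n + 2 - i, by simp at hi; omega⟩
  have : (1 + X ^ 2) ^ (4 * n + 2) * (b.coeff i • (X * ie) ^ i) =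
      C (b.coeff i) * (X ^ i * (1 + X ^ 2 : A⟦X⟧) ^ M) := by
    rw [← hM, smul_eq_C_mul, pow_add, mul_pow]
    have : ie ^ i * (1 + X ^ 2) ^ i = 1 := by rw [← mul_pow, hie, one_pow]
    linear_combination (C (b.coeff i) * X ^ i * (1 + X ^ 2) ^ M) * this
  rw [this, Psi_C, Psi_pal n i M hM, mul_zero]

lemma map_d {B : Type*} [CommRing B] (ρ : A →+* B) (f : A⟦X⟧) :
    PowerSeries.map ρ (d⁄dX A f) = d⁄dX B (PowerSeries.map ρ f) := by
  ext n; simp [coeff_derivative]

lemma map_aeval' {B : Type*} [CommRing B] (ρ : A →+* B) (s : A⟦X⟧) (P : Polynomial A) :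
    PowerSeries.map ρ (Polynomial.aeval s P) =
      Polynomial.aeval (PowerSeries.map ρ s) (P.map ρ) := by
  induction P using Polynomial.induction_on' with
  | add p q hp hq => simp [hp, hq]
  | monomial n a => simp [Polynomial.aeval_monomial, PowerSeries.algebraMap_apply]

lemma d_aeval (s : A⟦X⟧) (P : Polynomial A) :
    d⁄dX A (Polynomial.aeval s P) = Polynomial.aeval s (Polynomial.derivative P) * d⁄dX A s := by
  rw [Derivation.map_aeval, smul_eq_mul]

lemma cc_aeval {s : A⟦X⟧} (hs : constantCoeff s = 0) (P : Polynomial A) :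
    constantCoeff (Polynomial.aeval s P) = P.coeff 0 := by
  induction P using Polynomial.induction_on' with
  | add p q hp hq => simp [hp, hq]
  | monomial n a =>
    rw [Polynomial.aeval_monomial, map_mul, map_pow, hs, Polynomial.coeff_monomial]
    rcases n with _ | n <;> simp [PowerSeries.algebraMap_apply]

lemma exists_inv {f : A⟦X⟧} (h : constantCoeff f = 1) : ∃ g, g * f = 1 :=
  ⟨invOfUnit f 1, by rw [mul_comm]; exact mul_invOfUnit f 1 (by simpa using h)⟩

end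

section red
variable {A : Type*} [CommRing A] {p : ℕ} [Fact p.Prime]

lemma expand_zmod (hp : p ≠ 0) (f : (ZMod p)⟦X⟧) : expand p hp f = f ^ p := by
  have := MvPowerSeries.map_frobenius_expand (R := ZMod p) p hp (f := f)
  rw [ZMod.frobenius_zmod] at this
  exact this

lemma map_expand_zmod (ρ : A →+* ZMod p) (hp : p ≠ 0) (f : A⟦X⟧) :
    PowerSeries.map ρ (expand p hp f) = PowerSeries.map ρ f ^ p := by
  rw [map_expand, expand_zmod]

lemma series_lift (ρ : A →+* ZMod p) (hρ : ∀ x, ρ x = 0 ↔ (p : A) ∣ x) {f g : A⟦X⟧}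
    (h : PowerSeries.map ρ f = PowerSeries.map ρ g) : ∃ k, f = g + C (p : A) * k := by
  have : ∀ n, ∃ y, coeff n (f - g) = p * y := fun n => (hρ _).1 (by
    rw [← coeff_map, map_sub, h, sub_self, map_zero])
  choose y hy using this
  refine ⟨mk y, ?_⟩
  ext n
  rw [map_add, coeff_C_mul, coeff_mk, ← hy, map_sub]; ring

lemma poly_lift (ρ : A →+* ZMod p) (hρ : ∀ x, ρ x = 0 ↔ (p : A) ∣ x) {f g : Polynomial A}
    (h : f.map ρ = g.map ρ) : ∃ k, f = g + Polynomial.C (p : A) * k := by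
  have : Polynomial.C (p : A) ∣ f - g := by
    rw [Polynomial.C_dvd_iff_dvd_coeff]
    intro n
    rw [← hρ, ← Polynomial.coeff_map, Polynomial.map_sub, h, sub_self, Polynomial.coeff_zero]
  obtain ⟨k, hk⟩ := this
  exact ⟨k, by rw [← hk]; ring⟩

lemma cancel_unit [IsDomain A] [CharZero A] (ρ : A →+* ZMod p) (hρ : ∀ x, ρ x = 0 ↔ (p : A) ∣ x)
    {u x : A} (hu : ρ u ≠ 0) (h : (p : A) ^ 2 ∣ u * x) : (p : A) ^ 2 ∣ x := by
  have hp0 : (p : A) ≠ 0 := by exact_mod_cast (Fact.out : p.Prime).ne_zero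
  have h1 : ∀ y, (p : A) ∣ u * y → (p : A) ∣ y := by
    intro y hy
    rw [← hρ, map_mul] at hy
    exact (hρ _).1 ((mul_eq_zero.1 hy).resolve_left hu)
  obtain ⟨y, rfl⟩ := h1 x ((dvd_pow_self _ two_ne_zero).trans h)
  rw [pow_two, mul_left_comm, mul_dvd_mul_iff_left hp0] at h
  rw [pow_two]
  exact mul_dvd_mul_left _ (h1 y h)

lemma map_p_eq_zero (ρ : A →+* ZMod p) : ρ (p : A) = 0 := by
  rw [map_natCast, ZMod.natCast_self]

end red

end Pool.Agent.MP_d8ab80_nt
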